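import Pool.Agent.LibOS96.Dup

/-!
# Ultrametricity of exchangeable arrays with the Ghirlanda and Guerra identities
-/

open MeasureTheory Set

namespace Pool.Agent.LibOS96

/-- the types of the replicas: `0`, and then alternating `1` and `2` -/
def typ (i : ℕ) : Fin 3 := if i = 0 then 0 else if i % 2 = 1 then 1 else 2

theorem typ_eq_zero {i : ℕ} (h : typ i = 0) : i = 0 := by
  by_contra h6
  unfold typ at h
  rw [if_neg h6] at h
  split_ifs at h
  · exact absurd h (by decide)
  · exact absurd h (by decide)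

theorem sum_typ (φ : Fin 3 → ℝ) (m : ℕ) :
    ∑ i ∈ Finset.range (2 * m + 1), φ (typ i) = φ 0 + m * φ 1 + m * φ 2 := by
  induction m with
  | zero => simp [typ]
  | succ m ih =>
    rw [show 2 * (m + 1) + 1 = (2 * m + 1) + 1 + 1 by ring, Finset.sum_range_succ,
      Finset.sum_range_succ, ih]
    have h1 : typ (2 * m + 1) = 1 := by
      unfold typ
      rw [if_neg (by omega), if_pos (by omega)]
    have h2 : typ (2 * m + 1 + 1) = 2 := by
      unfold typ
      rw [if_neg (by omega), if_neg (by omega)]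
    rw [h1, h2]
    push_cast
    ring

/-- the sets of allowed overlaps between replicas of the given types -/
def box (u v t s : ℝ) (a b : Fin 3) : Set ℝ :=
  if a = 0 then (if b = 0 then univ else if b = 1 then Iio u else Ioo v s)
  else if b = 0 then (if a = 1 then Iio u else Ioo v s)
  else if a = b then Iio s else Ico t s

theorem box_symm (u v t s : ℝ) (a b : Fin 3) : box u v t s a b = box u v t s b a := by
  fin_cases a <;> fin_cases b <;> simp [box]

theorem meas_box (u v t s : ℝ) (a b : Fin 3) : MeasurableSet (box u v t s a b) := by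
  unfold box
  split_ifs
  · exact MeasurableSet.univ
  · exact measurableSet_Iio
  · exact measurableSet_Ioo
  · exact measurableSet_Iio
  · exact measurableSet_Ioo
  · exact measurableSet_Iio
  · exact measurableSet_Ico

theorem box_sub {u v t s : ℝ} (hus : u ≤ s) (a : Fin 3) {b : Fin 3} (hb : b ≠ 0) :
    box u v t s a b ⊆ Iio s := by
  unfold box
  split_ifs with h1 h2 h3
  · exact Iio_subset_Iio hus
  · exact fun x hx => hx.2
  · exact Subset.rfl
  · exact fun x hx => hx.2

/-- the pattern event -/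
def Pat (u v t s : ℝ) (n : ℕ) : Set (ℕ → ℕ → ℝ) :=
  {R | ∀ p : ℕ × ℕ, (p.1 < n ∧ p.2 < n ∧ p.1 ≠ p.2) →
    R ∈ {R : ℕ → ℕ → ℝ | R p.1 p.2 ∈ box u v t s (typ p.1) (typ p.2)}}

theorem meas_Pat (u v t s : ℝ) (n : ℕ) : MeasurableSet (Pat u v t s n) :=
  meas_all _ _ fun _ => meas_entry (meas_box _ _ _ _ _ _)

variable {P : Measure (ℕ → ℕ → ℝ)} {ζ : Measure ℝ}

theorem GGArray.pat_step (H : GGArray P ζ) {u v t s : ℝ} (hus : u ≤ s)
    (hγ : ζ.real (Ici s) < 1) {n : ℕ} (hn : 3 ≤ n) (h : 0 < P.real (Pat u v t s n)) :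
    0 < P.real (Pat u v t s (n + 1)) := by
  have := H.prob
  obtain ⟨k, hk, hk0, hkn⟩ : ∃ k < n, typ k ≠ 0 ∧ typ k = typ n := by
    rcases Nat.mod_two_eq_zero_or_one n with h1 | h1
    · refine ⟨2, by omega, by decide, ?_⟩
      unfold typ
      rw [if_neg (by omega), if_neg (by omega), if_neg (by omega), if_neg (by omega)]
    · refine ⟨1, by omega, by decide, ?_⟩
      unfold typ
      rw [if_neg (by omega), if_pos (by omega), if_neg (by omega), if_pos (by omega)]
  set I : ℕ → ℕ → Set ℝ := fun i j => box u v t s (typ i) (typ j) with hI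
  have hIm : ∀ i j, MeasurableSet (I i j) := fun i j => meas_box _ _ _ _ _ _
  have hsub : Pat u v t s n ⊆ Wset n k I ∩ Sset n k I k := by
    intro R hR
    constructor
    · intro p hp
      exact hR p ⟨hp.1, hp.2.1, hp.2.2.2.2⟩
    · intro l hl
      exact hR (l, k) ⟨hl.1, hk, hl.2⟩
  have h1 : 0 < P.real (Wset n k I ∩ Sset n k I k) :=
    lt_of_lt_of_le h (measureReal_mono hsub (measure_ne_top _ _))
  have h2 := H.dup hk hIm (s := s) (fun l _ _ => box_sub hus _ hk0) hγ h1
  refine lt_of_lt_of_le h2 ?_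
  unfold Measure.real
  apply ENNReal.toReal_mono (measure_ne_top _ _)
  apply measure_mono_ae
  filter_upwards [H.symm] with R hRs hR
  obtain ⟨⟨⟨hW, hSk⟩, hSn⟩, hkn'⟩ := hR
  -- the pattern for ordered pairs
  have main : ∀ i j, i < j → j < n + 1 → R i j ∈ box u v t s (typ i) (typ j) := by
    intro i j hij hj
    rcases Nat.lt_succ_iff_lt_or_eq.1 hj with hjn | hjn
    · by_cases hik : i = k
      · have h3 := hSk j ⟨hjn, by omega⟩
        rw [mem_ofPred_eq] at h3
        rw [hRs, box_symm, hik]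
        exact h3
      · by_cases hjk : j = k
        · have h3 := hSk i ⟨by omega, hik⟩
          rw [hjk]
          exact h3
        · exact hW (i, j) ⟨by omega, hjn, hik, hjk, by simpa using hij.ne⟩
    · rw [hjn]
      by_cases hik : i = k
      · rw [hik, ← hkn]
        have h3 : box u v t s (typ k) (typ k) = Iio s := by
          unfold box
          rw [if_neg hk0, if_neg hk0, if_pos rfl]
        rw [h3]
        exact hkn'
      · have h3 := hSn i ⟨by omega, hik⟩
        rw [mem_ofPred_eq] at h3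
        rw [← hkn]
        exact h3
  change R ∈ Pat u v t s (n + 1)
  intro p hp
  rw [mem_ofPred_eq]
  rcases lt_or_gt_of_ne hp.2.2 with h3 | h3
  · exact main _ _ h3 hp.2.1
  · rw [hRs, box_symm]
    exact main _ _ h3 hp.1

/-- the core of the proof of ultrametricity -/
theorem GGArray.ultra_core (H : GGArray P ζ) {u v t s : ℝ} (huv : u < v) (hus : u ≤ s)
    (hst : s - t ≤ (v - u) ^ 2 / 4) : P.real (Pat u v t s 3) = 0 := by
  have := H.prob
  have := H.probζ
  by_contra hne
  have h0 : 0 < P.real (Pat u v t s 3) := lt_of_le_of_ne measureReal_nonneg (Ne.symm hne)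
  have hγ : ζ.real (Ici s) < 1 := by
    rw [← H.law_one measurableSet_Ici]
    have h1 : P.real {R : ℕ → ℕ → ℝ | R 0 1 ∈ Ici s} + P.real (Pat u v t s 3) ≤ 1 := by
      rw [← measureReal_union _ (meas_Pat _ _ _ _ _)]
      · exact measureReal_le_one
      · rw [Set.disjoint_left]
        intro R hR1 hR2
        have h2 := hR2 (0, 1) ⟨by norm_num, by norm_num, by norm_num⟩
        have h3 : box u v t s (typ 0) (typ 1) = Iio u := by
          unfold box typ; simp
        simp only [h3, mem_ofPred_eq, mem_Iio] at h2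
        have h4 : s ≤ R 0 1 := hR1
        linarith
    linarith
  have hall : ∀ n, 3 ≤ n → 0 < P.real (Pat u v t s n) := by
    intro n hn
    induction n, hn using Nat.le_induction with
    | base => exact h0
    | succ n hn ih => exact H.pat_step hus hγ hn ih
  set η : ℝ := v - u with hη
  have hη0 : 0 < η := by rw [hη]; linarith
  obtain ⟨m, hm⟩ := exists_nat_gt (max 1 (8 / η ^ 2))
  have hm1 : (1 : ℝ) < m := lt_of_le_of_lt (le_max_left _ _) hm
  have hm2 : 8 / η ^ 2 < m := lt_of_le_of_lt (le_max_right _ _) hm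
  have hm0 : (0 : ℝ) < m := by linarith
  have hmn : 1 < m := by exact_mod_cast hm1
  have hpos := hall (2 * m + 1) (by omega)
  have hzero : P (Pat u v t s (2 * m + 1)) = 0 := by
    rw [measure_eq_zero_iff_ae_notMem]
    filter_upwards [H.psd, H.diag, H.bdd] with R hp hdg hbd hR
    set X : Fin 3 → ℝ := ![η, 1 / m, -(1 / m)] with hX
    set M : Fin 3 → Fin 3 → ℝ := ![![1, u, v], ![u, s, t], ![v, t, s]] with hM
    have h1 := hp (2 * m + 1) (fun i => X (typ i))
    have hs1 : -1 < s := by
      have h2 := hR (1, 2) ⟨by omega, by omega, by norm_num⟩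
      have h3 : box u v t s (typ 1) (typ 2) = Ico t s := by
        unfold box typ; simp
      simp only [h3, mem_ofPred_eq, mem_Ico] at h2
      have h4 := (abs_le.1 (hbd 1 2)).1
      linarith
    have hterm : ∀ i ∈ Finset.range (2 * m + 1), ∀ j ∈ Finset.range (2 * m + 1),
        X (typ i) * X (typ j) * R i j ≤ X (typ i) * X (typ j) * M (typ i) (typ j) +
          if j = i then X (typ i) ^ 2 * (1 - M (typ i) (typ i)) else 0 := by
      intro i hi j hj
      rw [Finset.mem_range] at hi hj
      by_cases hij : j = i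
      · subst hij
        rw [if_pos rfl, hdg j]
        apply le_of_eq
        ring
      · rw [if_neg hij, add_zero]
        have h2 := hR (i, j) ⟨hi, hj, fun h => hij h.symm⟩
        rw [mem_ofPred_eq] at h2
        simp only at h2
        have hmi : 0 < 1 / (m : ℝ) := by positivity
        -- case analysis on the types
        have gen : ∀ a b : Fin 3, (a = 0 → b ≠ 0) → R i j ∈ box u v t s a b →
            X a * X b * R i j ≤ X a * X b * M a b := by
          intro a b hab hbox
          fin_cases a <;> fin_cases b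
          · exact absurd rfl (hab rfl)
          · have h3 : R i j < u := by simpa [box] using hbox
            have h4 : 0 < η * (1 / m) := by positivity
            simp only [hX, hM]
            change η * (1 / m) * R i j ≤ η * (1 / m) * u
            exact mul_le_mul_of_nonneg_left h3.le h4.le
          · have h3 : v < R i j := by
              have : R i j ∈ Ioo v s := by simpa [box] using hbox
              exact this.1
            have h4 : 0 < η * (1 / m) := by positivity
            change η * (-(1 / m)) * R i j ≤ η * (-(1 / m)) * v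
            nlinarith
          · have h3 : R i j < u := by simpa [box] using hbox
            have h4 : 0 < (1 / m) * η := by positivity
            change (1 / m) * η * R i j ≤ (1 / m) * η * u
            exact mul_le_mul_of_nonneg_left h3.le h4.le
          · have h3 : R i j < s := by simpa [box] using hbox
            have h4 : 0 < (1 / (m : ℝ)) * (1 / m) := by positivity
            change (1 / m) * (1 / m) * R i j ≤ (1 / m) * (1 / m) * s
            exact mul_le_mul_of_nonneg_left h3.le h4.le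
          · have h3 : t ≤ R i j := by
              have : R i j ∈ Ico t s := by simpa [box] using hbox
              exact this.1
            have h4 : 0 < (1 / (m : ℝ)) * (1 / m) := by positivity
            change (1 / m) * (-(1 / m)) * R i j ≤ (1 / m) * (-(1 / m)) * t
            nlinarith
          · have h3 : v < R i j := by
              have : R i j ∈ Ioo v s := by simpa [box] using hbox
              exact this.1
            have h4 : 0 < (1 / m) * η := by positivity
            change (-(1 / m)) * η * R i j ≤ (-(1 / m)) * η * v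
            nlinarith
          · have h3 : t ≤ R i j := by
              have : R i j ∈ Ico t s := by simpa [box] using hbox
              exact this.1
            have h4 : 0 < (1 / (m : ℝ)) * (1 / m) := by positivity
            change (-(1 / m)) * (1 / m) * R i j ≤ (-(1 / m)) * (1 / m) * t
            nlinarith
          · have h3 : R i j < s := by simpa [box] using hbox
            have h4 : 0 < (1 / (m : ℝ)) * (1 / m) := by positivity
            change (-(1 / m)) * (-(1 / m)) * R i j ≤ (-(1 / m)) * (-(1 / m)) * s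
            nlinarith
        apply gen _ _ _ h2
        intro h3 h4
        exact hij ((typ_eq_zero h4).trans (typ_eq_zero h3).symm)
    have h2 : ∑ i ∈ Finset.range (2 * m + 1), ∑ j ∈ Finset.range (2 * m + 1),
        X (typ i) * X (typ j) * R i j ≤ ∑ i ∈ Finset.range (2 * m + 1),
          (X (typ i) * (X 0 * M (typ i) 0 + m * (X 1 * M (typ i) 1) + m * (X 2 * M (typ i) 2)) +
            X (typ i) ^ 2 * (1 - M (typ i) (typ i))) := by
      apply Finset.sum_le_sum
      intro i hi
      calc _ ≤ ∑ j ∈ Finset.range (2 * m + 1), (X (typ i) * X (typ j) * M (typ i) (typ j) +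
          if j = i then X (typ i) ^ 2 * (1 - M (typ i) (typ i)) else 0) :=
            Finset.sum_le_sum fun j hj => hterm i hi j hj
        _ = _ := by
            rw [Finset.sum_add_distrib, Finset.sum_ite_eq' , if_pos hi]
            congr 1
            rw [← sum_typ (fun b => X b * M (typ i) b) m, Finset.mul_sum]
            apply Finset.sum_congr rfl
            intro j _
            ring
    rw [sum_typ (fun a => X a * (X 0 * M a 0 + m * (X 1 * M a 1) + m * (X 2 * M a 2)) +
            X a ^ 2 * (1 - M a a)) m] at h2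
    have h3 := h1.trans h2
    have e0 : X 0 = η := rfl
    have e1 : X 1 = 1 / m := rfl
    have e2 : X 2 = -(1 / m) := rfl
    have f00 : M 0 0 = 1 := rfl
    have f01 : M 0 1 = u := rfl
    have f02 : M 0 2 = v := rfl
    have f10 : M 1 0 = u := rfl
    have f11 : M 1 1 = s := rfl
    have f12 : M 1 2 = t := rfl
    have f20 : M 2 0 = v := rfl
    have f21 : M 2 1 = t := rfl
    have f22 : M 2 2 = s := rfl
    rw [e0, e1, e2, f00, f01, f02, f10, f11, f12, f20, f21, f22] at h3
    have e3 : η * (η * 1 + m * (1 / m * u) + m * (-(1 / m) * v)) + η ^ 2 * (1 - 1) +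
        m * (1 / m * (η * u + m * (1 / m * s) + m * (-(1 / m) * t)) + (1 / m) ^ 2 * (1 - s)) +
        m * (-(1 / m) * (η * v + m * (1 / m * t) + m * (-(1 / m) * s)) + (-(1 / m)) ^ 2 * (1 - s))
        = η ^ 2 - 2 * η * (v - u) + 2 * (s - t) + 2 * (1 - s) / m := by
      field_simp
      ring
    rw [e3, ← hη] at h3
    have h4 : 2 * (1 - s) / m < η ^ 2 / 2 := by
      rw [div_lt_iff₀ (by positivity)] at hm2
      rw [div_lt_iff₀ hm0]
      nlinarith
    nlinarith
  rw [Measure.real, hzero] at hpos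
  simp at hpos

/-- no violation of ultrametricity for the first three replicas -/
theorem GGArray.ultra_zero (H : GGArray P ζ) :
    ∀ᵐ R ∂P, ¬ (R 0 1 < R 0 2 ∧ R 0 2 ≤ R 1 2) := by
  have := H.prob
  have h1 : ∀ᵐ R ∂P, ∀ q : ℚ × ℚ × ℚ × ℚ, ((q.1 : ℝ) < q.2.1 ∧ (q.1 : ℝ) ≤ q.2.2.2 ∧
      (q.2.2.2 : ℝ) - q.2.2.1 ≤ ((q.2.1 : ℝ) - q.1) ^ 2 / 4) →
      R ∉ Pat q.1 q.2.1 q.2.2.1 q.2.2.2 3 := by
    rw [ae_all_iff]
    intro q
    by_cases hq : ((q.1 : ℝ) < q.2.1 ∧ (q.1 : ℝ) ≤ q.2.2.2 ∧
      (q.2.2.2 : ℝ) - q.2.2.1 ≤ ((q.2.1 : ℝ) - q.1) ^ 2 / 4)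
    · have h2 := H.ultra_core hq.1 hq.2.1 hq.2.2
      rw [Measure.real, ENNReal.toReal_eq_zero_iff] at h2
      have h3 := h2.resolve_right (measure_ne_top _ _)
      filter_upwards [measure_eq_zero_iff_ae_notMem.1 h3] with R hR _
      exact hR
    · exact Filter.Eventually.of_forall fun R h => absurd h hq
  filter_upwards [h1, H.symm] with R hR hRs
  rintro ⟨h2, h3⟩
  obtain ⟨u, hu1, hu2⟩ := exists_rat_btwn h2
  obtain ⟨v, hv1, hv2⟩ := exists_rat_btwn hu2
  have hη : (0 : ℝ) < ((v : ℝ) - u) ^ 2 / 8 := by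
    have : (0 : ℝ) < (v : ℝ) - u := by linarith
    positivity
  obtain ⟨t, ht1, ht2⟩ := exists_rat_btwn (show R 1 2 - ((v : ℝ) - u) ^ 2 / 8 < R 1 2 by linarith)
  obtain ⟨s, hs1, hs2⟩ := exists_rat_btwn (show R 1 2 < R 1 2 + ((v : ℝ) - u) ^ 2 / 8 by linarith)
  refine hR (u, v, t, s) ⟨hv1, by simp only; linarith, by simp only; linarith⟩ ?_
  have main : ∀ i j, i < j → j < 3 → R i j ∈ box u v t s (typ i) (typ j) := by
    intro i j hij hj
    have hcases : (i = 0 ∧ j = 1) ∨ (i = 0 ∧ j = 2) ∨ (i = 1 ∧ j = 2) := by omega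
    rcases hcases with ⟨rfl, rfl⟩ | ⟨rfl, rfl⟩ | ⟨rfl, rfl⟩
    · have : box (u : ℝ) v t s (typ 0) (typ 1) = Iio (u : ℝ) := by unfold box typ; simp
      rw [this]; exact hu1
    · have : box (u : ℝ) v t s (typ 0) (typ 2) = Ioo (v : ℝ) s := by unfold box typ; simp
      rw [this]; exact ⟨hv2, by linarith⟩
    · have : box (u : ℝ) v t s (typ 1) (typ 2) = Ico (t : ℝ) s := by unfold box typ; simp
      rw [this]; exact ⟨ht2.le, hs1⟩
  intro p hp
  rw [mem_ofPred_eq]
  rcases lt_or_gt_of_ne hp.2.2 with h4 | h4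
  · exact main _ _ h4 hp.2.1
  · rw [hRs, box_symm]
    exact main _ _ h4 hp.1

theorem rel_mul (σ τ : Equiv.Perm ℕ) : rel (σ * τ) = rel τ ∘ rel σ := rfl

/-- invariance under products of transpositions -/
theorem GGArray.exch_three (H : GGArray P ζ) {i j k : ℕ} (hij : i ≠ j) (hik : i ≠ k)
    (hjk : j ≠ k) : ∃ σ : Equiv.Perm ℕ, P.map (rel σ) = P ∧ σ 0 = i ∧ σ 1 = j ∧ σ 2 = k := by
  have hmul : ∀ σ : Equiv.Perm ℕ, P.map (rel σ) = P → ∀ a b,
      P.map (rel (σ * Equiv.swap a b)) = P := by
    intro σ hσ a b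
    rw [rel_mul, ← Measure.map_map (measurable_rel _) (measurable_rel _), hσ, H.exch]
  set σ₁ : Equiv.Perm ℕ := Equiv.swap 0 i with hσ₁
  have h1 : σ₁ 0 = i := Equiv.swap_apply_left _ _
  set σ₂ : Equiv.Perm ℕ := σ₁ * Equiv.swap 1 (σ₁.symm j) with hσ₂
  have hj' : σ₁.symm j ≠ 0 := by
    intro h
    rw [Equiv.symm_apply_eq, h1] at h
    exact hij h.symm
  have h2 : σ₂ 0 = i := by
    rw [hσ₂, Equiv.Perm.mul_apply, Equiv.swap_apply_of_ne_of_ne (by omega) hj'.symm, h1]
  have h3 : σ₂ 1 = j := by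
    rw [hσ₂, Equiv.Perm.mul_apply, Equiv.swap_apply_left, Equiv.apply_symm_apply]
  have hk0 : σ₂.symm k ≠ 0 := by
    intro h
    rw [Equiv.symm_apply_eq, h2] at h
    exact hik h.symm
  have hk1 : σ₂.symm k ≠ 1 := by
    intro h
    rw [Equiv.symm_apply_eq, h3] at h
    exact hjk h.symm
  refine ⟨σ₂ * Equiv.swap 2 (σ₂.symm k), hmul _ (hmul _ (H.exch 0 i) _ _) _ _, ?_, ?_, ?_⟩
  · rw [Equiv.Perm.mul_apply, Equiv.swap_apply_of_ne_of_ne (by omega) hk0.symm, h2]
  · rw [Equiv.Perm.mul_apply, Equiv.swap_apply_of_ne_of_ne (by omega) hk1.symm, h3]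
  · rw [Equiv.Perm.mul_apply, Equiv.swap_apply_left, Equiv.apply_symm_apply]

theorem GGArray.ultra_three (H : GGArray P ζ) {i j k : ℕ} (hij : i ≠ j) (hik : i ≠ k)
    (hjk : j ≠ k) : ∀ᵐ R ∂P, ¬ (R i j < R i k ∧ R i k ≤ R j k) := by
  obtain ⟨σ, hσ, h0, h1, h2⟩ := H.exch_three hij hik hjk
  have h := H.ultra_zero
  rw [← hσ] at h
  have h3 := ae_of_ae_map (measurable_rel σ).aemeasurable h
  filter_upwards [h3] with R hR
  simpa only [rel, h0, h1, h2] using hR

/-- **ultrametricity** -/
theorem GGArray.ultra (H : GGArray P ζ) :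
    ∀ᵐ R ∂P, ∀ i j k, min (R i k) (R j k) ≤ R i j := by
  have h1 : ∀ᵐ R ∂P, ∀ p : ℕ × ℕ × ℕ, (p.1 ≠ p.2.1 ∧ p.1 ≠ p.2.2 ∧ p.2.1 ≠ p.2.2) →
      ¬ (R p.1 p.2.1 < R p.1 p.2.2 ∧ R p.1 p.2.2 ≤ R p.2.1 p.2.2) := by
    rw [ae_all_iff]
    intro p
    by_cases hp : (p.1 ≠ p.2.1 ∧ p.1 ≠ p.2.2 ∧ p.2.1 ≠ p.2.2)
    · filter_upwards [H.ultra_three hp.1 hp.2.1 hp.2.2] with R hR _
      exact hR
    · exact Filter.Eventually.of_forall fun R h => absurd h hp
  filter_upwards [h1, H.symm, H.diag, H.bdd] with R hR hRs hdg hbd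
  intro i j k
  rcases eq_or_ne i j with rfl | hij
  · rw [min_self, hdg i]
    exact (le_abs_self _).trans (hbd i k)
  rcases eq_or_ne i k with rfl | hik
  · rw [hRs i j]; exact min_le_right _ _
  rcases eq_or_ne j k with rfl | hjk
  · exact min_le_left _ _
  by_contra hcon
  push Not at hcon
  rw [lt_min_iff] at hcon
  rcases le_total (R i k) (R j k) with h | h
  · exact hR (i, j, k) ⟨hij, hik, hjk⟩ ⟨hcon.1, h⟩
  · exact hR (j, i, k) ⟨hij.symm, hjk, hik⟩ ⟨by simp only; rw [hRs j i]; exact hcon.2, h⟩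

/-- **positivity** -/
theorem GGArray.nonneg (H : GGArray P ζ) : ∀ᵐ R ∂P, ∀ i j, 0 ≤ R i j := by
  have := H.prob
  have := H.probζ
  have h1 : ∀ᵐ R ∂P, 0 ≤ R 0 1 := by
    have h2 : ∀ᵐ R ∂P, ∀ m : ℕ, R ∉ {R : ℕ → ℕ → ℝ | R 0 1 ∈ Iic (-(1 / ((m : ℝ) + 1)))} := by
      rw [ae_all_iff]
      intro m
      have h3 : (0 : ℝ) < 1 / ((m : ℝ) + 1) := by positivity
      have h4 := H.pos_aux h3
      rw [← H.law_one measurableSet_Iic, Measure.real, ENNReal.toReal_eq_zero_iff] at h4
      exact measure_eq_zero_iff_ae_notMem.1 (h4.resolve_right (measure_ne_top _ _))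
    filter_upwards [h2] with R hR
    by_contra hcon
    push Not at hcon
    obtain ⟨m, hm⟩ := exists_nat_one_div_lt (show (0 : ℝ) < - R 0 1 by linarith)
    apply hR m
    rw [mem_Iic]
    linarith
  have h2 : ∀ i j : ℕ, i ≠ j → ∀ᵐ R ∂P, 0 ≤ R i j := by
    intro i j hij
    obtain ⟨k, hk1, hk2⟩ : ∃ k : ℕ, i ≠ k ∧ j ≠ k := ⟨i + j + 1, by omega, by omega⟩
    obtain ⟨σ, hσ, e0, e1, e2⟩ := H.exch_three hij hk1 hk2
    have h := h1
    rw [← hσ] at h
    have h3 := ae_of_ae_map (measurable_rel σ).aemeasurable h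
    filter_upwards [h3] with R hR
    simpa only [rel, e0, e1] using hR
  have h3 : ∀ᵐ R ∂P, ∀ p : ℕ × ℕ, p.1 ≠ p.2 → 0 ≤ R p.1 p.2 := by
    rw [ae_all_iff]
    intro p
    by_cases hp : p.1 ≠ p.2
    · filter_upwards [h2 _ _ hp] with R hR _
      exact hR
    · exact Filter.Eventually.of_forall fun R h => absurd h hp
  filter_upwards [h3, H.diag] with R hR hdg i j
  rcases eq_or_ne i j with rfl | hij
  · rw [hdg i]; norm_num
  · exact hR (i, j) hij

end Pool.Agent.LibOS96
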