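import Pool.Agent.LibOS96.ChainF

/-!
# The chain over thresholds: functions of linear growth
-/

open MeasureTheory ProbabilityTheory Set Filter Topology
open Pool.Agent.OS

namespace Pool.Agent.LibOS96

variable {P : Measure (ℕ → ℕ → ℝ)} {ζ : Measure ℝ} {s : ℝ} {L : List (ℝ × ℝ)} {n : ℕ}

theorem int_exp_lin (C : Matrix (Fin n) (Fin n) ℝ) (b : ℝ) (i : Fin n) :
    Integrable (fun z : Fin n → ℝ => Real.exp (b * z i)) (gm C) := by
  have hm : Measurable (fun z : Fin n → ℝ => Real.exp (b * z i)) := by fun_prop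
  refine (gm_expint C |b|).mono' hm.aestronglyMeasurable
    (Filter.Eventually.of_forall fun z => ?_)
  rw [Real.norm_eq_abs, abs_of_pos (Real.exp_pos _)]
  apply Real.exp_le_exp.2
  calc b * z i ≤ |b * z i| := le_abs_self _
    _ = |b| * |z i| := abs_mul _ _
    _ ≤ |b| * ∑ i, |z i| := mul_le_mul_of_nonneg_left
        (Finset.single_le_sum (f := fun i => |z i|) (fun j _ => abs_nonneg _) (Finset.mem_univ i))
        (abs_nonneg _)

theorem mgf_coord {C : Matrix (Fin n) (Fin n) ℝ} (hC : C.PosSemidef) (b : ℝ) (i : Fin n) :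
    ∫ z, Real.exp (b * z i) ∂(gm C) = Real.exp (b ^ 2 * C i i / 2) := by
  have h := gm_mgf hC (fun j => if j = i then b else 0)
  have h1 : ∀ z : Fin n → ℝ, ∑ j, (if j = i then b else 0) * z j = b * z i := by
    intro z
    simp [Finset.sum_ite_eq']
  have h2 : ∑ j, ∑ k, (if j = i then b else 0) * C j k * (if k = i then b else 0) =
      b ^ 2 * C i i := by
    simp [Finset.sum_ite_eq', pow_two]
    ring
  rw [h2] at h
  simp_rw [h1] at h
  exact h

/-- exponential moments of the absolute value of a coordinate -/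
theorem int_expabs {C : Matrix (Fin n) (Fin n) ℝ} (hC : C.PosSemidef) (b : ℝ) (i : Fin n) :
    Integrable (fun z : Fin n → ℝ => Real.exp (b * |z i|)) (gm C) ∧
    ∫ z, Real.exp (b * |z i|) ∂(gm C) ≤ 2 * Real.exp (b ^ 2 * C i i / 2) := by
  have hle : ∀ z : Fin n → ℝ, Real.exp (b * |z i|) ≤
      Real.exp (b * z i) + Real.exp (-b * z i) := by
    intro z
    rcases abs_cases (z i) with ⟨h, _⟩ | ⟨h, _⟩
    · rw [h]
      linarith [Real.exp_pos (-b * z i)]
    · rw [h]
      have : b * -z i = -b * z i := by ring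
      rw [this]
      linarith [Real.exp_pos (b * z i)]
  have h1 := int_exp_lin C b i
  have h2 := int_exp_lin C (-b) i
  have h3 : Integrable (fun z : Fin n → ℝ => Real.exp (b * |z i|)) (gm C) := by
    have hm : Measurable (fun z : Fin n → ℝ => Real.exp (b * |z i|)) := by fun_prop
    refine (h1.add h2).mono' hm.aestronglyMeasurable
      (Filter.Eventually.of_forall fun z => ?_)
    rw [Real.norm_eq_abs, abs_of_pos (Real.exp_pos _)]
    exact hle z
  refine ⟨h3, ?_⟩
  calc ∫ z, Real.exp (b * |z i|) ∂(gm C)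
      ≤ ∫ z, (Real.exp (b * z i) + Real.exp (-b * z i)) ∂(gm C) :=
        integral_mono h3 (h1.add h2) hle
    _ = 2 * Real.exp (b ^ 2 * C i i / 2) := by
        rw [integral_add h1 h2, mgf_coord hC, mgf_coord hC]
        ring_nf

/-- average of exponentials -/
noncomputable def av (n : ℕ) (A : ℝ → ℝ) (z : Fin n → ℝ) : ℝ :=
  (1 / (n:ℝ)) * ∑ i, Real.exp (A (z i))

theorem av_pos (hn : 1 ≤ n) (A : ℝ → ℝ) (z : Fin n → ℝ) : 0 < av n A z := by
  have hn0 : (0 : ℝ) < n := by exact_mod_cast hn
  unfold av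
  apply mul_pos (by positivity)
  apply Finset.sum_pos (fun i _ => Real.exp_pos _)
  exact ⟨⟨0, hn⟩, Finset.mem_univ _⟩

theorem av_mono {A A' : ℝ → ℝ} (h : ∀ y, A y ≤ A' y) (z : Fin n → ℝ) : av n A z ≤ av n A' z :=
  mul_le_mul_of_nonneg_left (Finset.sum_le_sum fun i _ => Real.exp_le_exp.2 (h _)) (by positivity)

theorem av_const (hn : 1 ≤ n) (a : ℝ) (z : Fin n → ℝ) : av n (fun _ => a) z = Real.exp a := by
  have hn0 : (0 : ℝ) < n := by exact_mod_cast hn
  unfold av
  rw [Finset.sum_const, Finset.card_univ, Fintype.card_fin, nsmul_eq_mul]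
  field_simp

theorem av_meas {A : ℝ → ℝ} (hA : Measurable A) : Measurable (av n A) :=
  (Finset.measurable_sum _ fun i _ =>
    Real.measurable_exp.comp (hA.comp (measurable_pi_apply i))).const_mul _

/-- arithmetic and harmonic mean -/
theorem inv_av_le (hn : 1 ≤ n) (A : ℝ → ℝ) (z : Fin n → ℝ) :
    (av n A z)⁻¹ ≤ av n (fun y => - A y) z := by
  have hn0 : (0 : ℝ) < n := by exact_mod_cast hn
  have ha := av_pos hn A z
  set a := av n A z with hadef
  have h1 : ∀ i : Fin n, 2 / a - Real.exp (A (z i)) / a ^ 2 ≤ Real.exp (- A (z i)) := by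
    intro i
    rw [Real.exp_neg]
    set u := Real.exp (A (z i)) with hu
    have hu0 : 0 < u := Real.exp_pos _
    have h2 : u⁻¹ - (2 / a - u / a ^ 2) = (u - a) ^ 2 / (u * a ^ 2) := by
      field_simp
      ring
    have h3 : 0 ≤ (u - a) ^ 2 / (u * a ^ 2) := by positivity
    linarith
  have h2 : (1 / (n:ℝ)) * ∑ i : Fin n, (2 / a - Real.exp (A (z i)) / a ^ 2) ≤
      av n (fun y => - A y) z :=
    mul_le_mul_of_nonneg_left (Finset.sum_le_sum fun i _ => h1 i) (by positivity)
  have h3 : (1 / (n:ℝ)) * ∑ i : Fin n, (2 / a - Real.exp (A (z i)) / a ^ 2) = a⁻¹ := by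
    rw [Finset.sum_sub_distrib, Finset.sum_const, Finset.card_univ, Fintype.card_fin,
      nsmul_eq_mul, ← Finset.sum_div]
    have h4 : ∑ i : Fin n, Real.exp (A (z i)) = n * a := by
      rw [hadef]
      unfold av
      field_simp
    rw [h4]
    field_simp
    ring
  rw [h3] at h2
  exact h2

/-- pointwise comparison of the truncated and the original logarithm -/
theorem log_av_trn (hn : 1 ≤ n) (A : ℝ → ℝ) (m : ℕ) (z : Fin n → ℝ) :
    Real.log (av n (trn A m) z) ≤ Real.log (av n A z) + Real.exp (-m) * av n (fun y => - A y) z := by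
  have hn0 : (0 : ℝ) < n := by exact_mod_cast hn
  have ha := av_pos hn A z
  have h1 : av n (trn A m) z ≤ av n A z + Real.exp (-m) := by
    unfold av
    calc (1 / (n:ℝ)) * ∑ i, Real.exp (trn A m (z i))
        ≤ (1 / (n:ℝ)) * ∑ i, (Real.exp (A (z i)) + Real.exp (-m)) :=
          mul_le_mul_of_nonneg_left (Finset.sum_le_sum fun i _ => exp_trn_le A m _) (by positivity)
      _ = _ := by
          rw [Finset.sum_add_distrib, Finset.sum_const, Finset.card_univ, Fintype.card_fin,
            nsmul_eq_mul]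
          field_simp
  have h2 : av n A z + Real.exp (-m) = av n A z * (1 + Real.exp (-m) * (av n A z)⁻¹) := by
    field_simp
  have h3 : 0 < 1 + Real.exp (-m) * (av n A z)⁻¹ := by positivity
  calc Real.log (av n (trn A m) z) ≤ Real.log (av n A z + Real.exp (-m)) :=
        Real.log_le_log (av_pos hn _ z) h1
    _ = Real.log (av n A z) + Real.log (1 + Real.exp (-m) * (av n A z)⁻¹) := by
        rw [h2, Real.log_mul ha.ne' h3.ne']
    _ ≤ Real.log (av n A z) + Real.exp (-m) * (av n A z)⁻¹ := by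
        have := Real.log_le_sub_one_of_pos h3
        linarith
    _ ≤ _ := by
        have := mul_le_mul_of_nonneg_left (inv_av_le hn A z) (Real.exp_pos (-(m:ℝ))).le
        linarith

/-- integrability of the logarithm of the average -/
theorem int_log_av (hn : 1 ≤ n) {B : ℝ} {A : ℝ → ℝ} (H : Lin B A) (C : Matrix (Fin n) (Fin n) ℝ) :
    Integrable (fun z => Real.log (av n A z)) (gm C) := by
  have h0 : Integrable (fun z : Fin n → ℝ => B * (1 + Real.exp (1 * ∑ i, |z i|))) (gm C) :=
    ((integrable_const _).add (gm_expint C 1)).const_mul _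
  refine h0.mono' (Real.measurable_log.comp (av_meas H.meas)).aestronglyMeasurable
    (Filter.Eventually.of_forall fun z => ?_)
  set S := ∑ i, |z i| with hS
  have hS0 : 0 ≤ S := Finset.sum_nonneg fun i _ => abs_nonneg _
  have h1 : ∀ i, |A (z i)| ≤ B * (1 + S) := fun i => (H.bd (z i)).trans
    (mul_le_mul_of_nonneg_left (by
      have := Finset.single_le_sum (f := fun i => |z i|) (fun j _ => abs_nonneg _)
        (Finset.mem_univ i)
      linarith) H.B0)
  have hn0 : (0 : ℝ) < n := by exact_mod_cast hn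
  have h2 : av n A z ≤ Real.exp (B * (1 + S)) := by
    rw [← av_const hn (B * (1 + S)) z]
    unfold av
    apply mul_le_mul_of_nonneg_left _ (by positivity)
    exact Finset.sum_le_sum fun i _ => Real.exp_le_exp.2 ((le_abs_self _).trans (h1 i))
  have h3 : Real.exp (-(B * (1 + S))) ≤ av n A z := by
    rw [← av_const hn (-(B * (1 + S))) z]
    unfold av
    apply mul_le_mul_of_nonneg_left _ (by positivity)
    exact Finset.sum_le_sum fun i _ => Real.exp_le_exp.2 (by
      have := (neg_abs_le (A (z i)))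
      have := h1 i
      linarith)
  have h4 : |Real.log (av n A z)| ≤ B * (1 + S) := by
    rw [abs_le]
    constructor
    · rw [Real.le_log_iff_exp_le (av_pos hn _ _)]; exact h3
    · rw [Real.log_le_iff_le_exp (av_pos hn _ _)]; exact h2
  rw [Real.norm_eq_abs]
  refine h4.trans (mul_le_mul_of_nonneg_left ?_ H.B0)
  have := Real.add_one_le_exp (1 * S)
  linarith

/-- the mean of the average of the reciprocals -/
theorem int_av_neg (hn : 1 ≤ n) {B : ℝ} {A : ℝ → ℝ} (H : Lin B A) {C : Matrix (Fin n) (Fin n) ℝ}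
    (hC : C.PosSemidef) {S : ℝ} (hS : ∀ i, C i i ≤ S) :
    Integrable (fun z => av n (fun y => - A y) z) (gm C) ∧
    ∫ z, av n (fun y => - A y) z ∂(gm C) ≤ Real.exp B * (2 * Real.exp (B ^ 2 * S / 2)) := by
  have hn0 : (0 : ℝ) < n := by exact_mod_cast hn
  have hle : ∀ z : Fin n → ℝ, av n (fun y => - A y) z ≤
      (1 / (n : ℝ)) * ∑ i, Real.exp B * Real.exp (B * |z i|) := by
    intro z
    unfold av
    apply mul_le_mul_of_nonneg_left _ (by positivity)
    apply Finset.sum_le_sum
    intro i _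
    rw [← Real.exp_add]
    apply Real.exp_le_exp.2
    have := (neg_le_abs (A (z i))).trans (H.bd (z i))
    linarith
  have h1 : Integrable (fun z : Fin n → ℝ => (1 / (n : ℝ)) * ∑ i, Real.exp B *
      Real.exp (B * |z i|)) (gm C) :=
    (integrable_finsetSum _ fun i _ => ((int_expabs hC B i).1.const_mul _)).const_mul _
  have h2 : Integrable (fun z => av n (fun y => - A y) z) (gm C) := by
    refine h1.mono' (av_meas H.meas.neg).aestronglyMeasurable
      (Filter.Eventually.of_forall fun z => ?_)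
    rw [Real.norm_eq_abs, abs_of_pos (av_pos hn _ z)]
    exact hle z
  refine ⟨h2, ?_⟩
  calc ∫ z, av n (fun y => - A y) z ∂(gm C)
      ≤ ∫ z, (1 / (n : ℝ)) * ∑ i, Real.exp B * Real.exp (B * |z i|) ∂(gm C) :=
        integral_mono h2 h1 hle
    _ = (1 / (n : ℝ)) * ∑ i, Real.exp B * ∫ z, Real.exp (B * |z i|) ∂(gm C) := by
        rw [integral_const_mul, integral_finsetSum _
          (fun i _ => ((int_expabs hC B i).1.const_mul _))]
        simp_rw [integral_const_mul]
    _ ≤ (1 / (n : ℝ)) * ∑ _i : Fin n, Real.exp B * (2 * Real.exp (B ^ 2 * S / 2)) := by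
        apply mul_le_mul_of_nonneg_left _ (by positivity)
        apply Finset.sum_le_sum
        intro i _
        apply mul_le_mul_of_nonneg_left _ (Real.exp_pos _).le
        refine (int_expabs hC B i).2.trans ?_
        apply mul_le_mul_of_nonneg_left _ (by norm_num)
        apply Real.exp_le_exp.2
        have := mul_le_mul_of_nonneg_left (hS i) (sq_nonneg B)
        linarith
    _ = _ := by
        rw [Finset.sum_const, Finset.card_univ, Fintype.card_fin, nsmul_eq_mul]
        field_simp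

theorem ML_trn_le (hn : 1 ≤ n) {B : ℝ} {A : ℝ → ℝ} (H : Lin B A)
    (hL : ∀ p ∈ L, p.1 ≤ 1 ∧ 0 ≤ p.2) {cl : ℝ} (hcl : 0 ≤ cl) {R : ℕ → ℕ → ℝ} (hR : Good R)
    (m : ℕ) :
    ML L cl n (trn A m) R ≤ ML L cl n A R + Real.exp (-m) *
      (Real.exp B * (2 * Real.exp (B ^ 2 * ((L.map Prod.snd).sum + cl) / 2))) := by
  have hC := Km_psd L hL cl hcl hR n
  have hS : ∀ i, Km L cl n R i i ≤ (L.map Prod.snd).sum + cl := by
    intro i
    unfold Km
    rw [if_pos rfl]
    have : (L.map (fun p => if p.1 ≤ R i i then p.2 else 0)).sum ≤ (L.map Prod.snd).sum := by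
      apply List.sum_le_sum
      intro p hp
      rw [hR.diag, if_pos (hL p hp).1]
    linarith
  obtain ⟨h1, h2⟩ := int_av_neg hn H hC hS
  have h3 := int_log_av hn H (Km L cl n R)
  have h4 := int_log_av hn (trn_Lin H m) (Km L cl n R)
  have h5 : ∫ z, Real.log (av n (trn A m) z) ∂(gm (Km L cl n R)) ≤
      ∫ z, (Real.log (av n A z) + Real.exp (-m) * av n (fun y => - A y) z)
        ∂(gm (Km L cl n R)) :=
    integral_mono h4 (h3.add (h1.const_mul _)) (log_av_trn hn A m)
  rw [integral_add h3 (h1.const_mul _), integral_const_mul] at h5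
  have h6 := mul_le_mul_of_nonneg_left h2 (Real.exp_pos (-(m:ℝ))).le
  unfold ML
  unfold av at h5 h6
  linarith

/-- the chain -/
theorem GGArray.chain3 (H : GGArray P ζ) (L : List (ℝ × ℝ))
    (hs : L.Pairwise (fun p q => p.1 ≤ q.1)) (hL : ∀ p ∈ L, p.1 ≤ 1 ∧ 0 ≤ p.2)
    {cl : ℝ} (hcl : 0 ≤ cl) {B : ℝ} {A : ℝ → ℝ} (HA : Lin B A) {ε : ℝ} (hε : 0 < ε) :
    ∀ᶠ n : ℕ in atTop,
      tn (L.map (fun p => (ζ.real (Iio p.1), p.2)) ++ [(1, cl)]) A 0 - ε ≤
        ∫ R, ML L cl n A R ∂P := by
  have := H.prob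
  have := H.probζ
  obtain ⟨B', _, _, hlim⟩ := Lin.tn_tendsto
    (L.map (fun p => (ζ.real (Iio p.1), p.2)) ++ [(1, cl)]) (by
      intro p hp
      rw [List.mem_append, List.mem_map, List.mem_singleton] at hp
      rcases hp with ⟨q, _, rfl⟩ | rfl
      · exact measureReal_nonneg
      · exact zero_le_one) HA (fun m => trn_Lin HA m) (fun y => trn_tendsto A y)
  set V := tn (L.map (fun p => (ζ.real (Iio p.1), p.2)) ++ [(1, cl)]) A 0 with hV
  set D := Real.exp B * (2 * Real.exp (B ^ 2 * ((L.map Prod.snd).sum + cl) / 2)) with hD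
  have hDl : Tendsto (fun m : ℕ => Real.exp (-(m:ℝ)) * D) atTop (𝓝 0) := by
    have h1 : Tendsto (fun m : ℕ => Real.exp (-(m:ℝ))) atTop (𝓝 0) :=
      Real.tendsto_exp_neg_atTop_nhds_zero.comp tendsto_natCast_atTop_atTop
    simpa using h1.mul_const D
  have hV3 : V - ε / 3 < V := by linarith
  obtain ⟨m, hm1, hm2⟩ := ((hlim 0).eventually (lt_mem_nhds hV3)).and
    (hDl.eventually (ge_mem_nhds (show (0:ℝ) < ε / 3 by positivity))) |>.exists
  filter_upwards [H.chain2 L hs hL hcl (trn_Bd HA.meas m) (show (0:ℝ) < ε / 3 by positivity),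
    eventually_ge_atTop 1] with n hn hn1
  have h1 : ∫ R, ML L cl n (trn A m) R ∂P ≤ ∫ R, (ML L cl n A R + Real.exp (-(m:ℝ)) * D) ∂P := by
    apply integral_mono_ae (patDep_ML cl _).integrable
      ((patDep_ML cl _).integrable.add (integrable_const _))
    filter_upwards [H.good] with R hR
    exact ML_trn_le hn1 HA hL hcl hR m
  rw [integral_add (patDep_ML cl _).integrable (integrable_const _), integral_const,
    probReal_univ, one_smul] at h1
  linarith

end Pool.Agent.LibOS96
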