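import Mathlib

/-!
# Exchangeable arrays with the Ghirlanda and Guerra identities: positivity and ultrametricity
-/

open MeasureTheory Set

namespace Pool.Agent.LibOS96

/-- the set `E` of arrays is determined by the entries with indices below `n` -/
def DepOn (n : ℕ) (E : Set (ℕ → ℕ → ℝ)) : Prop :=
  ∀ R R' : ℕ → ℕ → ℝ, (∀ i < n, ∀ j < n, R i j = R' i j) → (R ∈ E → R' ∈ E)

/-- relabelling of the replicas -/
def rel (σ : Equiv.Perm ℕ) (R : ℕ → ℕ → ℝ) : ℕ → ℕ → ℝ := fun i j => R (σ i) (σ j)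

/-- exchangeable positive semidefinite arrays which satisfy the Ghirlanda and Guerra identities -/
structure GGArray (P : Measure (ℕ → ℕ → ℝ)) (ζ : Measure ℝ) : Prop where
  prob : IsProbabilityMeasure P
  probζ : IsProbabilityMeasure ζ
  diag : ∀ᵐ R ∂P, ∀ i, R i i = 1
  symm : ∀ᵐ R ∂P, ∀ i j, R i j = R j i
  bdd : ∀ᵐ R ∂P, ∀ i j, |R i j| ≤ 1
  psd : ∀ᵐ R ∂P, ∀ (n : ℕ) (x : ℕ → ℝ),
    0 ≤ ∑ i ∈ Finset.range n, ∑ j ∈ Finset.range n, x i * x j * R i j
  exch : ∀ a b : ℕ, P.map (rel (Equiv.swap a b)) = P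
  gg : ∀ n : ℕ, 1 ≤ n → ∀ E : Set (ℕ → ℕ → ℝ), MeasurableSet E → DepOn n E →
    ∀ B : Set ℝ, MeasurableSet B → P.real (E ∩ {R | R 0 n ∈ B}) =
      (P.real E * ζ.real B + ∑ l ∈ Finset.Ico 1 n, P.real (E ∩ {R | R 0 l ∈ B})) / n

theorem measurable_entry (i j : ℕ) : Measurable fun R : ℕ → ℕ → ℝ => R i j :=
  (measurable_pi_apply j).comp (measurable_pi_apply i)

theorem measurable_rel (σ : Equiv.Perm ℕ) : Measurable (rel σ) := by
  apply measurable_pi_lambda
  intro i
  apply measurable_pi_lambda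
  intro j
  exact measurable_entry _ _

theorem meas_entry {i j : ℕ} {B : Set ℝ} (hB : MeasurableSet B) :
    MeasurableSet {R : ℕ → ℕ → ℝ | R i j ∈ B} := (measurable_entry i j) hB

/-- finite intersections -/
theorem meas_all {α : Type} [Countable α] (p : α → Prop) (Q : α → Set (ℕ → ℕ → ℝ))
    (h : ∀ i, MeasurableSet (Q i)) : MeasurableSet {R : ℕ → ℕ → ℝ | ∀ i, p i → R ∈ Q i} := by
  have e : {R : ℕ → ℕ → ℝ | ∀ i, p i → R ∈ Q i} = ⋂ i, ⋂ (_ : p i), Q i := by
    ext R; simp
  rw [e]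
  exact MeasurableSet.iInter fun i => MeasurableSet.iInter fun _ => h i

variable {P : Measure (ℕ → ℕ → ℝ)} {ζ : Measure ℝ}

theorem GGArray.rel_real (H : GGArray P ζ) (a b : ℕ) {E : Set (ℕ → ℕ → ℝ)}
    (hE : MeasurableSet E) : P.real (rel (Equiv.swap a b) ⁻¹' E) = P.real E := by
  have h := H.exch a b
  have h2 : P.real E = (P.map (rel (Equiv.swap a b))).real E := by rw [h]
  rw [h2, map_measureReal_apply (measurable_rel _) hE]

theorem DepOn.mono {n m : ℕ} {E : Set (ℕ → ℕ → ℝ)} (h : DepOn n E) (hnm : n ≤ m) : DepOn m E :=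
  fun R R' hR => h R R' fun i hi j hj => hR i (by omega) j (by omega)

theorem DepOn.inter {n : ℕ} {E F : Set (ℕ → ℕ → ℝ)} (h : DepOn n E) (h' : DepOn n F) :
    DepOn n (E ∩ F) := fun R R' hR hE => ⟨h R R' hR hE.1, h' R R' hR hE.2⟩

theorem DepOn.rel {n : ℕ} {E : Set (ℕ → ℕ → ℝ)} (h : DepOn n E) {a b : ℕ} (ha : a < n)
    (hb : b < n) : DepOn n (rel (Equiv.swap a b) ⁻¹' E) := by
  intro R R' hR hE
  refine h _ _ ?_ hE
  have hs : ∀ i < n, Equiv.swap a b i < n := by
    intro i hi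
    rcases eq_or_ne i a with rfl | h1
    · rwa [Equiv.swap_apply_left]
    · rcases eq_or_ne i b with rfl | h2
      · rwa [Equiv.swap_apply_right]
      · rwa [Equiv.swap_apply_of_ne_of_ne h1 h2]
  intro i hi j hj
  exact hR _ (hs i hi) _ (hs j hj)

/-- the identities for the replica `k` -/
theorem GGArray.ggk (H : GGArray P ζ) {n k : ℕ} (hk : k < n) {E : Set (ℕ → ℕ → ℝ)}
    (hE : MeasurableSet E) (hd : DepOn n E) {B : Set ℝ} (hB : MeasurableSet B) :
    P.real (E ∩ {R | R k n ∈ B}) = (P.real E * ζ.real B +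
      ∑ l ∈ (Finset.range n).erase k, P.real (E ∩ {R | R k l ∈ B})) / n := by
  have h1n : 1 ≤ n := by omega
  have h0n : 0 < n := h1n
  have key : ∀ l, P.real (rel (Equiv.swap 0 k) ⁻¹' E ∩ {R | R 0 l ∈ B}) =
      P.real (E ∩ {R | R k (Equiv.swap 0 k l) ∈ B}) := by
    intro l
    rw [← H.rel_real 0 k (hE.inter (meas_entry hB))]
    congr 1
    ext R
    simp only [mem_inter_iff, mem_preimage, mem_ofPred_eq, rel]
    rw [Equiv.swap_apply_right, Equiv.swap_apply_self]
  have h := H.gg n h1n _ (measurable_rel (Equiv.swap 0 k) hE) (hd.rel h0n hk) B hB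
  rw [key n, H.rel_real 0 k hE] at h
  rw [Equiv.swap_apply_of_ne_of_ne (by omega) (by omega)] at h
  rw [h]
  congr 2
  rw [Finset.sum_congr rfl (fun l _ => key l)]
  apply Finset.sum_bij (fun l _ => Equiv.swap 0 k l)
  · intro l hl
    rw [Finset.mem_Ico] at hl
    rw [Finset.mem_erase, Finset.mem_range]
    constructor
    · intro h2
      have : l = 0 := by
        have h3 := congrArg (Equiv.swap 0 k) h2
        rwa [Equiv.swap_apply_self, Equiv.swap_apply_right] at h3
      omega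
    · rcases eq_or_ne l k with rfl | h2
      · rw [Equiv.swap_apply_right]; omega
      · rw [Equiv.swap_apply_of_ne_of_ne (by omega) h2]; omega
  · intro a _ b _ hab
    exact (Equiv.swap 0 k).injective hab
  · intro b hb
    rw [Finset.mem_erase, Finset.mem_range] at hb
    refine ⟨Equiv.swap 0 k b, ?_, Equiv.swap_apply_self _ _ _⟩
    rw [Finset.mem_Ico]
    rcases eq_or_ne b 0 with rfl | h2
    · rw [Equiv.swap_apply_left]; omega
    · rw [Equiv.swap_apply_of_ne_of_ne h2 hb.1]; omega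
  · intro a _
    rfl

/-- the law of one entry -/
theorem GGArray.law_one (H : GGArray P ζ) {B : Set ℝ} (hB : MeasurableSet B) :
    P.real {R | R 0 1 ∈ B} = ζ.real B := by
  have := H.prob
  have h := H.gg 1 le_rfl univ MeasurableSet.univ (fun _ _ _ _ => mem_univ _) B hB
  simpa using h

/-- positivity: no mass below `-ε` -/
theorem GGArray.pos_aux (H : GGArray P ζ) {ε : ℝ} (hε : 0 < ε) : ζ.real (Iic (-ε)) = 0 := by
  have := H.prob
  have := H.probζ
  by_contra hne
  have hpos : 0 < ζ.real (Iic (-ε)) := lt_of_le_of_ne measureReal_nonneg (Ne.symm hne)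
  set A : ℕ → Set (ℕ → ℕ → ℝ) := fun n => {R | ∀ p : ℕ × ℕ, (p.1 < n ∧ p.2 < n ∧ p.1 ≠ p.2) →
    R ∈ {R : ℕ → ℕ → ℝ | R p.1 p.2 ∈ Iic (-ε)}} with hA
  have hAm : ∀ n, MeasurableSet (A n) := fun n =>
    meas_all _ _ (fun p => meas_entry measurableSet_Iic)
  have hAd : ∀ n, DepOn n (A n) := by
    intro n R R' hR hE p hp
    have := hE p hp
    simp only [mem_ofPred_eq] at this ⊢
    rwa [← hR p.1 hp.1 p.2 hp.2.1]
  have hstep : ∀ n, 1 ≤ n → P.real (A n) * ζ.real (Iic (-ε)) ≤ P.real (A (n + 1)) := by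
    intro n hn
    have hn0 : (0 : ℝ) < n := by exact_mod_cast hn
    have h1 : ∀ k < n, P.real (A n ∩ {R | R k n ∈ (Iic (-ε))ᶜ}) =
        P.real (A n) * ζ.real (Iic (-ε))ᶜ / n := by
      intro k hk
      rw [H.ggk hk (hAm n) (hAd n) measurableSet_Iic.compl]
      congr 1
      rw [add_eq_left]
      apply Finset.sum_eq_zero
      intro l hl
      rw [Finset.mem_erase, Finset.mem_range] at hl
      have : A n ∩ {R | R k l ∈ (Iic (-ε))ᶜ} = ∅ := by
        rw [eq_empty_iff_forall_notMem]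
        rintro R ⟨hR1, hR2⟩
        exact hR2 (hR1 (k, l) ⟨hk, hl.2, Ne.symm hl.1⟩)
      rw [this, measureReal_empty]
    have h2 : A n \ (⋃ k ∈ Finset.range n, A n ∩ {R | R k n ∈ (Iic (-ε))ᶜ}) ≤ᵐ[P] A (n + 1) := by
      filter_upwards [H.symm] with R hRs hR
      have hR1 : R ∈ A n := hR.1
      have hR2 : ∀ k < n, R k n ∈ Iic (-ε) := by
        intro k hk
        by_contra hcon
        exact hR.2 (mem_biUnion (Finset.mem_coe.2 (Finset.mem_range.2 hk)) ⟨hR1, hcon⟩)
      change R ∈ A (n + 1)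
      intro p hp
      obtain ⟨p1, p2, p3⟩ := hp
      simp only [mem_ofPred_eq]
      rcases Nat.lt_succ_iff_lt_or_eq.1 p1 with q1 | q1
      · rcases Nat.lt_succ_iff_lt_or_eq.1 p2 with q2 | q2
        · exact hR1 p ⟨q1, q2, p3⟩
        · rw [q2]; exact hR2 _ q1
      · rcases Nat.lt_succ_iff_lt_or_eq.1 p2 with q2 | q2
        · rw [q1, hRs]; exact hR2 _ q2
        · exact absurd (q1.trans q2.symm) p3
    have h3 : P.real (⋃ k ∈ Finset.range n, A n ∩ {R | R k n ∈ (Iic (-ε))ᶜ}) ≤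
        P.real (A n) * ζ.real (Iic (-ε))ᶜ := by
      calc _ ≤ ∑ k ∈ Finset.range n, P.real (A n ∩ {R | R k n ∈ (Iic (-ε))ᶜ}) :=
            measureReal_biUnion_finset_le _ _
        _ = ∑ k ∈ Finset.range n, P.real (A n) * ζ.real (Iic (-ε))ᶜ / n :=
            Finset.sum_congr rfl fun k hk => h1 k (Finset.mem_range.1 hk)
        _ = _ := by
            rw [Finset.sum_const, Finset.card_range, nsmul_eq_mul]
            field_simp
    have h4 : P.real (A n) ≤ P.real (A (n + 1)) +
        P.real (⋃ k ∈ Finset.range n, A n ∩ {R | R k n ∈ (Iic (-ε))ᶜ}) := by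
      have h5 : P.real (A n \ (⋃ k ∈ Finset.range n, A n ∩ {R | R k n ∈ (Iic (-ε))ᶜ})) ≤
          P.real (A (n + 1)) := by
        unfold Measure.real
        exact ENNReal.toReal_mono (measure_ne_top _ _) (measure_mono_ae h2)
      have h6 := measureReal_sdiff_add_inter (μ := P) (s := A n)
        (t := ⋃ k ∈ Finset.range n, A n ∩ {R | R k n ∈ (Iic (-ε))ᶜ})
        (Finset.measurableSet_biUnion _ fun k _ => (hAm n).inter
          (meas_entry measurableSet_Iic.compl))
      have h7 : P.real (A n ∩ ⋃ k ∈ Finset.range n, A n ∩ {R | R k n ∈ (Iic (-ε))ᶜ}) ≤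
          P.real (⋃ k ∈ Finset.range n, A n ∩ {R | R k n ∈ (Iic (-ε))ᶜ}) :=
        measureReal_mono inter_subset_right (measure_ne_top _ _)
      linarith
    have h8 : ζ.real (Iic (-ε))ᶜ = 1 - ζ.real (Iic (-ε)) := by
      rw [probReal_compl_eq_one_sub measurableSet_Iic]
    rw [h8] at h3
    linarith
  have hAll : ∀ n, 1 ≤ n → 0 < P.real (A n) := by
    intro n hn
    induction n, hn using Nat.le_induction with
    | base =>
      have : A 1 = univ := by
        rw [eq_univ_iff_forall]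
        rintro R p ⟨h1, h2, h3⟩
        omega
      rw [this]
      simp
    | succ n hn ih => exact lt_of_lt_of_le (mul_pos ih hpos) (hstep n hn)
  obtain ⟨n, hn⟩ := exists_nat_gt (1 + 1 / ε)
  have hn1 : 1 ≤ n := by
    have : (1 : ℝ) < n := by
      have : 0 < 1 / ε := by positivity
      linarith
    exact_mod_cast this.le
  have h0 : P.real (A n) = 0 := by
    have h1 : P (A n) = 0 := by
      rw [measure_eq_zero_iff_ae_notMem]
      filter_upwards [H.psd, H.diag] with R hp hdg hR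
      have h2 := hp n (fun _ => 1)
      have h3 : ∑ i ∈ Finset.range n, ∑ j ∈ Finset.range n, (1 : ℝ) * 1 * R i j ≤
          ∑ i ∈ Finset.range n, (1 - (n - 1 : ℝ) * ε) := by
        apply Finset.sum_le_sum
        intro i hi
        rw [← Finset.add_sum_erase _ _ hi]
        have h4 : ∑ j ∈ (Finset.range n).erase i, (1 : ℝ) * 1 * R i j ≤
            ∑ j ∈ (Finset.range n).erase i, (-ε) := by
          apply Finset.sum_le_sum
          intro j hj
          rw [Finset.mem_erase] at hj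
          have := hR (i, j) ⟨Finset.mem_range.1 hi, Finset.mem_range.1 hj.2, Ne.symm hj.1⟩
          simp only [mem_ofPred_eq, mem_Iic] at this
          linarith
        rw [Finset.sum_const, Finset.card_erase_of_mem hi, Finset.card_range, nsmul_eq_mul,
          Nat.cast_sub hn1] at h4
        rw [hdg i]
        push_cast at h4
        linarith
      rw [Finset.sum_const, Finset.card_range, nsmul_eq_mul] at h3
      have h5 : (1 : ℝ) - (n - 1 : ℝ) * ε < 0 := by
        have h6 : 1 / ε < (n : ℝ) - 1 := by linarith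
        rw [div_lt_iff₀ hε] at h6
        linarith
      have hn0 : (0 : ℝ) < n := by exact_mod_cast hn1
      have h7 : (n : ℝ) * (1 - (n - 1 : ℝ) * ε) < 0 := mul_neg_of_pos_of_neg hn0 h5
      linarith
    rw [Measure.real, h1]
    rfl
  have := hAll n hn1
  linarith

end Pool.Agent.LibOS96
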