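import Pool.Agent.LibMP0f946f.GM

/-!
# Gaussian vectors with an independent block-constant part
-/

open MeasureTheory ProbabilityTheory Set
open Pool.Agent.OS

namespace Pool.Agent.LibOS96

variable {n : ℕ}

/-- the block matrix of a map `rep` -/
def blockM (rep : Fin n → Fin n) : Matrix (Fin n) (Fin n) ℝ :=
  fun a b => if rep a = rep b then 1 else 0

theorem blockM_factor (rep : Fin n → Fin n) (c : ℝ) (hc : 0 ≤ c) :
    ((Matrix.of fun a l : Fin n => if rep a = l then Real.sqrt c else 0) *
      (Matrix.of fun a l : Fin n => if rep a = l then Real.sqrt c else 0).transpose) =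
    c • blockM rep := by
  ext a b
  rw [Matrix.mul_apply]
  simp only [Matrix.of_apply, Matrix.transpose_apply, Matrix.smul_apply, blockM, smul_eq_mul]
  rw [Finset.sum_eq_single (rep a)]
  · simp only [if_true]
    by_cases h : rep a = rep b
    · rw [if_pos h.symm, if_pos h, mul_one, Real.mul_self_sqrt hc]
    · rw [if_neg (fun h' => h h'.symm), if_neg h, mul_zero, mul_zero]
  · intro l _ hl
    rw [if_neg (fun h => hl h.symm), zero_mul]
  · intro h; exact absurd (Finset.mem_univ _) h

theorem blockM_psd (rep : Fin n → Fin n) (c : ℝ) (hc : 0 ≤ c) :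
    (c • blockM rep).PosSemidef := by
  rw [← blockM_factor rep c hc]
  exact Matrix.posSemidef_self_mul_conjTranspose _

/-- a Gaussian vector whose covariance is constant on blocks is constant on blocks -/
theorem gm_const_block {C : Matrix (Fin n) (Fin n) ℝ} (hC : C.PosSemidef) {rep : Fin n → Fin n}
    (hr : ∀ a, rep (rep a) = rep a) (hCr : C.submatrix rep rep = C) :
    ∀ᵐ z ∂(gm C), ∀ a, z a = z (rep a) := by
  have h := gm_comp hC rep
  rw [hCr] at h
  rw [← h]
  have hm : Measurable (fun x : Fin n → ℝ => x ∘ rep) := by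
    apply measurable_pi_lambda
    intro a
    exact measurable_pi_apply _
  rw [ae_map_iff hm.aemeasurable]
  · exact Filter.Eventually.of_forall fun z a => by simp [hr]
  · have : {x : Fin n → ℝ | ∀ a, x a = x (rep a)} = ⋂ a, {x | x a = x (rep a)} := by
      ext x; simp
    rw [this]
    exact MeasurableSet.iInter fun a =>
      measurableSet_eq_fun (measurable_pi_apply _) (measurable_pi_apply _)

/-- adding an independent Gaussian variable in each block -/
theorem gm_block_add {C : Matrix (Fin n) (Fin n) ℝ} (hC : C.PosSemidef) {rep : Fin n → Fin n}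
    (c : ℝ) (hc : 0 ≤ c) (F : (Fin n → ℝ) → ℝ) (hF : Measurable F) (B : ℝ)
    (hB : ∀ z, |F z| ≤ B) :
    ∫ z, F z ∂(gm (C + c • blockM rep)) =
      ∫ z, ∫ g, F (fun a => z a + Real.sqrt c * g (rep a)) ∂(Measure.pi fun _ : Fin n => γ)
        ∂(gm C) := by
  rw [← gm_add hC (blockM_psd rep c hc), ← blockM_factor rep c hc, gm_of_factor]
  have hmv : (fun g : Fin n → ℝ =>
      (Matrix.of fun a l : Fin n => if rep a = l then Real.sqrt c else 0).mulVec g) =
      fun g a => Real.sqrt c * g (rep a) := by
    funext g a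
    rw [Matrix.mulVec, dotProduct, Finset.sum_eq_single (rep a)]
    · simp
    · intro l _ hl
      simp only [Matrix.of_apply]
      rw [if_neg (fun h => hl h.symm), zero_mul]
    · intro h; exact absurd (Finset.mem_univ _) h
  rw [hmv]
  have hm1 : Measurable (fun g : Fin n → ℝ => fun a => Real.sqrt c * g (rep a)) := by
    apply measurable_pi_lambda
    intro a
    exact (measurable_pi_apply _).const_mul _
  have hadd : Measurable (fun p : (Fin n → ℝ) × (Fin n → ℝ) => p.1 + p.2) :=
    measurable_fst.add measurable_snd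
  rw [integral_map hadd.aemeasurable hF.aestronglyMeasurable]
  have hprob : IsProbabilityMeasure ((Measure.pi fun _ : Fin n => γ).map
      (fun g : Fin n → ℝ => fun a => Real.sqrt c * g (rep a))) :=
    Measure.isProbabilityMeasure_map hm1.aemeasurable
  rw [integral_prod (fun p : (Fin n → ℝ) × (Fin n → ℝ) => F (p.1 + p.2))
    (Integrable.of_bound (hF.comp hadd).aestronglyMeasurable B
    (Filter.Eventually.of_forall fun p => hB _))]
  congr 1
  funext z
  rw [integral_map hm1.aemeasurable]
  · rfl
  · exact (hF.comp (measurable_const_add z)).aestronglyMeasurable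

/-- integration of a product over the blocks -/
theorem gm_block_prod {C : Matrix (Fin n) (Fin n) ℝ} (hC : C.PosSemidef) {rep : Fin n → Fin n}
    (hr : ∀ a, rep (rep a) = rep a) (hCr : C.submatrix rep rep = C)
    (c : ℝ) (hc : 0 ≤ c) (φ : ℝ → ℝ) (hφ : Measurable φ) (hφ1 : ∀ y, |φ y| ≤ 1) :
    ∫ z, ∏ a, φ (z a) ∂(gm (C + c • blockM rep)) =
      ∫ z, ∏ l, (∫ g, φ (z l + Real.sqrt c * g) ^
        (Finset.univ.filter fun a => rep a = l).card ∂γ) ∂(gm C) := by
  rw [gm_block_add hC c hc (fun z => ∏ a, φ (z a)) (by fun_prop) 1 (by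
    intro z
    rw [Finset.abs_prod]
    exact Finset.prod_le_one (fun a _ => abs_nonneg _) (fun a _ => hφ1 _))]
  apply integral_congr_ae
  filter_upwards [gm_const_block hC hr hCr] with z hz
  rw [← integral_fintype_prod_eq_prod (𝕜 := ℝ) (fun l g => φ (z l + Real.sqrt c * g) ^
        (Finset.univ.filter fun a => rep a = l).card)]
  congr 1
  funext g
  rw [← Finset.prod_fiberwise Finset.univ rep]
  apply Finset.prod_congr rfl
  intro l _
  rw [← Finset.prod_const]
  apply Finset.prod_congr rfl
  intro a ha
  rw [Finset.mem_filter] at ha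
  rw [hz a, ha.2]

end Pool.Agent.LibOS96
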