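import Pool.Agent.LibOS96.LemmaS

/-!
# The chain over thresholds for bounded functions
-/

open MeasureTheory ProbabilityTheory Set
open Pool.Agent.OS

namespace Pool.Agent.LibOS96

variable {P : Measure (ℕ → ℕ → ℝ)} {ζ : Measure ℝ} {s : ℝ} {L : List (ℝ × ℝ)} {n : ℕ}

/-- one minus the normalised exponential -/
noncomputable def Yf (M : ℝ) (A : ℝ → ℝ) (y : ℝ) : ℝ := 1 - Real.exp (A y) / M

/-- bounds for `A` -/
structure Bd (M δ : ℝ) (A : ℝ → ℝ) : Prop where
  meas : Measurable A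
  M0 : 0 < M
  δ0 : 0 < δ
  δ1 : δ ≤ 1
  lo : ∀ y, δ * M ≤ Real.exp (A y)
  hi : ∀ y, Real.exp (A y) ≤ M

namespace Bd

variable {M δ : ℝ} {A : ℝ → ℝ}

theorem Y_nonneg (H : Bd M δ A) (y : ℝ) : 0 ≤ Yf M A y := by
  unfold Yf
  rw [sub_nonneg, div_le_one H.M0]
  exact H.hi y

theorem Y_le (H : Bd M δ A) (y : ℝ) : Yf M A y ≤ 1 - δ := by
  unfold Yf
  have h1 : δ ≤ Real.exp (A y) / M := by
    rw [le_div_iff₀ H.M0]; exact H.lo y
  linarith

theorem ρ0 (H : Bd M δ A) : 0 ≤ 1 - δ := by linarith [H.δ1]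

theorem ρ1 (H : Bd M δ A) : 1 - δ < 1 := by linarith [H.δ0]

theorem Y_meas (H : Bd M δ A) : Measurable (Yf M A) :=
  measurable_const.sub ((Real.measurable_exp.comp H.meas).div_const _)

theorem A_le (H : Bd M δ A) (y : ℝ) : A y ≤ Real.log M := by
  rw [Real.le_log_iff_exp_le H.M0]; exact H.hi y

theorem le_A (H : Bd M δ A) (y : ℝ) : Real.log (δ * M) ≤ A y := by
  rw [Real.log_le_iff_le_exp (mul_pos H.δ0 H.M0)]; exact H.lo y

theorem abs_A_le (H : Bd M δ A) (y : ℝ) : |A y| ≤ |Real.log M| + |Real.log (δ * M)| := by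
  rw [abs_le]
  have h1 := H.A_le y
  have h2 := H.le_A y
  have h3 := le_abs_self (Real.log M)
  have h4 := neg_abs_le (Real.log (δ * M))
  have h5 := abs_nonneg (Real.log M)
  have h6 := abs_nonneg (Real.log (δ * M))
  constructor <;> linarith

theorem int_A (H : Bd M δ A) (y c : ℝ) : Integrable (fun g : ℝ => A (y + Real.sqrt c * g)) γ :=
  Integrable.of_bound (H.meas.comp ((measurable_id.const_mul _).const_add _)).aestronglyMeasurable
    _ (Filter.Eventually.of_forall fun _ => H.abs_A_le _)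

theorem exp_meas (H : Bd M δ A) (x : ℝ) : Measurable fun y => Real.exp (x * A y) :=
  Real.measurable_exp.comp (H.meas.const_mul x)

theorem exp_rpow (_H : Bd M δ A) (x y : ℝ) : Real.exp (x * A y) = (Real.exp (A y)) ^ x := by
  rw [← Real.exp_mul, mul_comm]

theorem exp_hi (H : Bd M δ A) {x : ℝ} (hx : 0 ≤ x) (y : ℝ) : Real.exp (x * A y) ≤ M ^ x := by
  rw [H.exp_rpow]
  exact Real.rpow_le_rpow (Real.exp_pos _).le (H.hi y) hx

theorem exp_lo (H : Bd M δ A) {x : ℝ} (hx : 0 ≤ x) (y : ℝ) : (δ * M) ^ x ≤ Real.exp (x * A y) := by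
  rw [H.exp_rpow]
  exact Real.rpow_le_rpow (mul_pos H.δ0 H.M0).le (H.lo y) hx

theorem int_exp (H : Bd M δ A) {x : ℝ} (hx : 0 ≤ x) (y c : ℝ) :
    Integrable (fun g : ℝ => Real.exp (x * A (y + Real.sqrt c * g))) γ := by
  refine Integrable.of_bound ((H.exp_meas x).comp
    ((measurable_id.const_mul _).const_add _)).aestronglyMeasurable (M ^ x)
    (Filter.Eventually.of_forall fun g => ?_)
  rw [Real.norm_eq_abs, abs_of_pos (Real.exp_pos _)]
  exact H.exp_hi hx _

/-- the operator in explicit form -/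
theorem T_eq (x c : ℝ) (A : ℝ → ℝ) (y : ℝ) : T x (Real.sqrt c) A y =
    if x = 0 then ∫ g, A (y + Real.sqrt c * g) ∂γ
    else x⁻¹ * Real.log (∫ g, Real.exp (x * A (y + Real.sqrt c * g)) ∂γ) := by
  unfold T Zt
  have h : ∀ g : ℝ, y + g • Real.sqrt c = y + Real.sqrt c * g := by
    intro g; rw [smul_eq_mul, mul_comm]
  simp_rw [h]

theorem Z_hi (H : Bd M δ A) {x : ℝ} (hx : 0 ≤ x) (y c : ℝ) :
    ∫ g, Real.exp (x * A (y + Real.sqrt c * g)) ∂γ ≤ M ^ x := by
  calc _ ≤ ∫ _g, M ^ x ∂γ := integral_mono (H.int_exp hx y c) (integrable_const _)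
        (fun g => H.exp_hi hx _)
    _ = _ := by simp

theorem Z_lo (H : Bd M δ A) {x : ℝ} (hx : 0 ≤ x) (y c : ℝ) :
    (δ * M) ^ x ≤ ∫ g, Real.exp (x * A (y + Real.sqrt c * g)) ∂γ := by
  calc (δ * M) ^ x = ∫ _g, (δ * M) ^ x ∂γ := by simp
    _ ≤ _ := integral_mono (integrable_const _) (H.int_exp hx y c) (fun g => H.exp_lo hx _)

theorem Z_pos (H : Bd M δ A) {x : ℝ} (hx : 0 ≤ x) (y c : ℝ) :
    0 < ∫ g, Real.exp (x * A (y + Real.sqrt c * g)) ∂γ :=
  lt_of_lt_of_le (Real.rpow_pos_of_pos (mul_pos H.δ0 H.M0) x) (H.Z_lo hx y c)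

/-- exponential of the operator -/
theorem exp_T (H : Bd M δ A) {x : ℝ} (hx : 0 < x) (y c : ℝ) :
    Real.exp (x * T x (Real.sqrt c) A y) = ∫ g, Real.exp (x * A (y + Real.sqrt c * g)) ∂γ := by
  rw [T_eq, if_neg hx.ne', ← mul_assoc, mul_inv_cancel₀ hx.ne', one_mul,
    Real.exp_log (H.Z_pos hx.le y c)]

/-- the operator preserves the bounds -/
theorem T (H : Bd M δ A) {x : ℝ} (hx : 0 ≤ x) (c : ℝ) : Bd M δ (T x (Real.sqrt c) A) where
  meas := by
    have hj : Measurable (fun p : ℝ × ℝ => p.1 + Real.sqrt c * p.2) :=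
      measurable_fst.add (measurable_snd.const_mul _)
    have h1 : Measurable fun y => ∫ g, A (y + Real.sqrt c * g) ∂γ :=
      (StronglyMeasurable.integral_prod_right'
        (f := fun (p : ℝ × ℝ) => A (p.1 + Real.sqrt c * p.2))
        (H.meas.comp hj).stronglyMeasurable).measurable
    have h2 : Measurable fun y => ∫ g, Real.exp (x * A (y + Real.sqrt c * g)) ∂γ :=
      (StronglyMeasurable.integral_prod_right'
        (f := fun (p : ℝ × ℝ) => Real.exp (x * A (p.1 + Real.sqrt c * p.2)))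
        ((H.exp_meas x).comp hj).stronglyMeasurable).measurable
    have h3 : Pool.Agent.OS.T x (Real.sqrt c) A = fun y =>
      if x = 0 then ∫ g, A (y + Real.sqrt c * g) ∂γ
      else x⁻¹ * Real.log (∫ g, Real.exp (x * A (y + Real.sqrt c * g)) ∂γ) := by
      funext y; exact T_eq x c A y
    rw [h3]
    split_ifs
    · exact h1
    · exact (Real.measurable_log.comp h2).const_mul _
  M0 := H.M0
  δ0 := H.δ0
  δ1 := H.δ1
  lo y := by
    rcases hx.eq_or_lt with hx0 | hx0
    · rw [T_eq, if_pos hx0.symm]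
      rw [← Real.log_le_iff_le_exp (mul_pos H.δ0 H.M0)]
      calc Real.log (δ * M) = ∫ _g, Real.log (δ * M) ∂γ := by simp
        _ ≤ _ := integral_mono (integrable_const _) (H.int_A y c) (fun g => H.le_A _)
    · have h1 := H.exp_T hx0 y c
      have h2 := H.Z_lo hx y c
      rw [← h1, mul_comm x, Real.exp_mul] at h2
      exact (Real.rpow_le_rpow_iff (mul_pos H.δ0 H.M0).le (Real.exp_pos _).le hx0).1 h2
  hi y := by
    rcases hx.eq_or_lt with hx0 | hx0
    · rw [T_eq, if_pos hx0.symm]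
      rw [← Real.le_log_iff_exp_le H.M0]
      calc _ ≤ ∫ _g, Real.log M ∂γ := integral_mono (H.int_A y c) (integrable_const _)
            (fun g => H.A_le _)
        _ = _ := by simp
    · have h1 := H.exp_T hx0 y c
      have h2 := H.Z_hi hx y c
      rw [← h1, mul_comm x, Real.exp_mul] at h2
      exact (Real.rpow_le_rpow_iff (Real.exp_pos _).le H.M0.le hx0).1 h2

/-- the transform of the powers of `Y` is preserved -/
theorem Sx_T (H : Bd M δ A) {x : ℝ} (hx : 0 ≤ x) (y c : ℝ) :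
    ∫ g, Sx x (Yf M A (y + Real.sqrt c * g)) ∂γ =
      Sx x (Yf M (Pool.Agent.OS.T x (Real.sqrt c) A) y) := by
  rcases hx.eq_or_lt with hx0 | hx0
  · have h1 : ∀ u, Sx x (1 - Real.exp u / M) = Real.log M - u := by
      intro u
      unfold Sx
      rw [if_pos hx0.symm, sub_sub_cancel, Real.log_div (Real.exp_pos _).ne' H.M0.ne',
        Real.log_exp]
      ring
    unfold Yf
    simp_rw [h1]
    rw [integral_sub (integrable_const _) (H.int_A y c), T_eq, if_pos hx0.symm]
    simp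
  · have h1 : ∀ u, Sx x (1 - Real.exp u / M) = (1 - Real.exp (x * u) / M ^ x) / x := by
      intro u
      unfold Sx
      rw [if_neg hx0.ne', sub_sub_cancel, Real.div_rpow (Real.exp_pos _).le H.M0.le,
        ← Real.exp_mul, mul_comm u x]
    unfold Yf
    simp_rw [h1]
    rw [H.exp_T hx0 y c, integral_div, integral_sub (integrable_const _)
      ((H.int_exp hx y c).div_const _), integral_div]
    simp

end Bd

/-- powers of `Y` after the operator -/
noncomputable def hT (M : ℝ) (A : ℝ → ℝ) (b : ℕ) (y : ℝ) : ℝ := (Yf M A y) ^ b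

/-- moments of `Y` before the operator -/
noncomputable def hE (M c : ℝ) (A : ℝ → ℝ) (b : ℕ) (y : ℝ) : ℝ :=
  ∫ g, (Yf M A (y + Real.sqrt c * g)) ^ b ∂γ

theorem HF_hT {M δ : ℝ} {A : ℝ → ℝ} (H : Bd M δ A) : HF (1 - δ) (hT M A) where
  meas b := H.Y_meas.pow_const b
  nonneg b y := pow_nonneg (H.Y_nonneg y) b
  le b y := pow_le_pow_left₀ (H.Y_nonneg y) (H.Y_le y) b
  zero y := by simp [hT]

theorem int_Ypow {M δ : ℝ} {A : ℝ → ℝ} (H : Bd M δ A) (b : ℕ) (y c : ℝ) :
    Integrable (fun g : ℝ => (Yf M A (y + Real.sqrt c * g)) ^ b) γ := by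
  refine Integrable.of_bound ((H.Y_meas.comp
    ((measurable_id.const_mul _).const_add _)).pow_const b).aestronglyMeasurable ((1 - δ) ^ b)
    (Filter.Eventually.of_forall fun g => ?_)
  rw [norm_pow, Real.norm_eq_abs, abs_of_nonneg (H.Y_nonneg _)]
  exact pow_le_pow_left₀ (H.Y_nonneg _) (H.Y_le _) b

theorem HF_hE {M δ : ℝ} {A : ℝ → ℝ} (H : Bd M δ A) (c : ℝ) : HF (1 - δ) (hE M c A) where
  meas b := by
    have hj : Measurable (fun p : ℝ × ℝ => p.1 + Real.sqrt c * p.2) :=
      measurable_fst.add (measurable_snd.const_mul _)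
    exact (StronglyMeasurable.integral_prod_right'
        (f := fun (p : ℝ × ℝ) => (Yf M A (p.1 + Real.sqrt c * p.2)) ^ b)
        ((H.Y_meas.comp hj).pow_const b).stronglyMeasurable).measurable
  nonneg b y := integral_nonneg fun g => pow_nonneg (H.Y_nonneg _) b
  le b y := by
    unfold hE
    calc _ ≤ ∫ _g, (1 - δ) ^ b ∂γ := integral_mono (int_Ypow H b y c) (integrable_const _)
          (fun g => pow_le_pow_left₀ (H.Y_nonneg _) (H.Y_le _) b)
      _ = _ := by simp
  zero y := by simp [hE]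

/-- the transforms agree -/
theorem transform_eq {M δ : ℝ} {A : ℝ → ℝ} (H : Bd M δ A) {x : ℝ} (hx0 : 0 ≤ x) (hx1 : x ≤ 1)
    (c y : ℝ) :
    HasSum (fun j => cf x (j + 1) * (hE M c A (j + 1) y -
      hT M (T x (Real.sqrt c) A) (j + 1) y)) 0 := by
  have HT := H.T hx0 c
  have h1 : HasSum (fun j => cf x (j + 1) * hT M (T x (Real.sqrt c) A) (j + 1) y)
      (Sx x (Yf M (T x (Real.sqrt c) A) y)) :=
    hasSum_cf (HT.Y_nonneg y) (lt_of_le_of_lt (HT.Y_le y) HT.ρ1)
  have h2 : HasSum (fun j => cf x (j + 1) * hE M c A (j + 1) y)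
      (∫ g, Sx x (Yf M A (y + Real.sqrt c * g)) ∂γ) := by
    have h3 := hasSum_integral_of_summable_integral_norm (μ := γ)
      (F := fun (j : ℕ) (g : ℝ) => cf x (j + 1) * (Yf M A (y + Real.sqrt c * g)) ^ (j + 1))
      (fun j => (int_Ypow H (j + 1) y c).const_mul _) (by
        refine Summable.of_nonneg_of_le (fun j => integral_nonneg fun g => norm_nonneg _)
          (fun j => ?_) (summable_geometric_of_lt_one H.ρ0 H.ρ1)
        calc ∫ g, ‖cf x (j + 1) * (Yf M A (y + Real.sqrt c * g)) ^ (j + 1)‖ ∂γ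
            ≤ ∫ _g, (1 - δ) ^ j ∂γ := by
              apply integral_mono_of_nonneg (Filter.Eventually.of_forall fun g => norm_nonneg _)
                (integrable_const _)
              refine Filter.Eventually.of_forall fun g => ?_
              simp only
              rw [norm_mul, norm_pow, Real.norm_eq_abs, Real.norm_eq_abs,
                abs_of_nonneg (cf_nonneg hx1 _), abs_of_nonneg (H.Y_nonneg _), pow_succ]
              have a1 := cf_le_one hx0 hx1 (show 1 ≤ j + 1 by omega)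
              have a2 := pow_le_pow_left₀ (H.Y_nonneg (y + Real.sqrt c * g))
                (H.Y_le (y + Real.sqrt c * g)) j
              have a3 : Yf M A (y + Real.sqrt c * g) ≤ 1 := by
                have := H.Y_le (y + Real.sqrt c * g)
                have := H.δ0
                linarith
              calc cf x (j + 1) * (Yf M A (y + Real.sqrt c * g) ^ j *
                    Yf M A (y + Real.sqrt c * g))
                  ≤ 1 * ((1 - δ) ^ j * 1) := by
                    apply mul_le_mul a1 _ _ zero_le_one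
                    · exact mul_le_mul a2 a3 (H.Y_nonneg _) (pow_nonneg H.ρ0 j)
                    · exact mul_nonneg (pow_nonneg (H.Y_nonneg _) j) (H.Y_nonneg _)
                _ = _ := by ring
          _ = (1 - δ) ^ j := by simp)
    have h4 : ∀ g, ∑' j, cf x (j + 1) * (Yf M A (y + Real.sqrt c * g)) ^ (j + 1) =
        Sx x (Yf M A (y + Real.sqrt c * g)) := fun g =>
      (hasSum_cf (H.Y_nonneg _) (lt_of_le_of_lt (H.Y_le _) H.ρ1)).tsum_eq
    simp_rw [h4] at h3
    have h5 : (fun j : ℕ => ∫ g, cf x (j + 1) * (Yf M A (y + Real.sqrt c * g)) ^ (j + 1) ∂γ) =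
        fun j => cf x (j + 1) * hE M c A (j + 1) y := by
      funext j
      rw [integral_const_mul]
      rfl
    rw [h5] at h3
    exact h3
  have h5 := h2.sub h1
  rw [H.Sx_T hx0 y c, sub_self] at h5
  simpa only [mul_sub] using h5

end Pool.Agent.LibOS96
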