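import Pool.Agent.LibOS96.ChainB

/-!
# The chain over thresholds: sums
-/

open MeasureTheory ProbabilityTheory Set
open Pool.Agent.OS

namespace Pool.Agent.LibOS96

variable {P : Measure (ℕ → ℕ → ℝ)} {ζ : Measure ℝ} {s : ℝ} {L : List (ℝ × ℝ)} {n : ℕ}

/-- product expectation -/
noncomputable def EP (L : List (ℝ × ℝ)) (cl : ℝ) (n : ℕ) (φ : ℝ → ℝ) (R : ℕ → ℕ → ℝ) : ℝ :=
  ∫ z, ∏ a : Fin n, φ (z a) ∂(gm (Km L cl n R))

theorem patDep_EP (cl : ℝ) (φ : ℝ → ℝ) : PatDep n (L.map Prod.fst) (EP L cl n φ) := by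
  intro R R' h
  unfold EP
  rw [Km_congr h cl]

theorem Pr_hT {M δ : ℝ} {A : ℝ → ℝ} (H : Bd M δ A) (hs : s ≤ 1) {R : ℕ → ℕ → ℝ} (hR : Good R) :
    Pr L s n (hT M A) R = EP L 0 n (Yf M A) R := by
  unfold Pr EP hT
  congr 1
  funext z
  apply Finset.prod_congr rfl
  intro a _
  rw [one_div, Real.pow_rpow_inv_natCast (H.Y_nonneg _) (hR.bsz_pos hs a).ne']

theorem Pr_hE {M δ : ℝ} {A : ℝ → ℝ} (H : Bd M δ A) (hL : ∀ p ∈ L, p.1 ≤ 1 ∧ 0 ≤ p.2)
    (hLs : ∀ p ∈ L, p.1 ≤ s) (hs : s ≤ 1) {c : ℝ} (hc : 0 ≤ c) {R : ℕ → ℕ → ℝ} (hR : Good R) :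
    Pr L s n (hE M c A) R = EP (L ++ [(s, c)]) 0 n (Yf M A) R := by
  have H1 := HF_hE H c
  unfold EP
  rw [Km_append L s c hR hs, gm_block_prod (Km_psd L hL 0 le_rfl hR n) (hR.rep_rep hs)
    (Km_submatrix L hLs hR hs) c hc (Yf M A) H.Y_meas (fun y => by
      rw [abs_of_nonneg (H.Y_nonneg y)]
      have := H.Y_le y
      have := H.δ0
      linarith)]
  unfold Pr
  apply integral_congr_ae
  filter_upwards [gm_const_block (Km_psd L hL 0 le_rfl hR n) (hR.rep_rep hs)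
    (Km_submatrix L hLs hR hs)] with z hz
  exact hR.prod_root hs H1.zero H1.nonneg hz

/-- one threshold -/
theorem GGArray.one_step (H : GGArray P ζ) (hL : ∀ p ∈ L, p.1 ≤ 1 ∧ 0 ≤ p.2)
    (hLs : ∀ p ∈ L, p.1 ≤ s) (hs : s ≤ 1) {c : ℝ} (hc : 0 ≤ c) {M δ : ℝ} {A : ℝ → ℝ}
    (HA : Bd M δ A) {v : ℝ}
    (hv : HasSum (fun m : ℕ => (1 / ((m : ℝ) + 1)) *
      ∫ R, EP L 0 (m + 1) (Yf M (T (ζ.real (Iio s)) (Real.sqrt c) A)) R ∂P) v) :
    HasSum (fun m : ℕ => (1 / ((m : ℝ) + 1)) *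
      ∫ R, EP (L ++ [(s, c)]) 0 (m + 1) (Yf M A) R ∂P) v := by
  have := H.prob
  have := H.probζ
  have hx0 : 0 ≤ ζ.real (Iio s) := measureReal_nonneg
  have hx1 : ζ.real (Iio s) ≤ 1 := measureReal_le_one
  have HT := HA.T hx0 c
  have e0 : ∀ m : ℕ, ∫ R, EP L 0 (m + 1) (Yf M (T (ζ.real (Iio s)) (Real.sqrt c) A)) R ∂P =
      ∫ R, Pr L s (m + 1) (hT M (T (ζ.real (Iio s)) (Real.sqrt c) A)) R ∂P := by
    intro m
    apply integral_congr_ae
    filter_upwards [H.good] with R hR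
    exact (Pr_hT HT hs hR).symm
  have e1 : ∀ m : ℕ, ∫ R, EP (L ++ [(s, c)]) 0 (m + 1) (Yf M A) R ∂P =
      ∫ R, Pr L s (m + 1) (hE M c A) R ∂P := by
    intro m
    apply integral_congr_ae
    filter_upwards [H.good] with R hR
    exact (Pr_hE HA hL hLs hs hc hR).symm
  simp_rw [e0] at hv
  simp_rw [e1]
  exact H.lemma_S hL hLs hs HA.ρ0 HA.ρ1 (HF_hT HT) (HF_hE HA c)
    (fun y => transform_eq HA hx0 hx1 c y) hv

theorem tn_append (L : List (ℝ × ℝ)) (p : ℝ × ℝ) (A : ℝ → ℝ) :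
    tn (L ++ [p]) A = tn L (T p.1 (Real.sqrt p.2) A) := by
  induction L with
  | nil => rfl
  | cons q L ih =>
    rw [List.cons_append]
    change T q.1 (Real.sqrt q.2) (tn (L ++ [p]) A) = T q.1 (Real.sqrt q.2) (tn L _)
    rw [ih]

/-- the chain without the individual part -/
theorem GGArray.chain0 (H : GGArray P ζ) (L : List (ℝ × ℝ))
    (hs : L.Pairwise (fun p q => p.1 ≤ q.1)) (hL : ∀ p ∈ L, p.1 ≤ 1 ∧ 0 ≤ p.2)
    {M δ : ℝ} : ∀ {A : ℝ → ℝ}, Bd M δ A →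
    HasSum (fun m : ℕ => (1 / ((m : ℝ) + 1)) * ∫ R, EP L 0 (m + 1) (Yf M A) R ∂P)
      (Real.log M - tn (L.map (fun p => (ζ.real (Iio p.1), p.2))) A 0) := by
  have := H.prob
  have := H.probζ
  induction L using List.reverseRecOn with
  | nil =>
    intro A HA
    have h1 : ∀ m R, EP [] 0 (m + 1) (Yf M A) R = (Yf M A 0) ^ (m + 1) := by
      intro m R
      unfold EP
      have h2 : Km [] 0 (m + 1) R = 0 := by
        ext a b; simp [Km]
      rw [h2, gm_zero, integral_dirac]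
      simp
    simp_rw [h1]
    simp only [integral_const, probReal_univ, one_smul, List.map_nil, tn]
    have h3 := Real.hasSum_pow_div_log_of_abs_lt_one (x := Yf M A 0) (by
      rw [abs_of_nonneg (HA.Y_nonneg 0)]
      exact lt_of_le_of_lt (HA.Y_le 0) HA.ρ1)
    have h4 : - Real.log (1 - Yf M A 0) = Real.log M - A 0 := by
      unfold Yf
      rw [sub_sub_cancel, Real.log_div (Real.exp_pos _).ne' HA.M0.ne', Real.log_exp]
      ring
    rw [h4] at h3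
    have h5 : (fun m : ℕ => 1 / ((m : ℝ) + 1) * (Yf M A 0) ^ (m + 1)) =
        fun m : ℕ => (Yf M A 0) ^ (m + 1) / ((m : ℝ) + 1) := by
      funext m; ring
    rw [h5]
    exact h3
  | append_singleton L p ih =>
    intro A HA
    obtain ⟨s, c⟩ := p
    rw [List.pairwise_append] at hs
    have hp := hL (s, c) (by simp)
    have hLs : ∀ q ∈ L, q.1 ≤ s := fun q hq => hs.2.2 q hq (s, c) (by simp)
    have hL' : ∀ q ∈ L, q.1 ≤ 1 ∧ 0 ≤ q.2 := fun q hq => hL q (by simp [hq])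
    rw [List.map_append, List.map_cons, List.map_nil, tn_append]
    apply H.one_step hL' hLs hp.1 hp.2 HA
    exact ih hs.1 hL' (HA.T measureReal_nonneg c)

theorem blockM_id : blockM (id : Fin n → Fin n) = 1 := by
  ext a b
  simp [blockM, Matrix.one_apply]

/-- the individual part -/
theorem EP_cl (hL : ∀ p ∈ L, p.1 ≤ 1 ∧ 0 ≤ p.2) {cl : ℝ} (hcl : 0 ≤ cl) {M δ : ℝ} {A : ℝ → ℝ}
    (HA : Bd M δ A) {R : ℕ → ℕ → ℝ} (hR : Good R) :
    EP L cl n (Yf M A) R = EP L 0 n (Yf M (T 1 (Real.sqrt cl) A)) R := by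
  unfold EP
  rw [Km_cl, ← blockM_id, gm_block_prod (rep := id) (Km_psd L hL 0 le_rfl hR n) (fun a => rfl) rfl cl hcl
    (Yf M A) HA.Y_meas (fun y => by
      rw [abs_of_nonneg (HA.Y_nonneg y)]
      have := HA.Y_le y
      have := HA.δ0
      linarith)]
  congr 1
  funext z
  apply Finset.prod_congr rfl
  intro l _
  have h1 : (Finset.univ.filter fun a : Fin n => id a = l).card = 1 := by
    rw [Finset.card_eq_one]
    refine ⟨l, ?_⟩
    ext a
    simp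
  rw [h1]
  have h2 := HA.exp_T one_pos (z l) cl
  rw [one_mul] at h2
  have h3 := HA.int_exp zero_le_one (z l) cl
  unfold Yf
  rw [h2]
  simp only [pow_one]
  simp only [one_mul] at h3 ⊢
  rw [integral_sub (integrable_const _) (h3.div_const _), integral_div]
  simp

/-- the chain for bounded functions -/
theorem GGArray.chain1 (H : GGArray P ζ) (L : List (ℝ × ℝ))
    (hs : L.Pairwise (fun p q => p.1 ≤ q.1)) (hL : ∀ p ∈ L, p.1 ≤ 1 ∧ 0 ≤ p.2)
    {cl : ℝ} (hcl : 0 ≤ cl) {M δ : ℝ} {A : ℝ → ℝ} (HA : Bd M δ A) :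
    HasSum (fun m : ℕ => (1 / ((m : ℝ) + 1)) * ∫ R, EP L cl (m + 1) (Yf M A) R ∂P)
      (Real.log M - tn (L.map (fun p => (ζ.real (Iio p.1), p.2)) ++ [(1, cl)]) A 0) := by
  rw [tn_append]
  have h1 := H.chain0 L hs hL (HA.T zero_le_one cl)
  have h2 : ∀ m : ℕ, ∫ R, EP L cl (m + 1) (Yf M A) R ∂P =
      ∫ R, EP L 0 (m + 1) (Yf M (T 1 (Real.sqrt cl) A)) R ∂P := by
    intro m
    apply integral_congr_ae
    filter_upwards [H.good] with R hR
    exact EP_cl hL hcl HA hR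
  simp_rw [h2]
  exact h1

end Pool.Agent.LibOS96
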