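import Pool.Agent.LibOS96.ChainC

/-!
# The chain over thresholds: finitely many replicas
-/

open MeasureTheory ProbabilityTheory Set Filter Topology
open Pool.Agent.OS

namespace Pool.Agent.LibOS96

variable {P : Measure (ℕ → ℕ → ℝ)} {ζ : Measure ℝ} {s : ℝ} {L : List (ℝ × ℝ)} {n : ℕ}

/-- distinct replicas are exchangeable -/
theorem GGArray.int_inj (H : GGArray P ζ) (hL : ∀ p ∈ L, p.1 ≤ 1 ∧ 0 ≤ p.2) {cl : ℝ}
    (hcl : 0 ≤ cl) {φ : ℝ → ℝ} (hφ : Measurable φ) {k : ℕ} (e : Fin k → Fin n)
    (he : Function.Injective e) :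
    ∫ R, (∫ z, ∏ l, φ (z (e l)) ∂(gm (Km L cl n R))) ∂P = ∫ R, EP L cl k φ R ∂P := by
  obtain ⟨σ, hσ, hσe⟩ := H.exch_inj (fun i => if h : i < k then (e ⟨i, h⟩ : ℕ) else 0) k (by
    intro i hi j hj hij
    rw [dif_pos hi, dif_pos hj] at hij
    have := he (Fin.ext hij)
    exact congrArg Fin.val this)
  have h1 : ∀ a : Fin k, σ a = e a := by
    intro a
    rw [hσe a a.isLt, dif_pos a.isLt]
  conv_rhs => rw [← hσ]
  rw [integral_map (measurable_rel σ).aemeasurable
    (patDep_EP (L := L) (n := k) cl φ).measurable.aestronglyMeasurable]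
  apply integral_congr_ae
  filter_upwards [H.good] with R hR
  unfold EP
  have h2 : Km L cl k (rel σ R) = (Km L cl n R).submatrix e e := by
    ext a b
    simp only [Matrix.submatrix_apply, Km, rel, h1]
    congr 1
    by_cases hab : a = b
    · rw [if_pos hab, if_pos (by rw [hab])]
    · rw [if_neg hab, if_neg (fun h => hab (he h))]
  rw [h2, ← gm_comp (Km_psd L hL cl hcl hR n) e]
  have hm : Measurable (fun x : Fin n → ℝ => x ∘ e) := by
    apply measurable_pi_lambda
    intro a
    exact measurable_pi_apply _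
  rw [integral_map hm.aemeasurable]
  · rfl
  · exact (Finset.measurable_prod _ fun a _ => hφ.comp (measurable_pi_apply _)).aestronglyMeasurable

/-- moments of the empirical mean -/
theorem GGArray.moment_le (H : GGArray P ζ) (hL : ∀ p ∈ L, p.1 ≤ 1 ∧ 0 ≤ p.2) {cl : ℝ}
    (hcl : 0 ≤ cl) {M δ : ℝ} {A : ℝ → ℝ} (HA : Bd M δ A) (k : ℕ) (hn : 1 ≤ n) :
    ∫ R, (∫ z, ((1 / (n : ℝ)) * ∑ i : Fin n, Yf M A (z i)) ^ k ∂(gm (Km L cl n R))) ∂P ≤
      (∫ R, EP L cl k (Yf M A) R ∂P) + (1 - (n.descFactorial k : ℝ) / (n : ℝ) ^ k) := by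
  classical
  have := H.prob
  set Y := Yf M A with hY
  have hn0 : (0 : ℝ) < n := by exact_mod_cast hn
  have hYm : Measurable Y := HA.Y_meas
  have hY1 : ∀ y, Y y ≤ 1 := fun y => by
    have := HA.Y_le y
    have := HA.δ0
    linarith
  have hY0 : ∀ y, 0 ≤ Y y := HA.Y_nonneg
  have hexp : ∀ z : Fin n → ℝ, ((1 / (n : ℝ)) * ∑ i : Fin n, Y (z i)) ^ k =
      (1 / (n : ℝ) ^ k) * ∑ e : Fin k → Fin n, ∏ l, Y (z (e l)) := by
    intro z
    rw [mul_pow, one_div, inv_pow, ← one_div]
    congr 1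
    have := Finset.prod_univ_sum (ι := Fin k) (κ := fun _ => Fin n) (fun _ => Finset.univ)
      (fun _ i => Y (z i))
    rw [Finset.prod_const, Finset.card_univ, Fintype.card_fin] at this
    rw [this]
    simp
  have hpm : ∀ e : Fin k → Fin n, Measurable fun z : Fin n → ℝ => ∏ l, Y (z (e l)) := fun e =>
    Finset.measurable_prod _ fun a _ => hYm.comp (measurable_pi_apply _)
  have hpb : ∀ (e : Fin k → Fin n) (z : Fin n → ℝ), ‖∏ l, Y (z (e l))‖ ≤ 1 := by
    intro e z
    rw [Real.norm_eq_abs, Finset.abs_prod]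
    exact Finset.prod_le_one (fun a _ => abs_nonneg _) (fun a _ => by
      rw [abs_of_nonneg (hY0 _)]; exact hY1 _)
  have hpi : ∀ (e : Fin k → Fin n) (C : Matrix (Fin n) (Fin n) ℝ),
      Integrable (fun z : Fin n → ℝ => ∏ l, Y (z (e l))) (gm C) := fun e C =>
    Integrable.of_bound (hpm e).aestronglyMeasurable 1 (Filter.Eventually.of_forall (hpb e))
  set J : (Fin k → Fin n) → (ℕ → ℕ → ℝ) → ℝ := fun e R =>
    ∫ z, ∏ l, Y (z (e l)) ∂(gm (Km L cl n R)) with hJ
  have hJp : ∀ e, PatDep n (L.map Prod.fst) (J e) := by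
    intro e R R' h
    simp only [hJ]
    rw [Km_congr h cl]
  have hJ1 : ∀ e R, J e R ≤ 1 := by
    intro e R
    have h3 := norm_integral_le_of_norm_le_const (μ := gm (Km L cl n R))
      (f := fun z : Fin n → ℝ => ∏ l, Y (z (e l))) (C := 1)
      (Filter.Eventually.of_forall (hpb e))
    rw [probReal_univ, mul_one] at h3
    exact (Real.le_norm_self _).trans h3
  have h1 : ∫ R, (∫ z, ((1 / (n : ℝ)) * ∑ i : Fin n, Y (z i)) ^ k ∂(gm (Km L cl n R))) ∂P =
      (1 / (n : ℝ) ^ k) * ∑ e : Fin k → Fin n, ∫ R, J e R ∂P := by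
    rw [← integral_finsetSum _ (fun e _ => (hJp e).integrable), ← integral_const_mul]
    congr 1
    funext R
    simp_rw [hexp]
    rw [integral_const_mul, integral_finsetSum _ (fun e _ => hpi e _)]
  rw [h1]
  set E := ∫ R, EP L cl k Y R ∂P with hE
  have hE0 : 0 ≤ E := integral_nonneg fun R => integral_nonneg fun z =>
    Finset.prod_nonneg fun a _ => hY0 _
  -- split into injective maps and the others
  have h2 : ∑ e : Fin k → Fin n, ∫ R, J e R ∂P ≤
      (n.descFactorial k : ℝ) * E + ((n : ℝ) ^ k - n.descFactorial k) := by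
    rw [← Finset.sum_filter_add_sum_filter_not Finset.univ
      (fun e : Fin k → Fin n => Function.Injective e)]
    have hc : (Finset.univ.filter fun e : Fin k → Fin n => Function.Injective e).card =
        n.descFactorial k := by
      have h5 := Fintype.card_embedding_eq (α := Fin k) (β := Fin n)
      rw [Fintype.card_fin, Fintype.card_fin] at h5
      rw [← h5, ← Fintype.card_subtype]
      exact Fintype.card_congr (Equiv.subtypeInjectiveEquivEmbedding (Fin k) (Fin n))
    have hcc := Finset.card_filter_add_card_filter_not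
      (s := (Finset.univ : Finset (Fin k → Fin n))) (fun e => Function.Injective e)
    rw [Finset.card_univ, Fintype.card_fun, Fintype.card_fin, Fintype.card_fin, hc] at hcc
    have h3 : ∑ e ∈ Finset.univ.filter (fun e : Fin k → Fin n => Function.Injective e),
        ∫ R, J e R ∂P = (n.descFactorial k : ℝ) * E := by
      rw [Finset.sum_congr rfl (fun e he => H.int_inj hL hcl hYm e (Finset.mem_filter.1 he).2),
        Finset.sum_const, hc, nsmul_eq_mul]
    have h4 : ∑ e ∈ Finset.univ.filter (fun e : Fin k → Fin n => ¬ Function.Injective e),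
        ∫ R, J e R ∂P ≤ ((n : ℝ) ^ k - n.descFactorial k) := by
      calc _ ≤ ∑ _e ∈ Finset.univ.filter (fun e : Fin k → Fin n => ¬ Function.Injective e),
            (1 : ℝ) := by
            apply Finset.sum_le_sum
            intro e _
            calc ∫ R, J e R ∂P ≤ ∫ _R, (1 : ℝ) ∂P :=
                  integral_mono (hJp e).integrable (integrable_const _) (hJ1 e)
              _ = 1 := by simp
        _ = _ := by
            rw [Finset.sum_const, nsmul_eq_mul, mul_one]
            have : (n.descFactorial k : ℝ) +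
                (Finset.univ.filter (fun e : Fin k → Fin n => ¬ Function.Injective e)).card =
                (n : ℝ) ^ k := by exact_mod_cast hcc
            linarith
    rw [h3]
    linarith
  have hnk : (0 : ℝ) < (n : ℝ) ^ k := by positivity
  have hdk : (n.descFactorial k : ℝ) ≤ (n : ℝ) ^ k := by
    exact_mod_cast Nat.descFactorial_le_pow n k
  calc (1 / (n : ℝ) ^ k) * ∑ e : Fin k → Fin n, ∫ R, J e R ∂P
      ≤ (1 / (n : ℝ) ^ k) * ((n.descFactorial k : ℝ) * E + ((n : ℝ) ^ k - n.descFactorial k)) :=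
        mul_le_mul_of_nonneg_left h2 (by positivity)
    _ ≤ (1 / (n : ℝ) ^ k) * ((n : ℝ) ^ k * E + ((n : ℝ) ^ k - n.descFactorial k)) := by
        gcongr
    _ = _ := by field_simp

/-- truncated logarithmic series -/
theorem log_lower {y ρ : ℝ} (hy0 : 0 ≤ y) (hy : y ≤ ρ) (hρ : ρ < 1) (K : ℕ) :
    - (∑ k ∈ Finset.range K, y ^ (k + 1) / ((k : ℝ) + 1)) - ρ ^ K / (1 - ρ) ≤
      Real.log (1 - y) := by
  have h1 := Real.abs_log_sub_add_sum_range_le (x := y) (by
    rw [abs_of_nonneg hy0]; linarith) K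
  have h2 := (abs_le.1 h1).1
  rw [abs_of_nonneg hy0] at h2
  have h3 : y ^ (K + 1) / (1 - y) ≤ ρ ^ K / (1 - ρ) := by
    have hρ0 : 0 ≤ ρ := hy0.trans hy
    apply div_le_div₀ (pow_nonneg hρ0 K) _ (by linarith) (by linarith)
    calc y ^ (K + 1) ≤ ρ ^ (K + 1) := pow_le_pow_left₀ hy0 hy _
      _ ≤ ρ ^ K := pow_le_pow_of_le_one hρ0 hρ.le (Nat.le_succ K)
  linarith

theorem desc_tendsto (k : ℕ) :
    Tendsto (fun n : ℕ => (1 : ℝ) - (n.descFactorial k : ℝ) / (n : ℝ) ^ k) atTop (𝓝 0) := by
  have h1 : Tendsto (fun n : ℕ => (1 : ℝ) - (1 - (k : ℝ) / n) ^ k) atTop (𝓝 0) := by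
    have h2 : Tendsto (fun n : ℕ => (k : ℝ) / n) atTop (𝓝 0) :=
      tendsto_const_div_atTop_nhds_zero_nat _
    have h3 := ((h2.const_sub 1).pow k).const_sub 1
    simpa using h3
  refine squeeze_zero' ?_ ?_ h1
  · filter_upwards [eventually_ge_atTop 1] with n hn
    rw [sub_nonneg, div_le_one (by positivity)]
    exact_mod_cast Nat.descFactorial_le_pow n k
  · filter_upwards [eventually_ge_atTop (k + 1)] with n hn
    have hn0 : (0 : ℝ) < n := by
      have : 0 < n := by omega
      exact_mod_cast this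
    have h4 : ((n : ℝ) - k) ^ k ≤ n.descFactorial k := by
      have h5 := Nat.pow_sub_le_descFactorial n k
      have h6 : ((n + 1 - k : ℕ) : ℝ) ^ k ≤ n.descFactorial k := by exact_mod_cast h5
      refine le_trans ?_ h6
      have h7 : (k : ℝ) ≤ n := by
        have : k ≤ n := by omega
        exact_mod_cast this
      apply pow_le_pow_left₀ (by linarith)
      rw [Nat.cast_sub (by omega)]
      push_cast
      linarith
    have h8 : (1 - (k : ℝ) / n) ^ k = ((n : ℝ) - k) ^ k / (n : ℝ) ^ k := by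
      rw [← div_pow]
      congr 1
      field_simp
    rw [h8]
    gcongr

end Pool.Agent.LibOS96
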