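import Pool.Agent.LibOS96.ChainD

/-!
# The chain over thresholds: lower bound for bounded functions
-/

open MeasureTheory ProbabilityTheory Set Filter Topology
open Pool.Agent.OS

namespace Pool.Agent.LibOS96

variable {P : Measure (ℕ → ℕ → ℝ)} {ζ : Measure ℝ} {s : ℝ} {L : List (ℝ × ℝ)} {n : ℕ}

/-- mean logarithm -/
noncomputable def ML (L : List (ℝ × ℝ)) (cl : ℝ) (n : ℕ) (A : ℝ → ℝ) (R : ℕ → ℕ → ℝ) : ℝ :=
  ∫ z, Real.log ((1 / (n:ℝ)) * ∑ i, Real.exp (A (z i))) ∂(gm (Km L cl n R))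

theorem patDep_ML (cl : ℝ) (A : ℝ → ℝ) : PatDep n (L.map Prod.fst) (ML L cl n A) := by
  intro R R' h
  unfold ML
  rw [Km_congr h cl]

theorem GGArray.chain2 (H : GGArray P ζ) (L : List (ℝ × ℝ))
    (hs : L.Pairwise (fun p q => p.1 ≤ q.1)) (hL : ∀ p ∈ L, p.1 ≤ 1 ∧ 0 ≤ p.2)
    {cl : ℝ} (hcl : 0 ≤ cl) {M δ : ℝ} {A : ℝ → ℝ} (HA : Bd M δ A) {ε : ℝ} (hε : 0 < ε) :
    ∀ᶠ n : ℕ in atTop,
      tn (L.map (fun p => (ζ.real (Iio p.1), p.2)) ++ [(1, cl)]) A 0 - ε ≤
        ∫ R, ML L cl n A R ∂P := by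
  have := H.prob
  have hc1 := H.chain1 L hs hL hcl HA
  set V := tn (L.map (fun p => (ζ.real (Iio p.1), p.2)) ++ [(1, cl)]) A 0 with hV
  set ρ := 1 - δ with hρ
  have hρ0 : 0 ≤ ρ := HA.ρ0
  have hρ1 : ρ < 1 := HA.ρ1
  -- choice of `K`
  obtain ⟨K, hK⟩ : ∃ K : ℕ, ρ ^ K / (1 - ρ) ≤ ε / 2 := by
    have h1 := (tendsto_pow_atTop_nhds_zero_of_lt_one hρ0 hρ1).div_const (1 - ρ)
    rw [zero_div] at h1
    exact (h1.eventually (ge_mem_nhds (half_pos hε))).exists
  have hd : Tendsto (fun n : ℕ => ∑ k ∈ Finset.range K, (1 / ((k : ℝ) + 1)) *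
      (1 - (n.descFactorial (k + 1) : ℝ) / (n : ℝ) ^ (k + 1))) atTop (𝓝 0) := by
    have h1 := tendsto_finsetSum (Finset.range K) (fun k _ =>
      (desc_tendsto (k + 1)).const_mul (1 / ((k : ℝ) + 1)))
    simpa using h1
  filter_upwards [hd.eventually (ge_mem_nhds (half_pos hε)), eventually_ge_atTop 1] with n hn hn1
  have hn0 : (0 : ℝ) < n := by exact_mod_cast hn1
  set Yb : (Fin n → ℝ) → ℝ := fun z => (1 / (n : ℝ)) * ∑ i : Fin n, Yf M A (z i) with hYb
  have hYb0 : ∀ z, 0 ≤ Yb z := fun z =>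
    mul_nonneg (by positivity) (Finset.sum_nonneg fun i _ => HA.Y_nonneg _)
  have hYb1 : ∀ z, Yb z ≤ ρ := by
    intro z
    calc Yb z ≤ (1 / (n : ℝ)) * ∑ _i : Fin n, ρ :=
          mul_le_mul_of_nonneg_left (Finset.sum_le_sum fun i _ => HA.Y_le _) (by positivity)
      _ = ρ := by
          rw [Finset.sum_const, Finset.card_univ, Fintype.card_fin, nsmul_eq_mul]
          field_simp
  have hYbm : Measurable Yb := (Finset.measurable_sum _ fun i _ =>
    HA.Y_meas.comp (measurable_pi_apply i)).const_mul _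
  have hlog : ∀ z : Fin n → ℝ, Real.log ((1 / (n:ℝ)) * ∑ i, Real.exp (A (z i))) =
      Real.log M + Real.log (1 - Yb z) := by
    intro z
    rw [← Real.log_mul HA.M0.ne' (by linarith [hYb1 z])]
    congr 1
    simp only [hYb, Yf]
    rw [Finset.sum_sub_distrib, Finset.sum_const, Finset.card_univ, Fintype.card_fin,
      nsmul_eq_mul, mul_one, ← Finset.sum_div]
    have hM0 := HA.M0
    field_simp
    ring
  have hpi : ∀ (k : ℕ) (C : Matrix (Fin n) (Fin n) ℝ), Integrable (fun z => Yb z ^ k) (gm C) :=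
    fun k C => Integrable.of_bound (hYbm.pow_const k).aestronglyMeasurable 1
      (Filter.Eventually.of_forall fun z => by
        rw [norm_pow, Real.norm_eq_abs, abs_of_nonneg (hYb0 z)]
        exact pow_le_one₀ (hYb0 z) (by linarith [hYb1 z]))
  have hli : ∀ (C : Matrix (Fin n) (Fin n) ℝ), Integrable (fun z => Real.log (1 - Yb z)) (gm C) := by
    intro C
    refine Integrable.of_bound (Real.measurable_log.comp
      (measurable_const.sub hYbm)).aestronglyMeasurable |Real.log (1 - ρ)|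
      (Filter.Eventually.of_forall fun z => ?_)
    have h1 := hYb0 z
    have h2 := hYb1 z
    have h3 : Real.log (1 - Yb z) ≤ 0 := Real.log_nonpos (by linarith) (by linarith)
    have h4 : Real.log (1 - ρ) ≤ Real.log (1 - Yb z) := Real.log_le_log (by linarith) (by linarith)
    rw [Real.norm_eq_abs, abs_of_nonpos h3, abs_of_nonpos (h4.trans h3)]
    linarith
  set J : ℕ → (ℕ → ℕ → ℝ) → ℝ := fun k R => ∫ z, Yb z ^ k ∂(gm (Km L cl n R)) with hJ
  have hJp : ∀ k, PatDep n (L.map Prod.fst) (J k) := by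
    intro k R R' h
    simp only [hJ]
    rw [Km_congr h cl]
  have h1 : ∀ R, Real.log M - (∑ k ∈ Finset.range K, (1 / ((k : ℝ) + 1)) * J (k + 1) R) -
      ρ ^ K / (1 - ρ) ≤ ML L cl n A R := by
    intro R
    unfold ML
    simp_rw [hlog]
    rw [integral_add (integrable_const _) (hli _)]
    have h2 : ∫ z, (- (∑ k ∈ Finset.range K, (1 / ((k : ℝ) + 1)) * Yb z ^ (k + 1)) -
        ρ ^ K / (1 - ρ)) ∂(gm (Km L cl n R)) ≤ ∫ z, Real.log (1 - Yb z) ∂(gm (Km L cl n R)) := by
      apply integral_mono _ (hli _)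
      · intro z
        have h3 := log_lower (hYb0 z) (hYb1 z) hρ1 K
        have h4 : ∀ k : ℕ, (1 / ((k : ℝ) + 1)) * Yb z ^ (k + 1) = Yb z ^ (k + 1) / ((k : ℝ) + 1) :=
          fun k => by ring
        simp only [h4]
        exact h3
      · exact ((integrable_finsetSum _ fun k _ => (hpi (k + 1) _).const_mul _).neg).sub
          (integrable_const _)
    have h5 : ∫ z, (- (∑ k ∈ Finset.range K, (1 / ((k : ℝ) + 1)) * Yb z ^ (k + 1)) -
        ρ ^ K / (1 - ρ)) ∂(gm (Km L cl n R)) =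
        - (∑ k ∈ Finset.range K, (1 / ((k : ℝ) + 1)) * J (k + 1) R) - ρ ^ K / (1 - ρ) := by
      have h7 : Integrable (fun z => - (∑ k ∈ Finset.range K,
          (1 / ((k : ℝ) + 1)) * Yb z ^ (k + 1))) (gm (Km L cl n R)) :=
        (integrable_finsetSum _ fun k _ => (hpi (k + 1) _).const_mul _).neg
      rw [integral_sub h7 (integrable_const _), integral_neg, integral_finsetSum _
        (fun k _ => (hpi (k + 1) _).const_mul _)]
      simp_rw [integral_const_mul]
      simp [hJ]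
    have h6 : ∫ _z : Fin n → ℝ, Real.log M ∂(gm (Km L cl n R)) = Real.log M := by simp
    rw [h6]
    linarith
  have h2 : ∫ R, (Real.log M - (∑ k ∈ Finset.range K, (1 / ((k : ℝ) + 1)) * J (k + 1) R) -
      ρ ^ K / (1 - ρ)) ∂P ≤ ∫ R, ML L cl n A R ∂P := by
    apply integral_mono _ (patDep_ML cl A).integrable h1
    exact ((integrable_const _).sub (integrable_finsetSum _ fun k _ =>
      (hJp (k + 1)).integrable.const_mul _)).sub (integrable_const _)
  have h3 : ∫ R, (Real.log M - (∑ k ∈ Finset.range K, (1 / ((k : ℝ) + 1)) * J (k + 1) R) -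
      ρ ^ K / (1 - ρ)) ∂P = Real.log M - (∑ k ∈ Finset.range K, (1 / ((k : ℝ) + 1)) *
        ∫ R, J (k + 1) R ∂P) - ρ ^ K / (1 - ρ) := by
    have h7 : Integrable (fun R => ∑ k ∈ Finset.range K, (1 / ((k : ℝ) + 1)) * J (k + 1) R) P :=
      integrable_finsetSum _ fun k _ => (hJp (k + 1)).integrable.const_mul _
    have h8 : Integrable (fun R => Real.log M -
        ∑ k ∈ Finset.range K, (1 / ((k : ℝ) + 1)) * J (k + 1) R) P := (integrable_const _).sub h7
    rw [integral_sub h8 (integrable_const _), integral_sub (integrable_const _) h7,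
      integral_finsetSum _ (fun k _ => (hJp (k + 1)).integrable.const_mul _)]
    simp_rw [integral_const_mul]
    simp
  rw [h3] at h2
  have h4 : ∑ k ∈ Finset.range K, (1 / ((k : ℝ) + 1)) * ∫ R, J (k + 1) R ∂P ≤
      (∑ k ∈ Finset.range K, (1 / ((k : ℝ) + 1)) * ∫ R, EP L cl (k + 1) (Yf M A) R ∂P) +
      ∑ k ∈ Finset.range K, (1 / ((k : ℝ) + 1)) *
        (1 - (n.descFactorial (k + 1) : ℝ) / (n : ℝ) ^ (k + 1)) := by
    rw [← Finset.sum_add_distrib]
    apply Finset.sum_le_sum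
    intro k _
    rw [← mul_add]
    exact mul_le_mul_of_nonneg_left (H.moment_le hL hcl HA (k + 1) hn1) (by positivity)
  have h5 : ∑ k ∈ Finset.range K, (1 / ((k : ℝ) + 1)) * ∫ R, EP L cl (k + 1) (Yf M A) R ∂P ≤
      Real.log M - V := by
    apply sum_le_hasSum _ _ hc1
    intro k _
    apply mul_nonneg (by positivity)
    exact integral_nonneg fun R => integral_nonneg fun z =>
      Finset.prod_nonneg fun a _ => HA.Y_nonneg _
  linarith

end Pool.Agent.LibOS96
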