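import Pool.Agent.LibOS96.ChainE

/-!
# Functions of linear growth: convergence of nested operators under truncation
-/

open MeasureTheory ProbabilityTheory Set Filter Topology
open Pool.Agent.OS

namespace Pool.Agent.LibOS96

/-- exponential moments of a standard Gaussian -/
theorem int_exp_abs (t : ℝ) : Integrable (fun g : ℝ => Real.exp (t * |g|)) γ := by
  have h1 : Integrable (fun g : ℝ => Real.exp (t * g) + Real.exp (-t * g)) γ :=
    (integrable_exp_mul_gaussianReal t).add (integrable_exp_mul_gaussianReal (-t))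
  refine h1.mono' (by fun_prop) (Filter.Eventually.of_forall fun g => ?_)
  rw [Real.norm_eq_abs, abs_of_pos (Real.exp_pos _)]
  rcases abs_cases g with ⟨h, _⟩ | ⟨h, _⟩
  · rw [h]
    linarith [Real.exp_pos (-t * g)]
  · rw [h]
    have : t * -g = -t * g := by ring
    rw [this]
    linarith [Real.exp_pos (t * g)]

theorem int_abs : Integrable (fun g : ℝ => |g|) γ := by
  refine (int_exp_abs 1).mono' (by fun_prop) (Filter.Eventually.of_forall fun g => ?_)
  rw [Real.norm_eq_abs, abs_abs, one_mul]
  linarith [Real.add_one_le_exp |g|]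

/-- measurable of linear growth -/
structure Lin (B : ℝ) (F : ℝ → ℝ) : Prop where
  meas : Measurable F
  bd : ∀ y, |F y| ≤ B * (1 + |y|)

namespace Lin

variable {B : ℝ} {F : ℝ → ℝ}

theorem B0 (H : Lin B F) : 0 ≤ B := by
  have := H.bd 0
  rw [abs_zero, add_zero, mul_one] at this
  exact (abs_nonneg _).trans this

theorem shift (H : Lin B F) (y c g : ℝ) :
    |F (y + Real.sqrt c * g)| ≤ B * (1 + |y|) + B * Real.sqrt c * |g| := by
  have h1 := H.bd (y + Real.sqrt c * g)
  have h2 : |y + Real.sqrt c * g| ≤ |y| + Real.sqrt c * |g| := by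
    refine (abs_add_le _ _).trans ?_
    rw [abs_mul, abs_of_nonneg (Real.sqrt_nonneg c)]
  have h3 := mul_le_mul_of_nonneg_left h2 H.B0
  nlinarith [h1, h3]

theorem meas_shift (H : Lin B F) (y c : ℝ) : Measurable fun g : ℝ => F (y + Real.sqrt c * g) :=
  H.meas.comp ((measurable_id.const_mul _).const_add _)

theorem int_bd (y c : ℝ) :
    Integrable (fun g : ℝ => B * (1 + |y|) + B * Real.sqrt c * |g|) γ :=
  (integrable_const _).add (int_abs.const_mul _)

theorem int_exp_bd (x y c : ℝ) :
    Integrable (fun g : ℝ => Real.exp (x * (B * (1 + |y|) + B * Real.sqrt c * |g|))) γ := by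
  have h1 := (int_exp_abs (x * (B * Real.sqrt c))).const_mul (Real.exp (x * (B * (1 + |y|))))
  refine h1.congr (Filter.Eventually.of_forall fun g => ?_)
  simp only
  rw [← Real.exp_add]
  congr 1
  ring

theorem int_F (H : Lin B F) (y c : ℝ) : Integrable (fun g : ℝ => F (y + Real.sqrt c * g)) γ :=
  (int_bd (B := B) y c).mono' (H.meas_shift y c).aestronglyMeasurable
    (Filter.Eventually.of_forall fun g => H.shift y c g)

theorem int_exp (H : Lin B F) {x : ℝ} (hx : 0 ≤ x) (y c : ℝ) :
    Integrable (fun g : ℝ => Real.exp (x * F (y + Real.sqrt c * g))) γ := by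
  refine (int_exp_bd (B := B) x y c).mono'
    (Real.measurable_exp.comp ((H.meas_shift y c).const_mul x)).aestronglyMeasurable
    (Filter.Eventually.of_forall fun g => ?_)
  rw [Real.norm_eq_abs, abs_of_pos (Real.exp_pos _)]
  apply Real.exp_le_exp.2
  exact mul_le_mul_of_nonneg_left ((le_abs_self _).trans (H.shift y c g)) hx

theorem Z_pos (H : Lin B F) {x : ℝ} (hx : 0 ≤ x) (y c : ℝ) :
    0 < ∫ g, Real.exp (x * F (y + Real.sqrt c * g)) ∂γ :=
  integral_exp_pos (H.int_exp hx y c)

/-- the growth constant after one operator -/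
noncomputable def nB (B x c : ℝ) : ℝ :=
  B + (B * Real.sqrt c * ∫ g, |g| ∂γ) +
    x⁻¹ * (|Real.log (∫ g, Real.exp (x * (B * Real.sqrt c) * |g|) ∂γ)| +
      |Real.log (∫ g, Real.exp (-(x * (B * Real.sqrt c)) * |g|) ∂γ)|)

theorem T (H : Lin B F) {x : ℝ} (hx : 0 ≤ x) (c : ℝ) : Lin (nB B x c) (T x (Real.sqrt c) F) where
  meas := by
    have hj : Measurable (fun p : ℝ × ℝ => p.1 + Real.sqrt c * p.2) :=
      measurable_fst.add (measurable_snd.const_mul _)
    have h1 : Measurable fun y => ∫ g, F (y + Real.sqrt c * g) ∂γ :=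
      (StronglyMeasurable.integral_prod_right'
        (f := fun (p : ℝ × ℝ) => F (p.1 + Real.sqrt c * p.2))
        (H.meas.comp hj).stronglyMeasurable).measurable
    have h2 : Measurable fun y => ∫ g, Real.exp (x * F (y + Real.sqrt c * g)) ∂γ :=
      (StronglyMeasurable.integral_prod_right'
        (f := fun (p : ℝ × ℝ) => Real.exp (x * F (p.1 + Real.sqrt c * p.2)))
        ((Real.measurable_exp.comp (H.meas.const_mul x)).comp hj).stronglyMeasurable).measurable
    have h3 : Pool.Agent.OS.T x (Real.sqrt c) F = fun y =>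
      if x = 0 then ∫ g, F (y + Real.sqrt c * g) ∂γ
      else x⁻¹ * Real.log (∫ g, Real.exp (x * F (y + Real.sqrt c * g)) ∂γ) := by
      funext y; exact Bd.T_eq x c F y
    rw [h3]
    split_ifs
    · exact h1
    · exact (Real.measurable_log.comp h2).const_mul _
  bd y := by
    have hB := H.B0
    have hy : 1 ≤ 1 + |y| := by linarith [abs_nonneg y]
    have hG : 0 ≤ ∫ g, |g| ∂γ := integral_nonneg fun g => abs_nonneg _
    set κ := ∫ g, Real.exp (x * (B * Real.sqrt c) * |g|) ∂γ with hκ
    set κ' := ∫ g, Real.exp (-(x * (B * Real.sqrt c)) * |g|) ∂γ with hκ'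
    have hQ : 0 ≤ x⁻¹ * (|Real.log κ| + |Real.log κ'|) := by positivity
    have hP : 0 ≤ B * Real.sqrt c * ∫ g, |g| ∂γ := by positivity
    rcases hx.eq_or_lt with hx0 | hx0
    · rw [Bd.T_eq, if_pos hx0.symm]
      calc |∫ g, F (y + Real.sqrt c * g) ∂γ| ≤ ∫ g, |F (y + Real.sqrt c * g)| ∂γ :=
            abs_integral_le_integral_abs
        _ ≤ ∫ g, (B * (1 + |y|) + B * Real.sqrt c * |g|) ∂γ :=
            integral_mono (H.int_F y c).abs (int_bd y c) (fun g => H.shift y c g)
        _ = B * (1 + |y|) + B * Real.sqrt c * ∫ g, |g| ∂γ := by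
            rw [integral_add (integrable_const _) (int_abs.const_mul _)]
            congr 1
            · simp
            · exact integral_const_mul _ _
        _ ≤ nB B x c * (1 + |y|) := by
            unfold nB
            rw [← hκ, ← hκ']
            nlinarith
    · rw [Bd.T_eq, if_neg hx0.ne']
      have hκ0 : 0 < κ := integral_exp_pos (int_exp_abs _)
      have hκ0' : 0 < κ' := integral_exp_pos (int_exp_abs _)
      have hZ := H.Z_pos hx y c
      have h1 : ∫ g, Real.exp (x * F (y + Real.sqrt c * g)) ∂γ ≤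
          Real.exp (x * (B * (1 + |y|))) * κ := by
        rw [hκ, ← integral_const_mul]
        apply integral_mono (H.int_exp hx y c) ((int_exp_abs _).const_mul _)
        intro g
        simp only
        rw [← Real.exp_add]
        apply Real.exp_le_exp.2
        have := mul_le_mul_of_nonneg_left ((le_abs_self _).trans (H.shift y c g)) hx
        linarith
      have h2 : Real.exp (-(x * (B * (1 + |y|)))) * κ' ≤
          ∫ g, Real.exp (x * F (y + Real.sqrt c * g)) ∂γ := by
        rw [hκ', ← integral_const_mul]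
        apply integral_mono ((int_exp_abs _).const_mul _) (H.int_exp hx y c)
        intro g
        simp only
        rw [← Real.exp_add]
        apply Real.exp_le_exp.2
        have := mul_le_mul_of_nonneg_left ((neg_le_abs _).trans (H.shift y c g)) hx
        linarith
      have h3 := Real.log_le_log hZ h1
      have h4 := Real.log_le_log (mul_pos (Real.exp_pos _) hκ0') h2
      rw [Real.log_mul (Real.exp_pos _).ne' hκ0.ne', Real.log_exp] at h3
      rw [Real.log_mul (Real.exp_pos _).ne' hκ0'.ne', Real.log_exp] at h4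
      have h5 : |Real.log (∫ g, Real.exp (x * F (y + Real.sqrt c * g)) ∂γ)| ≤
          x * (B * (1 + |y|)) + (|Real.log κ| + |Real.log κ'|) := by
        rw [abs_le]
        have a1 := le_abs_self (Real.log κ)
        have a2 := neg_abs_le (Real.log κ')
        have a3 := abs_nonneg (Real.log κ)
        have a4 := abs_nonneg (Real.log κ')
        constructor <;> linarith
      rw [abs_mul, abs_of_pos (inv_pos.2 hx0)]
      calc x⁻¹ * |Real.log (∫ g, Real.exp (x * F (y + Real.sqrt c * g)) ∂γ)|
          ≤ x⁻¹ * (x * (B * (1 + |y|)) + (|Real.log κ| + |Real.log κ'|)) :=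
            mul_le_mul_of_nonneg_left h5 (inv_pos.2 hx0).le
        _ = B * (1 + |y|) + x⁻¹ * (|Real.log κ| + |Real.log κ'|) := by
            rw [mul_add, inv_mul_cancel_left₀ hx0.ne']
        _ ≤ nB B x c * (1 + |y|) := by
            unfold nB
            rw [← hκ, ← hκ']
            nlinarith

/-- continuity of the operator -/
theorem T_tendsto {G : ℕ → ℝ → ℝ} (H : Lin B F) (HG : ∀ m, Lin B (G m))
    (hG : ∀ y, Tendsto (fun m => G m y) atTop (𝓝 (F y))) {x : ℝ} (hx : 0 ≤ x) (c y : ℝ) :
    Tendsto (fun m => Pool.Agent.OS.T x (Real.sqrt c) (G m) y) atTop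
      (𝓝 (Pool.Agent.OS.T x (Real.sqrt c) F y)) := by
  simp_rw [Bd.T_eq]
  split_ifs with hx0
  · apply tendsto_integral_of_dominated_convergence
      (fun g => B * (1 + |y|) + B * Real.sqrt c * |g|)
    · intro m; exact ((HG m).meas_shift y c).aestronglyMeasurable
    · exact int_bd y c
    · intro m
      exact Filter.Eventually.of_forall fun g => (HG m).shift y c g
    · exact Filter.Eventually.of_forall fun g => hG _
  · apply Tendsto.const_mul
    apply Tendsto.log _ (H.Z_pos hx y c).ne'
    apply tendsto_integral_of_dominated_convergence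
      (fun g => Real.exp (x * (B * (1 + |y|) + B * Real.sqrt c * |g|)))
    · intro m
      exact (Real.measurable_exp.comp (((HG m).meas_shift y c).const_mul x)).aestronglyMeasurable
    · exact int_exp_bd x y c
    · intro m
      refine Filter.Eventually.of_forall fun g => ?_
      rw [Real.norm_eq_abs, abs_of_pos (Real.exp_pos _)]
      apply Real.exp_le_exp.2
      exact mul_le_mul_of_nonneg_left ((le_abs_self _).trans ((HG m).shift y c g)) hx
    · refine Filter.Eventually.of_forall fun g => ?_
      exact ((Real.continuous_exp.tendsto _).comp ((hG _).const_mul x))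

/-- continuity of the nested operators -/
theorem tn_tendsto (L : List (ℝ × ℝ)) (hL : ∀ p ∈ L, 0 ≤ p.1) {B : ℝ} {F : ℝ → ℝ}
    {G : ℕ → ℝ → ℝ} (H : Lin B F) (HG : ∀ m, Lin B (G m))
    (hG : ∀ y, Tendsto (fun m => G m y) atTop (𝓝 (F y))) :
    ∃ B', Lin B' (tn L F) ∧ (∀ m, Lin B' (tn L (G m))) ∧
      ∀ y, Tendsto (fun m => tn L (G m) y) atTop (𝓝 (tn L F y)) := by
  induction L with
  | nil => exact ⟨B, H, HG, hG⟩
  | cons p L ih =>
    obtain ⟨B', h1, h2, h3⟩ := ih (fun q hq => hL q (List.mem_cons_of_mem _ hq))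
    have hp := hL p (List.mem_cons_self ..)
    refine ⟨nB B' p.1 p.2, ?_, ?_, ?_⟩
    · exact h1.T hp p.2
    · intro m; exact (h2 m).T hp p.2
    · intro y
      exact T_tendsto h1 h2 h3 hp p.2 y

end Lin

/-- truncation -/
noncomputable def trn (A : ℝ → ℝ) (m : ℕ) (y : ℝ) : ℝ := max (min (A y) m) (-m)

theorem trn_Bd {A : ℝ → ℝ} (hA : Measurable A) (m : ℕ) :
    Bd (Real.exp m) (Real.exp (-(2 * m))) (trn A m) where
  meas := (hA.min measurable_const).max measurable_const
  M0 := Real.exp_pos _
  δ0 := Real.exp_pos _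
  δ1 := by
    rw [Real.exp_le_one_iff]
    have : (0 : ℝ) ≤ m := Nat.cast_nonneg m
    linarith
  lo y := by
    rw [← Real.exp_add]
    apply Real.exp_le_exp.2
    have : -(m : ℝ) ≤ trn A m y := le_max_right _ _
    linarith
  hi y := by
    apply Real.exp_le_exp.2
    have : (0 : ℝ) ≤ m := Nat.cast_nonneg m
    exact max_le (min_le_right _ _) (by linarith)

theorem trn_abs (A : ℝ → ℝ) (m : ℕ) (y : ℝ) : |trn A m y| ≤ |A y| := by
  have h0 : (0 : ℝ) ≤ m := Nat.cast_nonneg m
  have h1 := neg_abs_le (A y)
  have h2 := le_abs_self (A y)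
  have h3 := abs_nonneg (A y)
  unfold trn
  rw [abs_le]
  constructor
  · rcases le_total (A y) m with h | h
    · rw [min_eq_left h]
      exact h1.trans (le_max_left _ _)
    · rw [min_eq_right h]
      exact le_trans (by linarith) (le_max_left _ _)
  · exact max_le ((min_le_left _ _).trans h2) (by linarith)

theorem trn_Lin {B : ℝ} {A : ℝ → ℝ} (H : Lin B A) (m : ℕ) : Lin B (trn A m) where
  meas := (trn_Bd H.meas m).meas
  bd y := (trn_abs A m y).trans (H.bd y)

theorem trn_tendsto (A : ℝ → ℝ) (y : ℝ) :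
    Tendsto (fun m => trn A m y) atTop (𝓝 (A y)) := by
  apply tendsto_const_nhds.congr'
  obtain ⟨N, hN⟩ := exists_nat_ge |A y|
  filter_upwards [eventually_ge_atTop N] with m hm
  have h1 : |A y| ≤ m := hN.trans (by exact_mod_cast hm)
  unfold trn
  rw [min_eq_left ((le_abs_self _).trans h1), max_eq_left]
  linarith [neg_abs_le (A y)]

theorem exp_trn_le (A : ℝ → ℝ) (m : ℕ) (y : ℝ) :
    Real.exp (trn A m y) ≤ Real.exp (A y) + Real.exp (-m) := by
  unfold trn
  rcases le_total (min (A y) m) (-m) with h | h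
  · rw [max_eq_right h]
    linarith [Real.exp_pos (A y)]
  · rw [max_eq_left h]
    have := Real.exp_le_exp.2 (min_le_left (A y) m)
    linarith [Real.exp_pos (-(m:ℝ))]

end Pool.Agent.LibOS96
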