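import Pool.Agent.LibOS96.Array

/-!
# Duplication of replicas
-/

open MeasureTheory Set

namespace Pool.Agent.LibOS96

/-- a product which decays slower than `1 / K` -/
theorem prod_slow (γ : ℝ) (h0 : 0 ≤ γ) (h1 : γ < 1) (n : ℕ) (hn : 1 ≤ n) (M : ℝ) :
    ∃ K : ℕ, M < (K + 1) * ∏ j ∈ Finset.range K, (1 - γ / (n + j)) := by
  have hn0 : (0 : ℝ) < n := by exact_mod_cast hn
  set b : ℕ → ℝ := fun K => (n + K) * ∏ j ∈ Finset.range K, (1 - γ / (n + j)) with hb
  have hfac : ∀ j : ℕ, 0 < 1 - γ / ((n : ℝ) + j) := by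
    intro j
    have : (0 : ℝ) < n + j := by positivity
    rw [sub_pos, div_lt_one this]
    have : (1 : ℝ) ≤ n := by exact_mod_cast hn
    have hj : (0 : ℝ) ≤ j := Nat.cast_nonneg j
    linarith
  have hbpos : ∀ K, 0 < b K := by
    intro K
    rw [hb]
    have : (0 : ℝ) < n + K := by positivity
    exact mul_pos this (Finset.prod_pos fun j _ => hfac j)
  set δ : ℝ := (1 - γ) / 2 with hδ
  have hδ0 : 0 < δ := by rw [hδ]; linarith
  have hδ1 : δ ≤ 1 := by rw [hδ]; linarith
  obtain ⟨K₀, hK₀⟩ := exists_nat_gt (γ / δ)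
  have hstep : ∀ K : ℕ, K₀ ≤ K → b K * (((n : ℝ) + (K + 1 : ℕ)) / (n + K)) ^ δ ≤ b (K + 1) := by
    intro K hK
    set x : ℝ := n + K with hx
    have hx0 : 0 < x := by rw [hx]; positivity
    have hxK : γ / δ < x := by
      have : (K₀ : ℝ) ≤ K := by exact_mod_cast hK
      rw [hx]; linarith
    have e1 : b (K + 1) = b K * ((x + 1) * (1 - γ / x) / x) := by
      rw [hb]
      simp only [Finset.prod_range_succ]
      rw [← hx]
      push_cast
      rw [← add_assoc, ← hx]
      field_simp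
    have e2 : ((n : ℝ) + (K + 1 : ℕ)) / (n + K) = 1 + 1 / x := by
      rw [← hx]
      push_cast
      rw [← add_assoc, ← hx]
      field_simp
    rw [e1, e2]
    apply mul_le_mul_of_nonneg_left _ (hbpos K).le
    have h2 : (1 + 1 / x) ^ δ ≤ 1 + δ * (1 / x) := by
      refine rpow_one_add_le_one_add_mul_self ?_ hδ0.le hδ1
      have : 0 < 1 / x := by positivity
      linarith
    refine h2.trans ?_
    have h3 : γ < x * δ := by rwa [div_lt_iff₀ hδ0] at hxK
    have e3 : (x + 1) * (1 - γ / x) / x - (1 + δ * (1 / x)) = (x * (1 - γ - δ) - γ) / x ^ 2 := by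
      field_simp
      ring
    have h4 : 0 ≤ (x * (1 - γ - δ) - γ) / x ^ 2 := by
      apply div_nonneg _ (by positivity)
      have : 1 - γ - δ = δ := by rw [hδ]; ring
      rw [this]
      linarith
    linarith
  have hlow : ∀ K : ℕ, K₀ ≤ K → b K₀ / ((n : ℝ) + K₀) ^ δ * ((n : ℝ) + K) ^ δ ≤ b K := by
    intro K hK
    induction K, hK using Nat.le_induction with
    | base =>
      have : 0 < ((n : ℝ) + K₀) ^ δ := by positivity
      rw [div_mul_cancel₀ _ this.ne']
    | succ K hK ih =>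
      refine le_trans ?_ (hstep K hK)
      have hx0 : (0 : ℝ) < n + K := by positivity
      have e1 : ((n : ℝ) + (K + 1 : ℕ)) ^ δ =
          ((n : ℝ) + K) ^ δ * ((((n : ℝ) + (K + 1 : ℕ)) / (n + K)) ^ δ) := by
        rw [← Real.mul_rpow hx0.le (by positivity), mul_div_cancel₀ _ hx0.ne']
      rw [e1, ← mul_assoc]
      exact mul_le_mul_of_nonneg_right ih (by positivity)
  have hc : 0 < b K₀ / ((n : ℝ) + K₀) ^ δ := by
    have := hbpos K₀
    positivity
  have htend : Filter.Tendsto (fun K : ℕ => b K₀ / ((n : ℝ) + K₀) ^ δ * ((n : ℝ) + K) ^ δ)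
      Filter.atTop Filter.atTop := by
    apply Filter.Tendsto.const_mul_atTop hc
    apply (tendsto_rpow_atTop hδ0).comp
    exact Filter.tendsto_atTop_add_const_left _ _ tendsto_natCast_atTop_atTop
  obtain ⟨K, hK1, hK2⟩ := ((htend.eventually_gt_atTop (|M| * n)).and
    (Filter.eventually_ge_atTop K₀)).exists
  refine ⟨K, ?_⟩
  have h5 := lt_of_lt_of_le hK1 (hlow K hK2)
  set Q : ℝ := ∏ j ∈ Finset.range K, (1 - γ / ((n : ℝ) + j)) with hQ
  have hQ0 : 0 < Q := Finset.prod_pos fun j _ => hfac j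
  have h6 : b K = (n + K) * Q := rfl
  rw [h6] at h5
  have h7 : ((n : ℝ) + K) ≤ n * (K + 1) := by
    have : (1 : ℝ) ≤ n := by exact_mod_cast hn
    have hK0 : (0 : ℝ) ≤ K := Nat.cast_nonneg K
    nlinarith
  have h8 : |M| * n < n * ((K + 1) * Q) := by
    calc |M| * n < (n + K) * Q := h5
      _ ≤ (n * (K + 1)) * Q := mul_le_mul_of_nonneg_right h7 hQ0.le
      _ = _ := by ring
  have h9 : n * |M| < n * ((K + 1) * Q) := by linarith
  exact lt_of_le_of_lt (le_abs_self M) (lt_of_mul_lt_mul_left h9 hn0.le)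

variable {P : Measure (ℕ → ℕ → ℝ)} {ζ : Measure ℝ}

/-- the entries with indices below `n` different from `k` lie in the prescribed sets -/
def Wset (n k : ℕ) (I : ℕ → ℕ → Set ℝ) : Set (ℕ → ℕ → ℝ) :=
  {R | ∀ p : ℕ × ℕ, (p.1 < n ∧ p.2 < n ∧ p.1 ≠ k ∧ p.2 ≠ k ∧ p.1 ≠ p.2) →
    R ∈ {R : ℕ → ℕ → ℝ | R p.1 p.2 ∈ I p.1 p.2}}

/-- the replica `r` has overlaps with the others as prescribed for `k` -/
def Sset (n k : ℕ) (I : ℕ → ℕ → Set ℝ) (r : ℕ) : Set (ℕ → ℕ → ℝ) :=
  {R | ∀ l, (l < n ∧ l ≠ k) → R ∈ {R : ℕ → ℕ → ℝ | R l r ∈ I l k}}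

theorem meas_Wset {n k : ℕ} {I : ℕ → ℕ → Set ℝ} (hI : ∀ i j, MeasurableSet (I i j)) :
    MeasurableSet (Wset n k I) := meas_all _ _ fun p => meas_entry (hI p.1 p.2)

theorem meas_Sset {n k : ℕ} {I : ℕ → ℕ → Set ℝ} (hI : ∀ i j, MeasurableSet (I i j)) (r : ℕ) :
    MeasurableSet (Sset n k I r) := meas_all _ _ fun l => meas_entry (hI l k)

theorem dep_Wset (n k : ℕ) (I : ℕ → ℕ → Set ℝ) : DepOn n (Wset n k I) := by
  intro R R' hR hE p hp
  have := hE p hp
  rw [mem_ofPred_eq] at this ⊢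
  rwa [← hR p.1 hp.1 p.2 hp.2.1]

theorem dep_Sset {n k r N : ℕ} (I : ℕ → ℕ → Set ℝ) (hn : n ≤ N) (hr : r < N) :
    DepOn N (Sset n k I r) := by
  intro R R' hR hE l hl
  have := hE l hl
  rw [mem_ofPred_eq] at this ⊢
  rwa [← hR l (by omega) r hr]

/-- relabelling two replicas outside of the pattern -/
theorem rel_Wset {n k a b : ℕ} (I : ℕ → ℕ → Set ℝ) (ha : a = k ∨ n ≤ a) (hb : b = k ∨ n ≤ b) :
    rel (Equiv.swap a b) ⁻¹' Wset n k I = Wset n k I := by
  have hs : ∀ i < n, i ≠ k → Equiv.swap a b i = i := by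
    intro i hi hik
    apply Equiv.swap_apply_of_ne_of_ne
    · rintro rfl; omega
    · rintro rfl; omega
  ext R
  constructor
  · intro h p hp
    have := h p hp
    rw [mem_ofPred_eq] at this ⊢
    rwa [rel, hs p.1 hp.1 hp.2.2.1, hs p.2 hp.2.1 hp.2.2.2.1] at this
  · intro h p hp
    have := h p hp
    rw [mem_ofPred_eq] at this ⊢
    rwa [rel, hs p.1 hp.1 hp.2.2.1, hs p.2 hp.2.1 hp.2.2.2.1]

theorem rel_Sset {n k a b : ℕ} (I : ℕ → ℕ → Set ℝ) (ha : a = k ∨ n ≤ a) (hb : b = k ∨ n ≤ b)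
    (r : ℕ) : rel (Equiv.swap a b) ⁻¹' Sset n k I r = Sset n k I (Equiv.swap a b r) := by
  have hs : ∀ i < n, i ≠ k → Equiv.swap a b i = i := by
    intro i hi hik
    apply Equiv.swap_apply_of_ne_of_ne
    · rintro rfl; omega
    · rintro rfl; omega
  ext R
  constructor
  · intro h l hl
    have := h l hl
    rw [mem_ofPred_eq] at this ⊢
    rwa [rel, hs l hl.1 hl.2] at this
  · intro h l hl
    have := h l hl
    rw [mem_ofPred_eq] at this ⊢
    rwa [rel, hs l hl.1 hl.2]

/-- duplication of the replica `k` -/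
theorem GGArray.dup (H : GGArray P ζ) {n k : ℕ} (hk : k < n) {I : ℕ → ℕ → Set ℝ}
    (hI : ∀ i j, MeasurableSet (I i j)) {s : ℝ} (hs : ∀ l < n, l ≠ k → I l k ⊆ Iio s)
    (hγ : ζ.real (Ici s) < 1) (hE : 0 < P.real (Wset n k I ∩ Sset n k I k)) :
    0 < P.real (Wset n k I ∩ Sset n k I k ∩ Sset n k I n ∩ {R | R k n ∈ Iio s}) := by
  have := H.prob
  have := H.probζ
  by_contra hcon
  have hzero : P.real (Wset n k I ∩ Sset n k I k ∩ Sset n k I n ∩ {R | R k n ∈ Iio s}) = 0 :=
    le_antisymm (not_lt.1 hcon) measureReal_nonneg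
  set W := Wset n k I with hW
  set S := Sset n k I with hS
  have hWm : MeasurableSet W := meas_Wset hI
  have hSm : ∀ r, MeasurableSet (S r) := fun r => meas_Sset hI r
  -- the same for the later replicas
  have hzero' : ∀ j, n ≤ j → P.real (W ∩ S k ∩ S j ∩ {R | R k j ∈ Iio s}) = 0 := by
    intro j hj
    rw [← hzero, ← H.rel_real n j (((hWm.inter (hSm k)).inter (hSm n)).inter
      (meas_entry measurableSet_Iio))]
    congr 1
    rw [preimage_inter, preimage_inter, preimage_inter, rel_Wset I (Or.inr le_rfl) (Or.inr hj),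
      rel_Sset I (Or.inr le_rfl) (Or.inr hj), rel_Sset I (Or.inr le_rfl) (Or.inr hj),
      Equiv.swap_apply_left, Equiv.swap_apply_of_ne_of_ne (by omega) (by omega)]
    congr 1
    ext R
    simp only [mem_preimage, mem_ofPred_eq, rel]
    rw [Equiv.swap_apply_left, Equiv.swap_apply_of_ne_of_ne (by omega) (by omega)]
  -- no new replica near `k`
  set G : ℕ → Set (ℕ → ℕ → ℝ) := fun K => (W ∩ S k) ∩
    {R | ∀ j, j < K → R ∈ {R : ℕ → ℕ → ℝ | R k (n + j) ∈ Iio s}} with hG
  have hGm : ∀ K, MeasurableSet (G K) := fun K => (hWm.inter (hSm k)).inter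
    (meas_all _ _ fun j => meas_entry measurableSet_Iio)
  have hGd : ∀ K, DepOn (n + K) (G K) := by
    intro K
    apply DepOn.inter
    · exact ((dep_Wset n k I).mono (by omega)).inter (dep_Sset I (by omega) (by omega))
    · intro R R' hR hE j hj
      have := hE j hj
      rw [mem_ofPred_eq] at this ⊢
      rwa [← hR k (by omega) (n + j) (by omega)]
  have hGs : ∀ K, P.real (G (K + 1)) = P.real (G K) * (1 - ζ.real (Ici s) / ((n : ℝ) + K)) := by
    intro K
    have h1 := H.ggk (show k < n + K by omega) (hGm K) (hGd K) (measurableSet_Ici (a := s))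
    have h2 : ∑ l ∈ (Finset.range (n + K)).erase k, P.real (G K ∩ {R | R k l ∈ Ici s}) = 0 := by
      apply Finset.sum_eq_zero
      intro l hl
      rw [Finset.mem_erase, Finset.mem_range] at hl
      have h3 : P (G K ∩ {R | R k l ∈ Ici s}) = 0 := by
        rw [measure_eq_zero_iff_ae_notMem]
        filter_upwards [H.symm] with R hRs hR
        have hR2 : s ≤ R k l := hR.2
        rcases lt_or_ge l n with hln | hln
        · have h4 := hR.1.1.2 l ⟨hln, hl.1⟩
          rw [mem_ofPred_eq] at h4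
          have h5 := hs l hln hl.1 h4
          rw [mem_Iio, hRs] at h5
          linarith
        · have h4 := hR.1.2 (l - n) (by omega)
          rw [mem_ofPred_eq, mem_Iio, show n + (l - n) = l by omega] at h4
          linarith
      rw [Measure.real, h3]; rfl
    rw [h2, add_zero] at h1
    have h5 : G (K + 1) = G K \ {R | R k (n + K) ∈ Ici s} := by
      ext R
      constructor
      · rintro ⟨h6, h7⟩
        refine ⟨⟨h6, fun j hj => h7 j (by omega)⟩, ?_⟩
        intro h8
        have h9 := h7 K (by omega)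
        rw [mem_ofPred_eq, mem_Iio] at h9
        rw [mem_ofPred_eq, mem_Ici] at h8
        linarith
      · rintro ⟨⟨h6, h7⟩, h8⟩
        refine ⟨h6, fun j hj => ?_⟩
        rcases Nat.lt_succ_iff_lt_or_eq.1 hj with h9 | h9
        · exact h7 j h9
        · rw [h9]
          rw [mem_ofPred_eq, mem_Ici, not_le] at h8
          exact h8
    have h6 := measureReal_sdiff_add_inter (μ := P) (s := G K)
      (t := {R : ℕ → ℕ → ℝ | R k (n + K) ∈ Ici s}) (meas_entry measurableSet_Ici)
    rw [h5]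
    rw [h1] at h6
    have hnK : (0 : ℝ) < n + K := by
      have : 0 < n := by omega
      positivity
    push_cast at h6
    field_simp at h6 ⊢
    linarith
  have hGp : ∀ K, P.real (G K) = P.real (W ∩ S k) *
      ∏ j ∈ Finset.range K, (1 - ζ.real (Ici s) / ((n : ℝ) + j)) := by
    intro K
    induction K with
    | zero =>
      rw [Finset.prod_range_zero, mul_one, hG]
      congr 1
      ext R
      constructor
      · exact fun h => h.1
      · exact fun h => ⟨h, fun j hj => absurd hj (Nat.not_lt_zero j)⟩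
    | succ K ih => rw [hGs, ih, Finset.prod_range_succ]; ring
  -- the replica `k` is the only one of its kind
  set T : ℕ → Finset ℕ := fun K => insert k (Finset.Ico n (n + K)) with hT
  have hTk : ∀ K, ∀ r ∈ T K, r = k ∨ n ≤ r := by
    intro K r hr
    rcases Finset.mem_insert.1 hr with h | h
    · exact Or.inl h
    · exact Or.inr (Finset.mem_Ico.1 h).1
  set D : ℕ → ℕ → Set (ℕ → ℕ → ℝ) := fun K r => (W ∩ S r) ∩
    {R | ∀ r', (r' ∈ T K ∧ r' ≠ r) → R ∈ (S r')ᶜ} with hD
  have hDm : ∀ K r, MeasurableSet (D K r) := fun K r => (hWm.inter (hSm r)).inter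
    (meas_all _ _ fun r' => (hSm r').compl)
  have hGD : ∀ K, P.real (G K) ≤ P.real (D K k) := by
    intro K
    unfold Measure.real
    apply ENNReal.toReal_mono (measure_ne_top _ _)
    apply measure_mono_ae
    have h1 : ∀ᵐ R ∂P, ∀ j, n ≤ j → R ∉ W ∩ S k ∩ S j ∩ {R : ℕ → ℕ → ℝ | R k j ∈ Iio s} := by
      rw [ae_all_iff]
      intro j
      by_cases hj : n ≤ j
      · have h2 := hzero' j hj
        rw [Measure.real, ENNReal.toReal_eq_zero_iff] at h2
        have h3 := h2.resolve_right (measure_ne_top _ _)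
        filter_upwards [measure_eq_zero_iff_ae_notMem.1 h3] with R hR _
        exact hR
      · exact Filter.Eventually.of_forall fun R h => absurd h hj
    filter_upwards [h1] with R hR hRG
    change R ∈ D K k
    refine ⟨hRG.1, fun r' hr' hSr => ?_⟩
    have h2 : r' ∈ Finset.Ico n (n + K) := by
      rcases Finset.mem_insert.1 hr'.1 with h | h
      · exact absurd h hr'.2
      · exact h
    rw [Finset.mem_Ico] at h2
    have h3 := hRG.2 (r' - n) (by omega)
    rw [show n + (r' - n) = r' by omega] at h3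
    exact hR r' h2.1 ⟨⟨hRG.1, hSr⟩, h3⟩
  have hDeq : ∀ K, ∀ r ∈ T K, P.real (D K r) = P.real (D K k) := by
    intro K r hr
    rw [← H.rel_real k r (hDm K r)]
    congr 1
    have hr' := hTk K r hr
    have e1 : rel (Equiv.swap k r) ⁻¹' (D K r) = (rel (Equiv.swap k r) ⁻¹' W ∩
        rel (Equiv.swap k r) ⁻¹' S r) ∩
        {R | ∀ r', (r' ∈ T K ∧ r' ≠ r) → R ∈ (rel (Equiv.swap k r) ⁻¹' S r')ᶜ} := by
      ext R; rfl
    rw [e1, rel_Wset I (Or.inl rfl) hr', rel_Sset I (Or.inl rfl) hr', Equiv.swap_apply_right]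
    have e2 : {R | ∀ r', (r' ∈ T K ∧ r' ≠ r) → R ∈ (rel (Equiv.swap k r) ⁻¹' S r')ᶜ} =
        {R | ∀ r', (r' ∈ T K ∧ r' ≠ k) → R ∈ (S r')ᶜ} := by
      have hst : ∀ r' ∈ T K, Equiv.swap k r r' ∈ T K := by
        intro r' hr'
        rcases eq_or_ne r' k with rfl | h1
        · rw [Equiv.swap_apply_left]; exact hr
        · rcases eq_or_ne r' r with rfl | h2
          · rw [Equiv.swap_apply_right]; exact Finset.mem_insert_self _ _
          · rwa [Equiv.swap_apply_of_ne_of_ne h1 h2]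
      ext R
      constructor
      · intro h r' hr''
        have h1 := h (Equiv.swap k r r') ⟨hst r' hr''.1, fun h2 => hr''.2 (by
          have := congrArg (Equiv.swap k r) h2
          rwa [Equiv.swap_apply_self, Equiv.swap_apply_right] at this)⟩
        rw [rel_Sset I (Or.inl rfl) (hTk K r hr), Equiv.swap_apply_self] at h1
        exact h1
      · intro h r' hr''
        rw [rel_Sset I (Or.inl rfl) (hTk K r hr)]
        exact h _ ⟨hst r' hr''.1, fun h2 => hr''.2 (by
          have := congrArg (Equiv.swap k r) h2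
          rwa [Equiv.swap_apply_self, Equiv.swap_apply_left] at this)⟩
    rw [e2]
  have hDdisj : ∀ K, ((T K : Finset ℕ) : Set ℕ).PairwiseDisjoint (D K) := by
    intro K a ha b hb hab
    rw [Function.onFun, Set.disjoint_left]
    intro R hRa hRb
    exact hRb.2 a ⟨ha, hab⟩ hRa.1.2
  have hsum : ∀ K : ℕ, ((K : ℝ) + 1) * P.real (D K k) ≤ 1 := by
    intro K
    have h1 : ∑ r ∈ T K, P.real (D K r) ≤ 1 := by
      rw [← measureReal_biUnion_finset (hDdisj K) (fun r _ => hDm K r)]
      exact measureReal_le_one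
    rw [Finset.sum_congr rfl (hDeq K), Finset.sum_const, nsmul_eq_mul] at h1
    have h2 : (T K).card = K + 1 := by
      rw [hT]
      simp only
      rw [Finset.card_insert_of_notMem (by rw [Finset.mem_Ico]; omega), Nat.card_Ico]
      omega
    rw [h2] at h1
    push_cast at h1
    exact h1
  obtain ⟨K, hK⟩ := prod_slow (ζ.real (Ici s)) measureReal_nonneg hγ n (by omega)
    (1 / P.real (W ∩ S k))
  have h1 := hsum K
  have h2 := hGD K
  rw [hGp K] at h2
  rw [div_lt_iff₀ hE] at hK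
  have h3 : ((K : ℝ) + 1) * (P.real (W ∩ S k) *
      ∏ j ∈ Finset.range K, (1 - ζ.real (Ici s) / ((n : ℝ) + j))) ≤ 1 :=
    le_trans (mul_le_mul_of_nonneg_left h2 (by positivity)) h1
  nlinarith

end Pool.Agent.LibOS96
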