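import Pool.Agent.LibOS96.Mix

/-!
# Lemma S: block weights with the same transform give the same sum
-/

open MeasureTheory ProbabilityTheory Set
open Pool.Agent.OS

namespace Pool.Agent.LibOS96

variable {P : Measure (ℕ → ℕ → ℝ)} {ζ : Measure ℝ} {s : ℝ} {L : List (ℝ × ℝ)} {n : ℕ}

theorem Good.bsz_le {R : ℕ → ℕ → ℝ} (a : ℕ) : bsz s n R a ≤ n := by
  unfold bsz
  calc (blk s n R a).card ≤ (Finset.univ : Finset (Fin n)).card := Finset.card_le_card
        (Finset.subset_univ _)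
    _ = n := by rw [Finset.card_univ, Fintype.card_fin]

/-- the sum over the replicas is reduced to the first one -/
theorem GGArray.int_DQ (H : GGArray P ζ) (hL : ∀ p ∈ L, p.1 ≤ 1 ∧ 0 ≤ p.2)
    (hLs : ∀ p ∈ L, p.1 ≤ s) (hs : s ≤ 1) {ρ : ℝ} (hρ0 : 0 ≤ ρ) (hρ1 : ρ ≤ 1)
    {h0 h1 : ℕ → ℝ → ℝ} (H0 : HF ρ h0) (H1 : HF ρ h1) {t : ℝ} (ht0 : 0 ≤ t) (ht1 : t ≤ 1)
    (m : ℕ) :
    ∫ R, DQ L s (m + 1) h0 h1 t R ∂P = ((m : ℝ) + 1) *
      ∑ j ∈ Finset.range (m + 1), (1 / ((j : ℝ) + 1)) *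
        VV P L s (hmix h0 h1 t) m (j + 1) (fun y => h1 (j + 1) y - h0 (j + 1) y) := by
  have := H.prob
  have Hm := H0.mix H1 ht0 ht1
  set G : Fin (m + 1) → (ℕ → ℕ → ℝ) → ℝ := fun a R => (1 / (bsz s (m + 1) R a : ℝ)) *
      Th L s (m + 1) (hmix h0 h1 t)
        (fun y => h1 (bsz s (m + 1) R a) y - h0 (bsz s (m + 1) R a) y) a R with hG
  have hGp : ∀ a, PatDep (m + 1) (s :: L.map Prod.fst) (G a) := by
    intro a R R' h
    have e1 : ∀ i < m + 1, ∀ k < m + 1, (s ≤ R i k ↔ s ≤ R' i k) := fun i hi k hk =>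
      h i hi k hk s (by simp)
    simp only [hG]
    rw [bsz_congr e1 a]
    rw [patDep_Th (L := L) (s := s) (n := m + 1) (hmix h0 h1 t) _ a R R' h]
  have hsw : ∀ a, ∫ R, G a R ∂P = ∫ R, G 0 R ∂P := by
    intro a
    set σ : Equiv.Perm ℕ := Equiv.swap 0 a with hσ
    set e : Equiv.Perm (Fin (m + 1)) := Equiv.swap 0 a with he
    have hse : ∀ b : Fin (m + 1), σ b = e b := by
      intro b
      rw [hσ, he]
      by_cases h1 : b = 0
      · rw [h1, Equiv.swap_apply_left, Fin.val_zero, Equiv.swap_apply_left]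
      · by_cases h2 : b = a
        · rw [h2, Equiv.swap_apply_right, Equiv.swap_apply_right, Fin.val_zero]
        · have h3 : (b : ℕ) ≠ 0 := fun h => h1 (Fin.ext (by rw [h, Fin.val_zero]))
          have h4 : (b : ℕ) ≠ a := fun h => h2 (Fin.ext h)
          rw [Equiv.swap_apply_of_ne_of_ne h1 h2, Equiv.swap_apply_of_ne_of_ne h3 h4]
    have hmap := H.exch 0 a
    rw [← hσ] at hmap
    conv_rhs => rw [← hmap]
    rw [integral_map (measurable_rel σ).aemeasurable (hGp 0).measurable.aestronglyMeasurable]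
    apply integral_congr_ae
    filter_upwards [H.good] with R hR
    simp only [hG]
    have e0 : e 0 = a := by rw [he, Equiv.swap_apply_left]
    rw [bsz_rel (s := s) (R := R) σ e hse 0, e0]
    have hfm : Measurable fun y => h1 (bsz s (m + 1) R a) y - h0 (bsz s (m + 1) R a) y :=
      (H1.meas _).sub (H0.meas _)
    rw [Th_rel hL hR (hmix h0 h1 t) _ 0 Hm.meas hfm σ e hse, e0]
  have h2 : ∫ R, DQ L s (m + 1) h0 h1 t R ∂P = ∑ a, ∫ R, G a R ∂P := by
    rw [← integral_finsetSum _ (fun a _ => (hGp a).integrable)]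
    apply integral_congr_ae
    filter_upwards [H.good] with R hR
    exact DQ_eq_Th hL hLs hs hρ0 hρ1 H0 H1 ht0 ht1 hR
  rw [h2, Finset.sum_congr rfl (fun a _ => hsw a), Finset.sum_const, Finset.card_univ,
    Fintype.card_fin, nsmul_eq_mul]
  push_cast
  congr 1
  -- decomposition according to the size of the block of the first replica
  have h3 : ∫ R, G 0 R ∂P = ∫ R, ∑ j ∈ Finset.range (m + 1), (1 / ((j : ℝ) + 1)) *
      (if bsz s (m + 1) R 0 = j + 1 then Th L s (m + 1) (hmix h0 h1 t)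
        (fun y => h1 (j + 1) y - h0 (j + 1) y) 0 R else 0) ∂P := by
    apply integral_congr_ae
    filter_upwards [H.good] with R hR
    have h4 := hR.bsz_pos hs (0 : Fin (m + 1))
    have h5 := Good.bsz_le (s := s) (n := m + 1) (R := R) 0
    rw [Fin.val_zero] at h4
    rw [Finset.sum_eq_single (bsz s (m + 1) R 0 - 1)]
    · rw [if_pos (by omega)]
      simp only [hG]
      rw [Fin.val_zero]
      have h6 : bsz s (m + 1) R 0 - 1 + 1 = bsz s (m + 1) R 0 := by omega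
      have h7 : (((bsz s (m + 1) R 0 - 1 : ℕ) : ℝ) + 1) = bsz s (m + 1) R 0 := by
        exact_mod_cast h6
      rw [h7, h6]
    · intro j _ hj
      rw [if_neg (by omega), mul_zero]
    · intro h6
      rw [Finset.mem_range] at h6
      omega
  rw [h3, integral_finsetSum]
  · apply Finset.sum_congr rfl
    intro j _
    rw [integral_const_mul]
    rfl
  · intro j _
    exact ((patDep_VV (hmix h0 h1 t) _ m (j + 1)).integrable).const_mul _

theorem sum_tri (F : ℕ → ℕ → ℝ) (N : ℕ) :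
    ∑ m ∈ Finset.range N, ∑ j ∈ Finset.range (m + 1), F (m - j) j =
      ∑ k ∈ Finset.range N, ∑ j ∈ Finset.range (N - k), F k j := by
  rw [Finset.sum_sigma', Finset.sum_sigma']
  apply Finset.sum_nbij' (fun p => ⟨p.1 - p.2, p.2⟩) (fun p => ⟨p.1 + p.2, p.2⟩)
  · rintro ⟨m, j⟩ h
    simp only [Finset.mem_sigma, Finset.mem_range] at h ⊢
    omega
  · rintro ⟨m, j⟩ h
    simp only [Finset.mem_sigma, Finset.mem_range] at h ⊢
    omega
  · rintro ⟨m, j⟩ h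
    simp only [Finset.mem_sigma, Finset.mem_range] at h ⊢
    congr 1
    omega
  · rintro ⟨m, j⟩ h
    simp only [Finset.mem_sigma, Finset.mem_range] at h ⊢
    congr 1
    omega
  · rintro ⟨m, j⟩ _
    rfl

/-- the partial sums of the transform of the difference are small -/
theorem partial_small {x ρ : ℝ} (hx0 : 0 ≤ x) (hx1 : x ≤ 1) (hρ0 : 0 ≤ ρ) (hρ1 : ρ < 1)
    {d : ℕ → ℝ} (hd : ∀ j, |d j| ≤ ρ ^ j)
    (hT : HasSum (fun j => cf x (j + 1) * d (j + 1)) 0) (J : ℕ) :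
    |∑ j ∈ Finset.range J, cf x (j + 1) * d (j + 1)| ≤ ρ ^ (J + 1) / (1 - ρ) := by
  have h1 := (hasSum_nat_add_iff' J).2 hT
  rw [zero_sub] at h1
  have h2 : ∀ j, ‖cf x (j + J + 1) * d (j + J + 1)‖ ≤ ρ ^ (J + 1) * ρ ^ j := by
    intro j
    rw [norm_mul, Real.norm_eq_abs, Real.norm_eq_abs, abs_of_nonneg (cf_nonneg hx1 _)]
    calc cf x (j + J + 1) * |d (j + J + 1)| ≤ 1 * ρ ^ (j + J + 1) :=
          mul_le_mul (cf_le_one hx0 hx1 (by omega)) (hd _) (abs_nonneg _) zero_le_one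
      _ = _ := by rw [one_mul, ← pow_add]; congr 1; omega
  have h3 : HasSum (fun j => ρ ^ (J + 1) * ρ ^ j) (ρ ^ (J + 1) * (1 - ρ)⁻¹) :=
    (hasSum_geometric_of_lt_one hρ0 hρ1).mul_left _
  have h4 := h1.norm_le_of_bounded h3 h2
  rw [norm_neg, Real.norm_eq_abs] at h4
  rw [div_eq_mul_inv]
  exact h4

/-- the derivative of the partial sums -/
theorem GGArray.deriv_small (H : GGArray P ζ) (hL : ∀ p ∈ L, p.1 ≤ 1 ∧ 0 ≤ p.2)
    (hLs : ∀ p ∈ L, p.1 ≤ s) (hs : s ≤ 1) {ρ : ℝ} (hρ0 : 0 ≤ ρ) (hρ1 : ρ < 1)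
    {h0 h1 : ℕ → ℝ → ℝ} (H0 : HF ρ h0) (H1 : HF ρ h1) {t : ℝ} (ht0 : 0 ≤ t) (ht1 : t ≤ 1)
    (hT : ∀ y, HasSum (fun j => cf (ζ.real (Iio s)) (j + 1) * (h1 (j + 1) y - h0 (j + 1) y)) 0)
    (N : ℕ) :
    |∑ m ∈ Finset.range N, (1 / ((m : ℝ) + 1)) * ∫ R, DQ L s (m + 1) h0 h1 t R ∂P| ≤
      N * (ρ ^ (N + 1) / (1 - ρ)) := by
  have := H.prob
  have := H.probζ
  have Hm := H0.mix H1 ht0 ht1
  set x := ζ.real (Iio s) with hx
  have hx0 : 0 ≤ x := measureReal_nonneg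
  have hx1 : x ≤ 1 := measureReal_le_one
  have hmeas : ∀ j, Measurable fun y => h1 (j + 1) y - h0 (j + 1) y := fun j =>
    (H1.meas _).sub (H0.meas _)
  have e1 : ∑ m ∈ Finset.range N, (1 / ((m : ℝ) + 1)) * ∫ R, DQ L s (m + 1) h0 h1 t R ∂P =
      ∑ m ∈ Finset.range N, ∑ j ∈ Finset.range (m + 1), cf x (j + 1) *
        VV P L s (hmix h0 h1 t) (m - j) 1 (fun y => h1 (j + 1) y - h0 (j + 1) y) := by
    apply Finset.sum_congr rfl
    intro m _
    rw [H.int_DQ hL hLs hs hρ0 hρ1.le H0 H1 ht0 ht1 m, ← mul_assoc, one_div,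
      inv_mul_cancel₀ (by positivity), one_mul]
    apply Finset.sum_congr rfl
    intro j hj
    rw [Finset.mem_range] at hj
    have h2 := H.VV_eq hs hL Hm.meas (hmeas j) (m - j) j
    rw [show m - j + j = m by omega] at h2
    rw [h2, ← hx]
    have h3 : ((j : ℝ) + 1) ≠ 0 := by positivity
    field_simp
  rw [e1, sum_tri (fun k j => cf x (j + 1) *
        VV P L s (hmix h0 h1 t) k 1 (fun y => h1 (j + 1) y - h0 (j + 1) y))]
  have e2 : ∀ k ∈ Finset.range N, |∑ j ∈ Finset.range (N - k), cf x (j + 1) *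
        VV P L s (hmix h0 h1 t) k 1 (fun y => h1 (j + 1) y - h0 (j + 1) y)| ≤
        ρ ^ (N + 1) / (1 - ρ) := by
    intro k hk
    rw [Finset.mem_range] at hk
    rw [← H.VV_sum hs hρ0 hρ1.le Hm (Finset.range (N - k)) (fun j => cf x (j + 1))
      (f := fun j y => h1 (j + 1) y - h0 (j + 1) y) hmeas
      (M := 1) (fun j y => (abs_diff_le H0 H1 _ y).trans (pow_le_one₀ hρ0 hρ1.le)) k 1]
    have h2 := H.abs_VV_le hs hρ0 Hm (L := L)
      (f := fun y => ∑ j ∈ Finset.range (N - k), cf x (j + 1) * (h1 (j + 1) y - h0 (j + 1) y))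
      (M := ρ ^ (N - k + 1) / (1 - ρ)) (fun y => partial_small hx0 hx1 hρ0 hρ1
        (d := fun j => h1 j y - h0 j y) (fun j => abs_diff_le H0 H1 j y) (hT y) (N - k)) k
    refine h2.trans (le_of_eq ?_)
    rw [div_mul_eq_mul_div, ← pow_add]
    congr 2
    omega
  calc _ ≤ ∑ k ∈ Finset.range N, |∑ j ∈ Finset.range (N - k), cf x (j + 1) *
        VV P L s (hmix h0 h1 t) k 1 (fun y => h1 (j + 1) y - h0 (j + 1) y)| :=
        Finset.abs_sum_le_sum_abs _ _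
    _ ≤ ∑ k ∈ Finset.range N, ρ ^ (N + 1) / (1 - ρ) := Finset.sum_le_sum e2
    _ = _ := by rw [Finset.sum_const, Finset.card_range, nsmul_eq_mul]

theorem HF.Pr_bound {ρ : ℝ} {hh : ℕ → ℝ → ℝ} (H : HF ρ hh) (hρ0 : 0 ≤ ρ) (hs : s ≤ 1)
    {R : ℕ → ℕ → ℝ} (hR : Good R) : 0 ≤ Pr L s n hh R ∧ Pr L s n hh R ≤ ρ ^ n := by
  unfold Pr
  have h1 : ∀ z : Fin n → ℝ,
      ∏ a : Fin n, (hh (bsz s n R a) (z a)) ^ ((1 : ℝ) / bsz s n R a) ≤ ρ ^ n := by
    intro z
    calc _ ≤ ∏ _a : Fin n, ρ := Finset.prod_le_prod (fun a _ => H.root_nonneg _ _)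
          (fun a _ => H.root_le hρ0 (hR.bsz_pos hs a) _)
      _ = ρ ^ n := by rw [Finset.prod_const, Finset.card_univ, Fintype.card_fin]
  have h2 : ∀ z : Fin n → ℝ,
      0 ≤ ∏ a : Fin n, (hh (bsz s n R a) (z a)) ^ ((1 : ℝ) / bsz s n R a) := fun z =>
    Finset.prod_nonneg fun a _ => H.root_nonneg _ _
  refine ⟨integral_nonneg h2, ?_⟩
  have h3 := norm_integral_le_of_norm_le_const (μ := gm (Km L 0 n R))
      (f := fun z : Fin n → ℝ =>
        ∏ a : Fin n, (hh (bsz s n R a) (z a)) ^ ((1 : ℝ) / bsz s n R a)) (C := ρ ^ n)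
      (Filter.Eventually.of_forall fun z => by
        rw [Real.norm_eq_abs, abs_of_nonneg (h2 z)]; exact h1 z)
  rw [probReal_univ, mul_one] at h3
  exact (Real.le_norm_self _).trans h3

/-- **Lemma S** -/
theorem GGArray.lemma_S (H : GGArray P ζ) (hL : ∀ p ∈ L, p.1 ≤ 1 ∧ 0 ≤ p.2)
    (hLs : ∀ p ∈ L, p.1 ≤ s) (hs : s ≤ 1) {ρ : ℝ} (hρ0 : 0 ≤ ρ) (hρ1 : ρ < 1)
    {h0 h1 : ℕ → ℝ → ℝ} (H0 : HF ρ h0) (H1 : HF ρ h1)
    (hT : ∀ y, HasSum (fun j => cf (ζ.real (Iio s)) (j + 1) * (h1 (j + 1) y - h0 (j + 1) y)) 0)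
    {v : ℝ} (hv : HasSum (fun m : ℕ => (1 / ((m : ℝ) + 1)) * ∫ R, Pr L s (m + 1) h0 R ∂P) v) :
    HasSum (fun m : ℕ => (1 / ((m : ℝ) + 1)) * ∫ R, Pr L s (m + 1) h1 R ∂P) v := by
  have := H.prob
  set S : ℕ → ℝ → ℝ := fun N t => ∑ m ∈ Finset.range N,
    (1 / ((m : ℝ) + 1)) * ∫ R, QQ L s (m + 1) h0 h1 t R ∂P with hS
  have hder : ∀ N t, HasDerivAt (S N) (∑ m ∈ Finset.range N,
      (1 / ((m : ℝ) + 1)) * ∫ R, DQ L s (m + 1) h0 h1 t R ∂P) t := by
    intro N t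
    exact HasDerivAt.fun_sum fun m _ => (hasDerivAt_int_QQ H0 H1 hρ0 hρ1.le t).const_mul _
  have hdiff : ∀ N, |S N 1 - S N 0| ≤ N * (ρ ^ (N + 1) / (1 - ρ)) := by
    intro N
    have h2 := norm_image_sub_le_of_norm_deriv_le_segment_01' (f := S N)
      (fun t _ => (hder N t).hasDerivWithinAt)
      (fun t ht => by
        rw [Real.norm_eq_abs]
        exact H.deriv_small hL hLs hs hρ0 hρ1 H0 H1 ht.1 ht.2.le hT N)
    exact h2
  have hone : hmix h0 h1 1 = h1 := by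
    funext b y; simp [hmix]
  have hzero : hmix h0 h1 0 = h0 := by
    funext b y; simp [hmix]
  have hPr1 : ∀ m : ℕ, ∫ R, QQ L s (m + 1) h0 h1 1 R ∂P = ∫ R, Pr L s (m + 1) h1 R ∂P := by
    intro m
    apply integral_congr_ae
    filter_upwards [H.good] with R hR
    have := QQ_eq_Pr (n := m + 1) hL hLs hs H0 H1 zero_le_one le_rfl hR
    rwa [hone] at this
  have hPr0 : ∀ m : ℕ, ∫ R, QQ L s (m + 1) h0 h1 0 R ∂P = ∫ R, Pr L s (m + 1) h0 R ∂P := by
    intro m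
    apply integral_congr_ae
    filter_upwards [H.good] with R hR
    have := QQ_eq_Pr (n := m + 1) hL hLs hs H0 H1 le_rfl zero_le_one hR
    rwa [hzero] at this
  -- summability
  have hbd : ∀ m : ℕ, ‖(1 / ((m : ℝ) + 1)) * ∫ R, Pr L s (m + 1) h1 R ∂P‖ ≤ ρ ^ m := by
    intro m
    rw [norm_mul]
    have h2 : ‖∫ R, Pr L s (m + 1) h1 R ∂P‖ ≤ ρ ^ m := by
      have h3 := norm_integral_le_of_norm_le_const (μ := P)
        (f := fun R => Pr L s (m + 1) h1 R) (C := ρ ^ (m + 1)) (by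
          filter_upwards [H.good] with R hR
          have h4 := H1.Pr_bound (L := L) (n := m + 1) hρ0 hs hR
          rw [Real.norm_eq_abs, abs_of_nonneg h4.1]
          exact h4.2)
      rw [probReal_univ, mul_one] at h3
      refine h3.trans ?_
      rw [pow_succ]
      have : 0 ≤ ρ ^ m := by positivity
      nlinarith
    have h5 : ‖(1 / ((m : ℝ) + 1))‖ ≤ 1 := by
      rw [Real.norm_eq_abs, abs_of_nonneg (by positivity), div_le_one (by positivity)]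
      have : (0 : ℝ) ≤ m := Nat.cast_nonneg m
      linarith
    calc _ ≤ 1 * ρ ^ m := mul_le_mul h5 h2 (norm_nonneg _) zero_le_one
      _ = _ := one_mul _
  have hsum : Summable (fun m : ℕ => (1 / ((m : ℝ) + 1)) * ∫ R, Pr L s (m + 1) h1 R ∂P) :=
    Summable.of_norm_bounded (summable_geometric_of_lt_one hρ0 hρ1) hbd
  have ht1 : Filter.Tendsto (fun N => S N 1) Filter.atTop
      (nhds (∑' m : ℕ, (1 / ((m : ℝ) + 1)) * ∫ R, Pr L s (m + 1) h1 R ∂P)) := by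
    have h2 := hsum.hasSum.tendsto_sum_nat
    simp only [hS, hPr1]
    exact h2
  have ht0 : Filter.Tendsto (fun N => S N 0) Filter.atTop (nhds v) := by
    have h2 := hv.tendsto_sum_nat
    simp only [hS, hPr0]
    exact h2
  have hlim : Filter.Tendsto (fun N : ℕ => (N : ℝ) * (ρ ^ (N + 1) / (1 - ρ))) Filter.atTop
      (nhds 0) := by
    have h2 := tendsto_self_mul_const_pow_of_lt_one hρ0 hρ1
    have h3 := h2.mul_const (ρ / (1 - ρ))
    rw [zero_mul] at h3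
    refine h3.congr fun N => ?_
    rw [pow_succ]
    ring
  have hd0 : Filter.Tendsto (fun N => S N 1 - S N 0) Filter.atTop (nhds 0) :=
    squeeze_zero_norm (fun N => by rw [Real.norm_eq_abs]; exact hdiff N) hlim
  have hd1 := ht1.sub ht0
  have h2 := tendsto_nhds_unique hd1 hd0
  have h3 : ∑' m : ℕ, (1 / ((m : ℝ) + 1)) * ∫ R, Pr L s (m + 1) h1 R ∂P = v := by linarith
  rw [← h3]
  exact hsum.hasSum

end Pool.Agent.LibOS96
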