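import Pool.Agent.LibOS96.Recur

/-!
# Interpolation between two families of block weights
-/

open MeasureTheory ProbabilityTheory Set
open Pool.Agent.OS

namespace Pool.Agent.LibOS96

variable {P : Measure (ℕ → ℕ → ℝ)} {ζ : Measure ℝ} {s : ℝ} {L : List (ℝ × ℝ)} {n : ℕ}

/-- the mixture of two families -/
noncomputable def hmix (h0 h1 : ℕ → ℝ → ℝ) (t : ℝ) (b : ℕ) (y : ℝ) : ℝ :=
  (1 - t) * h0 b y + t * h1 b y

theorem HF.mix {ρ : ℝ} {h0 h1 : ℕ → ℝ → ℝ} (H0 : HF ρ h0) (H1 : HF ρ h1) {t : ℝ} (ht0 : 0 ≤ t)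
    (ht1 : t ≤ 1) : HF ρ (hmix h0 h1 t) where
  meas b := ((H0.meas b).const_mul _).add ((H1.meas b).const_mul _)
  nonneg b y := add_nonneg (mul_nonneg (by linarith) (H0.nonneg b y))
    (mul_nonneg ht0 (H1.nonneg b y))
  le b y := by
    unfold hmix
    have h2 := H0.le b y
    have h3 := H1.le b y
    have h4 : 0 ≤ 1 - t := by linarith
    nlinarith
  zero y := by
    unfold hmix
    rw [H0.zero, H1.zero]; ring

/-- number of replicas represented by `l` -/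
noncomputable def mm (s : ℝ) (n : ℕ) (R : ℕ → ℕ → ℝ) (l : Fin n) : ℕ :=
  (Finset.univ.filter fun a => repf s n R a = l).card

/-- product form -/
noncomputable def QQ (L : List (ℝ × ℝ)) (s : ℝ) (n : ℕ) (h0 h1 : ℕ → ℝ → ℝ) (t : ℝ)
    (R : ℕ → ℕ → ℝ) : ℝ :=
  ∫ z, ∏ l : Fin n, hmix h0 h1 t (mm s n R l) (z l) ∂(gm (Km L 0 n R))

/-- its derivative in `t` -/
noncomputable def DQ (L : List (ℝ × ℝ)) (s : ℝ) (n : ℕ) (h0 h1 : ℕ → ℝ → ℝ) (t : ℝ)
    (R : ℕ → ℕ → ℝ) : ℝ :=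
  ∫ z, ∑ l : Fin n, (∏ j ∈ Finset.univ.erase l, hmix h0 h1 t (mm s n R j) (z j)) *
    (h1 (mm s n R l) (z l) - h0 (mm s n R l) (z l)) ∂(gm (Km L 0 n R))

theorem blk_congr {R R' : ℕ → ℕ → ℝ} (h : ∀ i < n, ∀ j < n, (s ≤ R i j ↔ s ≤ R' i j))
    (a : Fin n) : blk s n R a = blk s n R' a := by
  unfold blk
  ext b
  simp only [Finset.mem_filter, Finset.mem_univ, true_and]
  exact h a a.isLt b b.isLt

theorem mm_congr {R R' : ℕ → ℕ → ℝ} (h : ∀ i < n, ∀ j < n, (s ≤ R i j ↔ s ≤ R' i j)) :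
    mm s n R = mm s n R' := by
  have h1 : repf s n R = repf s n R' := by
    funext a
    unfold repf
    have h2 := blk_congr h a
    by_cases h3 : (blk s n R a).Nonempty
    · rw [dif_pos h3, dif_pos (h2 ▸ h3)]
      congr 1
    · rw [dif_neg h3, dif_neg (h2 ▸ h3)]
  unfold mm
  rw [h1]

theorem patDep_QQ (h0 h1 : ℕ → ℝ → ℝ) (t : ℝ) :
    PatDep n (s :: L.map Prod.fst) (QQ L s n h0 h1 t) := by
  intro R R' h
  have e1 : ∀ i < n, ∀ j < n, (s ≤ R i j ↔ s ≤ R' i j) := fun i hi j hj =>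
    h i hi j hj s (by simp)
  have e2 : Km L 0 n R = Km L 0 n R' := Km_congr (fun i hi j hj t ht =>
    h i hi j hj t (List.mem_cons_of_mem _ ht)) 0
  unfold QQ
  rw [e2, mm_congr e1]

theorem patDep_DQ (h0 h1 : ℕ → ℝ → ℝ) (t : ℝ) :
    PatDep n (s :: L.map Prod.fst) (DQ L s n h0 h1 t) := by
  intro R R' h
  have e1 : ∀ i < n, ∀ j < n, (s ≤ R i j ↔ s ≤ R' i j) := fun i hi j hj =>
    h i hi j hj s (by simp)
  have e2 : Km L 0 n R = Km L 0 n R' := Km_congr (fun i hi j hj t ht =>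
    h i hi j hj t (List.mem_cons_of_mem _ ht)) 0
  unfold DQ
  rw [e2, mm_congr e1]

theorem HF.le_one {ρ : ℝ} {h : ℕ → ℝ → ℝ} (H : HF ρ h) (h0 : 0 ≤ ρ) (h1 : ρ ≤ 1) (b : ℕ) (y : ℝ) :
    h b y ≤ 1 := (H.le b y).trans (pow_le_one₀ h0 h1)

theorem abs_hmix_le {ρ : ℝ} {h0 h1 : ℕ → ℝ → ℝ} (H0 : HF ρ h0) (H1 : HF ρ h1) (hρ0 : 0 ≤ ρ)
    (hρ1 : ρ ≤ 1) {t t₀ : ℝ} (ht : |t - t₀| ≤ 1) (b : ℕ) (y : ℝ) :
    |hmix h0 h1 t b y| ≤ 3 + 2 * |t₀| := by
  have a1 : |t| ≤ |t₀| + 1 := by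
    have := abs_add_le (t - t₀) t₀
    rw [sub_add_cancel] at this
    linarith
  have a2 : |1 - t| ≤ 1 + |t| := by
    have := abs_sub (1 : ℝ) t
    rwa [abs_one] at this
  have b0 : |h0 b y| ≤ 1 := by
    rw [abs_of_nonneg (H0.nonneg b y)]; exact H0.le_one hρ0 hρ1 b y
  have b1 : |h1 b y| ≤ 1 := by
    rw [abs_of_nonneg (H1.nonneg b y)]; exact H1.le_one hρ0 hρ1 b y
  unfold hmix
  calc |(1 - t) * h0 b y + t * h1 b y| ≤ |(1 - t) * h0 b y| + |t * h1 b y| := abs_add_le _ _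
    _ = |1 - t| * |h0 b y| + |t| * |h1 b y| := by rw [abs_mul, abs_mul]
    _ ≤ |1 - t| * 1 + |t| * 1 := by gcongr
    _ ≤ 3 + 2 * |t₀| := by linarith

theorem abs_diff_le {ρ : ℝ} {h0 h1 : ℕ → ℝ → ℝ} (H0 : HF ρ h0) (H1 : HF ρ h1)
    (b : ℕ) (y : ℝ) : |h1 b y - h0 b y| ≤ ρ ^ b := by
  rw [abs_le]
  have a1 := H0.le b y
  have a2 := H1.le b y
  have a3 := H0.nonneg b y
  have a4 := H1.nonneg b y
  constructor <;> linarith

theorem DQ_bound {ρ : ℝ} {h0 h1 : ℕ → ℝ → ℝ} (H0 : HF ρ h0) (H1 : HF ρ h1) (hρ0 : 0 ≤ ρ)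
    (hρ1 : ρ ≤ 1) {t t₀ : ℝ} (ht : |t - t₀| ≤ 1) (R : ℕ → ℕ → ℝ) (z : Fin n → ℝ) :
    ‖∑ l : Fin n, (∏ j ∈ Finset.univ.erase l, hmix h0 h1 t (mm s n R j) (z j)) *
      (h1 (mm s n R l) (z l) - h0 (mm s n R l) (z l))‖ ≤ n * (3 + 2 * |t₀|) ^ n := by
  have hB : 1 ≤ 3 + 2 * |t₀| := by have := abs_nonneg t₀; linarith
  refine (norm_sum_le _ _).trans ?_
  calc _ ≤ ∑ _l : Fin n, (3 + 2 * |t₀|) ^ n := by
        apply Finset.sum_le_sum
        intro l _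
        rw [norm_mul, Real.norm_eq_abs, Real.norm_eq_abs, Finset.abs_prod]
        calc _ ≤ (∏ j ∈ Finset.univ.erase l, (3 + 2 * |t₀|)) * 1 := by
              apply mul_le_mul
              · exact Finset.prod_le_prod (fun j _ => abs_nonneg _)
                  (fun j _ => abs_hmix_le H0 H1 hρ0 hρ1 ht _ _)
              · exact (abs_diff_le H0 H1 _ _).trans (pow_le_one₀ hρ0 hρ1)
              · exact abs_nonneg _
              · exact Finset.prod_nonneg fun j _ => by linarith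
          _ ≤ (3 + 2 * |t₀|) ^ n := by
              rw [mul_one, Finset.prod_const]
              apply pow_le_pow_right₀ hB
              calc _ ≤ (Finset.univ : Finset (Fin n)).card :=
                    Finset.card_le_card (Finset.erase_subset _ _)
                _ = n := by rw [Finset.card_univ, Fintype.card_fin]
    _ = _ := by rw [Finset.sum_const, Finset.card_univ, Fintype.card_fin, nsmul_eq_mul]

theorem measurable_prod_mix {h0 h1 : ℕ → ℝ → ℝ} (m0 : ∀ b, Measurable (h0 b))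
    (m1 : ∀ b, Measurable (h1 b)) (S : Finset (Fin n)) (t : ℝ) (R : ℕ → ℕ → ℝ) :
    Measurable fun z : Fin n → ℝ => ∏ l ∈ S, hmix h0 h1 t (mm s n R l) (z l) := by
  apply Finset.measurable_prod
  intro l _
  unfold hmix
  exact (((m0 _).comp (measurable_pi_apply _)).const_mul _).add
    (((m1 _).comp (measurable_pi_apply _)).const_mul _)

theorem measurable_DQ_int {h0 h1 : ℕ → ℝ → ℝ} (m0 : ∀ b, Measurable (h0 b))
    (m1 : ∀ b, Measurable (h1 b)) (t : ℝ) (R : ℕ → ℕ → ℝ) :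
    Measurable fun z : Fin n → ℝ => ∑ l : Fin n,
      (∏ j ∈ Finset.univ.erase l, hmix h0 h1 t (mm s n R j) (z j)) *
      (h1 (mm s n R l) (z l) - h0 (mm s n R l) (z l)) := by
  apply Finset.measurable_sum
  intro l _
  exact (measurable_prod_mix m0 m1 _ t R).mul (((m1 _).comp (measurable_pi_apply _)).sub
    ((m0 _).comp (measurable_pi_apply _)))

theorem QQ_norm_le {ρ : ℝ} {h0 h1 : ℕ → ℝ → ℝ} (H0 : HF ρ h0) (H1 : HF ρ h1) (hρ0 : 0 ≤ ρ)
    (hρ1 : ρ ≤ 1) (t : ℝ) (R : ℕ → ℕ → ℝ) (z : Fin n → ℝ) :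
    ‖∏ l : Fin n, hmix h0 h1 t (mm s n R l) (z l)‖ ≤ (3 + 2 * |t|) ^ n := by
  rw [Real.norm_eq_abs, Finset.abs_prod]
  calc _ ≤ ∏ _l : Fin n, (3 + 2 * |t|) := Finset.prod_le_prod (fun j _ => abs_nonneg _)
        (fun j _ => abs_hmix_le H0 H1 hρ0 hρ1 (by simp) _ _)
    _ = _ := by rw [Finset.prod_const, Finset.card_univ, Fintype.card_fin]

theorem hasDerivAt_QQ {ρ : ℝ} {h0 h1 : ℕ → ℝ → ℝ} (H0 : HF ρ h0) (H1 : HF ρ h1) (hρ0 : 0 ≤ ρ)
    (hρ1 : ρ ≤ 1) (R : ℕ → ℕ → ℝ) (t₀ : ℝ) :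
    HasDerivAt (fun t => QQ L s n h0 h1 t R) (DQ L s n h0 h1 t₀ R) t₀ := by
  unfold QQ DQ
  refine (hasDerivAt_integral_of_dominated_loc_of_deriv_le
    (F := fun t (z : Fin n → ℝ) => ∏ l : Fin n, hmix h0 h1 t (mm s n R l) (z l))
    (F' := fun t (z : Fin n → ℝ) => ∑ l : Fin n,
      (∏ j ∈ Finset.univ.erase l, hmix h0 h1 t (mm s n R j) (z j)) *
      (h1 (mm s n R l) (z l) - h0 (mm s n R l) (z l)))
    (bound := fun _ => n * (3 + 2 * |t₀|) ^ n) (Metric.ball_mem_nhds t₀ one_pos)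
    ?_ ?_ ?_ ?_ ?_ ?_).2
  · exact Filter.Eventually.of_forall fun t =>
      (measurable_prod_mix H0.meas H1.meas _ t R).aestronglyMeasurable
  · exact Integrable.of_bound (measurable_prod_mix H0.meas H1.meas _ t₀ R).aestronglyMeasurable _
      (Filter.Eventually.of_forall fun z => QQ_norm_le H0 H1 hρ0 hρ1 t₀ R z)
  · exact (measurable_DQ_int H0.meas H1.meas t₀ R).aestronglyMeasurable
  · refine Filter.Eventually.of_forall fun z t ht => ?_
    rw [Metric.mem_ball, Real.dist_eq] at ht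
    exact DQ_bound H0 H1 hρ0 hρ1 ht.le R z
  · exact integrable_const _
  · refine Filter.Eventually.of_forall fun z t _ => ?_
    have h2 : ∀ l ∈ (Finset.univ : Finset (Fin n)),
        HasDerivAt (fun t => hmix h0 h1 t (mm s n R l) (z l))
          (h1 (mm s n R l) (z l) - h0 (mm s n R l) (z l)) t := by
      intro l _
      unfold hmix
      have h3 : HasDerivAt (fun t : ℝ => (1 - t) * h0 (mm s n R l) (z l) +
          t * h1 (mm s n R l) (z l)) ((0 - 1) * h0 (mm s n R l) (z l) +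
          1 * h1 (mm s n R l) (z l)) t :=
        (((hasDerivAt_const t (1 : ℝ)).sub (hasDerivAt_id t)).mul_const _).add
          ((hasDerivAt_id t).mul_const _)
      convert! h3 using 1
      ring
    have h4 := HasDerivAt.fun_finsetProd h2
    simpa only [smul_eq_mul] using h4

theorem hasDerivAt_int_QQ [IsProbabilityMeasure P] {ρ : ℝ} {h0 h1 : ℕ → ℝ → ℝ} (H0 : HF ρ h0)
    (H1 : HF ρ h1) (hρ0 : 0 ≤ ρ) (hρ1 : ρ ≤ 1) (t₀ : ℝ) :
    HasDerivAt (fun t => ∫ R, QQ L s n h0 h1 t R ∂P) (∫ R, DQ L s n h0 h1 t₀ R ∂P) t₀ := by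
  refine (hasDerivAt_integral_of_dominated_loc_of_deriv_le
    (F := fun t (R : ℕ → ℕ → ℝ) => QQ L s n h0 h1 t R)
    (F' := fun t (R : ℕ → ℕ → ℝ) => DQ L s n h0 h1 t R)
    (bound := fun _ => n * (3 + 2 * |t₀|) ^ n) (Metric.ball_mem_nhds t₀ one_pos)
    ?_ ?_ ?_ ?_ ?_ ?_).2
  · exact Filter.Eventually.of_forall fun t =>
      (patDep_QQ h0 h1 t).measurable.aestronglyMeasurable
  · exact (patDep_QQ h0 h1 t₀).integrable
  · exact (patDep_DQ h0 h1 t₀).measurable.aestronglyMeasurable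
  · refine Filter.Eventually.of_forall fun R t ht => ?_
    rw [Metric.mem_ball, Real.dist_eq] at ht
    unfold DQ
    have h := norm_integral_le_of_norm_le_const (μ := gm (Km L 0 n R))
      (f := fun z : Fin n → ℝ => ∑ l : Fin n,
      (∏ j ∈ Finset.univ.erase l, hmix h0 h1 t (mm s n R j) (z j)) *
      (h1 (mm s n R l) (z l) - h0 (mm s n R l) (z l))) (C := n * (3 + 2 * |t₀|) ^ n)
      (Filter.Eventually.of_forall fun z => DQ_bound H0 H1 hρ0 hρ1 ht.le R z)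
    rw [probReal_univ, mul_one] at h
    exact h
  · exact integrable_const _
  · exact Filter.Eventually.of_forall fun R t _ => hasDerivAt_QQ H0 H1 hρ0 hρ1 R t

/-- the product form and the root form agree -/
theorem QQ_eq_Pr (hL : ∀ p ∈ L, p.1 ≤ 1 ∧ 0 ≤ p.2) (hLs : ∀ p ∈ L, p.1 ≤ s) (hs : s ≤ 1)
    {ρ : ℝ} {h0 h1 : ℕ → ℝ → ℝ} (H0 : HF ρ h0) (H1 : HF ρ h1) {t : ℝ} (ht0 : 0 ≤ t) (ht1 : t ≤ 1)
    {R : ℕ → ℕ → ℝ} (hR : Good R) : QQ L s n h0 h1 t R = Pr L s n (hmix h0 h1 t) R := by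
  unfold QQ Pr
  apply integral_congr_ae
  filter_upwards [gm_const_block (Km_psd L hL 0 le_rfl hR n) (hR.rep_rep hs)
    (Km_submatrix L hLs hR hs)] with z hz
  have Hm := H0.mix H1 ht0 ht1
  exact (hR.prod_root hs Hm.zero Hm.nonneg hz).symm

theorem DQ_eq_Th (hL : ∀ p ∈ L, p.1 ≤ 1 ∧ 0 ≤ p.2) (hLs : ∀ p ∈ L, p.1 ≤ s) (hs : s ≤ 1)
    {ρ : ℝ} (hρ0 : 0 ≤ ρ) (hρ1 : ρ ≤ 1) {h0 h1 : ℕ → ℝ → ℝ} (H0 : HF ρ h0) (H1 : HF ρ h1)
    {t : ℝ} (ht0 : 0 ≤ t) (ht1 : t ≤ 1) {R : ℕ → ℕ → ℝ} (hR : Good R) :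
    DQ L s n h0 h1 t R = ∑ a : Fin n, (1 / (bsz s n R a : ℝ)) *
      Th L s n (hmix h0 h1 t) (fun y => h1 (bsz s n R a) y - h0 (bsz s n R a) y) a R := by
  have Hm := H0.mix H1 ht0 ht1
  unfold DQ Th
  simp_rw [← integral_const_mul]
  rw [← integral_finsetSum]
  · apply integral_congr_ae
    filter_upwards [gm_const_block (Km_psd L hL 0 le_rfl hR n) (hR.rep_rep hs)
      (Km_submatrix L hLs hR hs)] with z hz
    rw [← Finset.sum_fiberwise Finset.univ (repf s n R) (fun a : Fin n =>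
      1 / (bsz s n R a : ℝ) * ((h1 (bsz s n R a) (z a) - h0 (bsz s n R a) (z a)) *
      ∏ x : Fin n, if s ≤ R a x then 1 else
        (hmix h0 h1 t (bsz s n R x) (z x)) ^ ((1 : ℝ) / (bsz s n R x))))]
    apply Finset.sum_congr rfl
    intro l _
    rcases (Finset.univ.filter fun a => repf s n R a = l).eq_empty_or_nonempty with he | hne
    · rw [he, Finset.sum_empty]
      have : mm s n R l = 0 := by unfold mm; rw [he, Finset.card_empty]
      rw [this, H0.zero, H1.zero]; ring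
    · have h2 : ∀ a ∈ Finset.univ.filter fun a => repf s n R a = l,
          1 / (bsz s n R a : ℝ) * ((h1 (bsz s n R a) (z a) - h0 (bsz s n R a) (z a)) *
          ∏ x : Fin n, if s ≤ R a x then 1 else
            (hmix h0 h1 t (bsz s n R x) (z x)) ^ ((1 : ℝ) / (bsz s n R x))) =
          1 / (mm s n R l : ℝ) * ((∏ j ∈ Finset.univ.erase l, hmix h0 h1 t (mm s n R j) (z j)) *
            (h1 (mm s n R l) (z l) - h0 (mm s n R l) (z l))) := by
        intro a ha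
        rw [Finset.mem_filter] at ha
        have h3 := hR.card_fiber hs a
        rw [ha.2] at h3
        rw [hR.prod_root0 hs Hm.zero Hm.nonneg hz a, ha.2]
        have h4 : mm s n R l = bsz s n R a := h3
        rw [← h4, hz a, ha.2]
        unfold mm
        ring
      rw [Finset.sum_congr rfl h2, Finset.sum_const, nsmul_eq_mul]
      have h5 : (mm s n R l : ℝ) ≠ 0 := Nat.cast_ne_zero.2 (Finset.card_pos.2 hne).ne'
      have h6 : ((Finset.univ.filter fun a => repf s n R a = l).card : ℝ) = mm s n R l := rfl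
      rw [h6]
      field_simp
  · intro a _
    exact (Hm.integrable hρ0 hρ1 hR hs ((H1.meas _).sub (H0.meas _))
      (fun y => (abs_diff_le H0 H1 _ y).trans (pow_le_one₀ hρ0 hρ1)) a _).const_mul _

end Pool.Agent.LibOS96
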