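import Pool.Agent.LibOS96.Ultra

/-!
# Functions of the threshold pattern of an array
-/

open MeasureTheory Set

namespace Pool.Agent.LibOS96

variable {P : Measure (ℕ → ℕ → ℝ)} {ζ : Measure ℝ}

/-- a permutation moving the first `k` replicas to prescribed places preserves the law -/
theorem GGArray.exch_inj (H : GGArray P ζ) (s : ℕ → ℕ) (k : ℕ)
    (hs : ∀ i < k, ∀ j < k, s i = s j → i = j) :
    ∃ σ : Equiv.Perm ℕ, P.map (rel σ) = P ∧ ∀ i < k, σ i = s i := by
  induction k with
  | zero =>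
    refine ⟨Equiv.swap 0 0, H.exch 0 0, fun i hi => absurd hi (Nat.not_lt_zero i)⟩
  | succ k ih =>
    obtain ⟨σ, hσ, hσs⟩ := ih (fun i hi j hj => hs i (by omega) j (by omega))
    refine ⟨σ * Equiv.swap k (σ.symm (s k)), ?_, ?_⟩
    · rw [rel_mul, ← Measure.map_map (measurable_rel _) (measurable_rel _), hσ, H.exch]
    · intro i hi
      rw [Equiv.Perm.mul_apply]
      rcases Nat.lt_succ_iff_lt_or_eq.1 hi with h | h
      · have h1 : i ≠ σ.symm (s k) := by
          intro h2
          have h3 := congrArg σ h2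
          rw [Equiv.apply_symm_apply, hσs i h] at h3
          have := hs i (by omega) k (by omega) h3
          omega
        rw [Equiv.swap_apply_of_ne_of_ne (by omega) h1, hσs i h]
      · rw [h, Equiv.swap_apply_left, Equiv.apply_symm_apply]

/-- `Θ` is determined by the relations `s ≤ R i j` for `i, j < n` and `s ∈ L` -/
def PatDep {β : Type} (n : ℕ) (L : List ℝ) (Θ : (ℕ → ℕ → ℝ) → β) : Prop :=
  ∀ R R' : ℕ → ℕ → ℝ, (∀ i < n, ∀ j < n, ∀ s ∈ L, (s ≤ R i j ↔ s ≤ R' i j)) → Θ R = Θ R'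

/-- the threshold pattern -/
noncomputable def pat (n : ℕ) (L : List ℝ) (R : ℕ → ℕ → ℝ) : Fin n → Fin n → Fin L.length → Bool :=
  fun i j m => decide (L.get m ≤ R i j)

theorem measurable_pat (n : ℕ) (L : List ℝ) : Measurable (pat n L) := by
  apply measurable_pi_lambda
  intro i
  apply measurable_pi_lambda
  intro j
  apply measurable_pi_lambda
  intro m
  apply measurable_to_bool
  have : (fun R => pat n L R i j m) ⁻¹' {true} = {R : ℕ → ℕ → ℝ | R i j ∈ Ici (L.get m)} := by
    ext R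
    simp [pat]
  rw [this]
  exact meas_entry measurableSet_Ici

theorem PatDep.eq_of_pat {β : Type} {n : ℕ} {L : List ℝ} {Θ : (ℕ → ℕ → ℝ) → β}
    (h : PatDep n L Θ) {R R' : ℕ → ℕ → ℝ} (he : pat n L R = pat n L R') : Θ R = Θ R' := by
  apply h
  intro i hi j hj s hs
  obtain ⟨m, hm⟩ := List.get_of_mem hs
  have h1 := congrFun (congrFun (congrFun he ⟨i, hi⟩) ⟨j, hj⟩) m
  unfold pat at h1
  rw [hm] at h1
  simpa using h1

/-- factorisation through the pattern -/
theorem PatDep.factor {β : Type} [Nonempty β] {n : ℕ} {L : List ℝ} {Θ : (ℕ → ℕ → ℝ) → β}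
    (h : PatDep n L Θ) :
    ∃ G : (Fin n → Fin n → Fin L.length → Bool) → β, Θ = G ∘ pat n L := by
  have h1 : Θ.FactorsThrough (pat n L) := fun R R' he => h.eq_of_pat he
  exact ⟨_, (h1.extend_comp (e' := fun _ => Classical.arbitrary β)).symm⟩

theorem PatDep.measurable {n : ℕ} {L : List ℝ} {Θ : (ℕ → ℕ → ℝ) → ℝ} (h : PatDep n L Θ) :
    Measurable Θ := by
  obtain ⟨G, rfl⟩ := h.factor
  exact (measurable_of_countable G).comp (measurable_pat n L)

theorem PatDep.bdd {n : ℕ} {L : List ℝ} {Θ : (ℕ → ℕ → ℝ) → ℝ} (h : PatDep n L Θ) :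
    ∃ B, ∀ R, |Θ R| ≤ B := by
  obtain ⟨G, rfl⟩ := h.factor
  refine ⟨∑ ω, |G ω|, fun R => ?_⟩
  exact Finset.single_le_sum (f := fun ω => |G ω|) (fun ω _ => abs_nonneg _)
    (Finset.mem_univ (pat n L R))

theorem PatDep.integrable {n : ℕ} {L : List ℝ} {Θ : (ℕ → ℕ → ℝ) → ℝ} (h : PatDep n L Θ)
    [IsFiniteMeasure P] : Integrable Θ P := by
  obtain ⟨B, hB⟩ := h.bdd
  exact Integrable.of_bound h.measurable.aestronglyMeasurable B
    (Filter.Eventually.of_forall fun R => hB R)

/-- the identities for functions of the pattern -/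
theorem GGArray.gg_fun (H : GGArray P ζ) {n k : ℕ} (hk : k < n) {L : List ℝ}
    {Θ : (ℕ → ℕ → ℝ) → ℝ} (h : PatDep n L Θ) {B : Set ℝ} (hB : MeasurableSet B) :
    ∫ R in {R | R k n ∈ B}, Θ R ∂P = ((∫ R, Θ R ∂P) * ζ.real B +
      ∑ l ∈ (Finset.range n).erase k, ∫ R in {R | R k l ∈ B}, Θ R ∂P) / n := by
  have := H.prob
  obtain ⟨G, hG⟩ := h.factor
  set E : (Fin n → Fin n → Fin L.length → Bool) → Set (ℕ → ℕ → ℝ) := fun ω => pat n L ⁻¹' {ω}
    with hE
  have hEm : ∀ ω, MeasurableSet (E ω) := fun ω => measurable_pat n L (measurableSet_singleton ω)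
  have hEd : ∀ ω, DepOn n (E ω) := by
    intro ω R R' hR hRE
    change pat n L R' = ω
    rw [← (show pat n L R = ω from hRE)]
    funext i j m
    unfold pat
    rw [hR i i.isLt j j.isLt]
  have hdec : ∀ R, Θ R = ∑ ω, G ω * (E ω).indicator (fun _ => (1 : ℝ)) R := by
    intro R
    rw [Finset.sum_eq_single (pat n L R)]
    · rw [indicator_of_mem (show R ∈ E (pat n L R) from rfl), mul_one, hG]; rfl
    · intro ω _ hω
      have hne : R ∉ E ω := fun h => hω (show pat n L R = ω from h).symm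
      rw [indicator_of_notMem hne, mul_zero]
    · intro h; exact absurd (Finset.mem_univ _) h
  have hint : ∀ S : Set (ℕ → ℕ → ℝ), MeasurableSet S →
      ∫ R in S, Θ R ∂P = ∑ ω, G ω * P.real (E ω ∩ S) := by
    intro S hS
    have h1 : ∀ ω, Integrable (fun R => G ω * (E ω).indicator (fun _ => (1 : ℝ)) R)
        (P.restrict S) := fun ω =>
      (((integrable_const (1 : ℝ)).indicator (hEm ω)).const_mul (G ω))
    simp_rw [hdec]
    rw [integral_finsetSum _ (fun ω _ => h1 ω)]
    apply Finset.sum_congr rfl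
    intro ω _
    rw [integral_const_mul, integral_indicator_const _ (hEm ω), smul_eq_mul, mul_one,
      measureReal_restrict_apply (hEm ω)]
  have hint0 : ∫ R, Θ R ∂P = ∑ ω, G ω * P.real (E ω) := by
    have := hint univ MeasurableSet.univ
    rw [Measure.restrict_univ] at this
    rw [this]
    simp only [inter_univ]
  rw [hint _ (meas_entry hB), hint0]
  simp_rw [fun l => hint _ (meas_entry (i := k) (j := l) hB)]
  simp_rw [fun ω => H.ggk hk (hEm ω) (hEd ω) hB]
  rw [Finset.sum_comm, Finset.sum_mul, ← Finset.sum_add_distrib, Finset.sum_div]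
  apply Finset.sum_congr rfl
  intro ω _
  rw [← Finset.mul_sum]
  ring

end Pool.Agent.LibOS96
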