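import Mathlib

/-!
# The binomial series in the form used for the chain of thresholds
-/

open Real Finset

namespace Pool.Agent.LibOS96

/-- `(1 - x)(2 - x)...(j - 1 - x) / j!` -/
noncomputable def cf (x : ℝ) (j : ℕ) : ℝ :=
  (∏ i ∈ range (j - 1), ((i : ℝ) + 1 - x)) / (j.factorial : ℝ)

theorem cf_nonneg {x : ℝ} (hx : x ≤ 1) (j : ℕ) : 0 ≤ cf x j := by
  unfold cf
  apply div_nonneg _ (by positivity)
  apply prod_nonneg
  intro i _
  have : (0 : ℝ) ≤ i := Nat.cast_nonneg i
  linarith

theorem cf_one (x : ℝ) : cf x 1 = 1 := by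
  simp [cf]

theorem cf_succ (x : ℝ) {j : ℕ} (hj : 1 ≤ j) : ((j : ℝ) + 1) * cf x (j + 1) = (j - x) * cf x j := by
  obtain ⟨k, rfl⟩ := Nat.exists_eq_add_of_le' hj
  unfold cf
  simp only [Nat.add_sub_cancel, prod_range_succ]
  have h1 : ((k + 1 + 1).factorial : ℝ) = ((k : ℝ) + 1 + 1) * (k + 1).factorial := by
    rw [Nat.factorial_succ]; push_cast; ring
  rw [h1]
  have h2 : ((k + 1).factorial : ℝ) ≠ 0 := by positivity
  have h3 : (k : ℝ) + 1 + 1 ≠ 0 := by positivity
  push_cast
  field_simp

theorem cf_le {x : ℝ} (hx0 : 0 ≤ x) (hx : x ≤ 1) {j : ℕ} (hj : 1 ≤ j) : cf x j ≤ 1 / j := by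
  induction j, hj using Nat.le_induction with
  | base => simp [cf_one]
  | succ j hj ih =>
    have h1 := cf_succ x hj
    have hj0 : (0 : ℝ) < j := by exact_mod_cast hj
    rw [le_div_iff₀ (by positivity)]
    push_cast
    rw [mul_comm, h1]
    calc (j - x) * cf x j ≤ j * cf x j := by
          apply mul_le_mul_of_nonneg_right _ (cf_nonneg hx j)
          linarith
      _ ≤ j * (1 / j) := mul_le_mul_of_nonneg_left ih hj0.le
      _ = 1 := by field_simp

theorem cf_le_one {x : ℝ} (hx0 : 0 ≤ x) (hx : x ≤ 1) {j : ℕ} (hj : 1 ≤ j) : cf x j ≤ 1 := by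
  refine (cf_le hx0 hx hj).trans ?_
  have : (1 : ℝ) ≤ j := by exact_mod_cast hj
  rw [div_le_one (by linarith)]
  exact this

theorem choose_eq_prod (a : ℝ) (n : ℕ) :
    Ring.choose a n = (∏ i ∈ range n, (a - i)) / (n.factorial : ℝ) := by
  rw [Ring.choose_eq_smul]
  have h : ∀ n : ℕ, (descPochhammer ℤ n).smeval a = ∏ i ∈ range n, (a - i) := by
    intro n
    induction n with
    | zero => simp
    | succ n ih =>
      rw [descPochhammer_succ_right, Polynomial.smeval_mul, ih, prod_range_succ]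
      simp [Polynomial.smeval_sub, Polynomial.smeval_X, Polynomial.smeval_natCast]
  rw [h, smul_eq_mul, div_eq_inv_mul]

theorem prod_const_one_mul_aux (j : ℕ) : ∏ _i ∈ range j, (-1 : ℝ) = (-1) ^ j := by
  rw [prod_const, card_range]

/-- the transform of the powers -/
noncomputable def Sx (x y : ℝ) : ℝ := if x = 0 then - log (1 - y) else (1 - (1 - y) ^ x) / x

theorem hasSum_cf {x y : ℝ} (hy0 : 0 ≤ y) (hy : y < 1) :
    HasSum (fun j : ℕ => cf x (j + 1) * y ^ (j + 1)) (Sx x y) := by
  unfold Sx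
  split_ifs with hx
  · subst hx
    have h1 := hasSum_pow_div_log_of_abs_lt_one (x := y) (by rw [abs_lt]; constructor <;> linarith)
    convert! h1 using 2 with j
    unfold cf
    have h2 : ∏ i ∈ range (j + 1 - 1), ((i : ℝ) + 1 - 0) = (j.factorial : ℝ) := by
      rw [Nat.add_sub_cancel]
      induction j with
      | zero => simp
      | succ j ih =>
        rw [prod_range_succ, ih, Nat.factorial_succ]
        push_cast; ring
    rw [h2, Nat.factorial_succ]
    have h3 : (j.factorial : ℝ) ≠ 0 := by positivity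
    push_cast
    field_simp
  · have h1 := (one_add_rpow_hasFPowerSeriesOnBall_zero (a := x)).hasSum (y := -y) (by
      rw [Metric.mem_eball, edist_zero_right, enorm_neg, ← ofReal_norm,
        Real.norm_of_nonneg hy0]
      exact ENNReal.ofReal_lt_one.2 hy)
    rw [zero_add] at h1
    have h2 := (hasSum_nat_add_iff' 1).2 h1
    have h3 := h2.mul_left (-(1 / x))
    have e1 : (fun j : ℕ => cf x (j + 1) * y ^ (j + 1)) =
        fun j => -(1 / x) * (binomialSeries ℝ x (j + 1)) fun _ => -y := by
      funext j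
      rw [binomialSeries_apply, choose_eq_prod, List.ofFn_const, List.prod_replicate, smul_eq_mul]
      unfold cf
      rw [Nat.add_sub_cancel, prod_range_succ' _ j]
      have h4 : ∏ k ∈ range j, (x - ((k + 1 : ℕ) : ℝ)) =
          (-1) ^ j * ∏ i ∈ range j, ((i : ℝ) + 1 - x) := by
        rw [← prod_const_one_mul_aux j, ← prod_mul_distrib]
        apply prod_congr rfl
        intro i _
        push_cast; ring
      rw [h4]
      have h5 : ((j + 1).factorial : ℝ) ≠ 0 := by positivity
      have h6 : ((-1 : ℝ)) ^ j * (-1) ^ j = 1 := by rw [← mul_pow]; simp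
      have h7 : (-y) ^ (j + 1) = -((-1) ^ j * y ^ (j + 1)) := by
        rw [neg_pow, pow_succ]; ring
      rw [h7]
      set Q := ∏ i ∈ range j, ((i : ℝ) + 1 - x)
      push_cast
      field_simp
      have h8 : ((-1 : ℝ) ^ j) ^ 2 = 1 := by rw [pow_two, h6]
      rw [sub_zero, h8]
      ring
    have e2 : (1 - (1 - y) ^ x) / x =
        -(1 / x) * ((1 + -y) ^ x - ∑ i ∈ range 1, (binomialSeries ℝ x i) fun _ => -y) := by
      rw [sum_range_one, binomialSeries_apply]
      simp only [List.ofFn_zero, List.prod_nil, Ring.choose_zero_right, one_smul]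
      rw [← sub_eq_add_neg]
      field_simp
      ring
    rw [e1, e2]
    exact h3

end Pool.Agent.LibOS96
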