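import Pool.Agent.LibOS96.ThetaInt
import Pool.Agent.LibOS96.Series

/-!
# The recursion in the size of the block of the first replica
-/

open MeasureTheory ProbabilityTheory Set
open Pool.Agent.OS

namespace Pool.Agent.LibOS96

variable {P : Measure (ℕ → ℕ → ℝ)} {ζ : Measure ℝ} {s : ℝ} {L : List (ℝ × ℝ)}

theorem Good.count {R : ℕ → ℕ → ℝ} (h : Good R) (hs : s ≤ 1) {N : ℕ} (hN : 1 ≤ N) :
    ((Finset.range N).erase 0).sum (fun l => if s ≤ R 0 l then (1 : ℝ) else 0) =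
      (bsz s N R 0 : ℝ) - 1 := by
  have h1 : (Finset.range N).sum (fun l => if s ≤ R 0 l then (1 : ℝ) else 0) = bsz s N R 0 := by
    rw [← Fin.sum_univ_eq_sum_range (fun l => if s ≤ R 0 l then (1 : ℝ) else 0) N]
    unfold bsz blk
    rw [Finset.card_filter]
    push_cast
    rfl
  rw [← h1, ← Finset.add_sum_erase _ _ (Finset.mem_range.2 (show 0 < N by omega)), h.diag,
    if_pos hs]
  ring

/-- integrals over the events that a replica is in the first block -/
theorem GGArray.count_int (H : GGArray P ζ) (hs : s ≤ 1) {N : ℕ} (hN : 1 ≤ N) {L' : List ℝ}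
    {Θ : (ℕ → ℕ → ℝ) → ℝ} (hΘ : PatDep N L' Θ) {j : ℕ}
    (hsup : ∀ R, bsz s N R 0 ≠ j → Θ R = 0) :
    ∑ l ∈ (Finset.range N).erase 0, ∫ R in {R | R 0 l ∈ Ici s}, Θ R ∂P =
      ((j : ℝ) - 1) * ∫ R, Θ R ∂P := by
  have := H.prob
  have hint : Integrable Θ P := hΘ.integrable
  have h1 : ∀ l, ∫ R in {R | R 0 l ∈ Ici s}, Θ R ∂P =
      ∫ R, ({R : ℕ → ℕ → ℝ | R 0 l ∈ Ici s}).indicator Θ R ∂P := fun l =>
    (integral_indicator (meas_entry measurableSet_Ici)).symm
  simp_rw [h1]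
  rw [← integral_finsetSum _ (fun l _ => hint.indicator (meas_entry measurableSet_Ici)),
    ← integral_const_mul]
  apply integral_congr_ae
  filter_upwards [H.good] with R hR
  have h2 : ∀ l, ({R : ℕ → ℕ → ℝ | R 0 l ∈ Ici s}).indicator Θ R =
      (if s ≤ R 0 l then (1 : ℝ) else 0) * Θ R := by
    intro l
    by_cases hl : s ≤ R 0 l
    · rw [if_pos hl, one_mul, indicator_of_mem]
      exact hl
    · rw [if_neg hl, zero_mul, indicator_of_notMem]
      exact hl
  simp_rw [h2]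
  rw [← Finset.sum_mul, hR.count hs hN]
  by_cases hj : bsz s N R 0 = j
  · rw [hj]
  · rw [hsup R hj, mul_zero, mul_zero]

/-- expectation of `Th` on the event that the block of the first replica has size `j` -/
noncomputable def VV (P : Measure (ℕ → ℕ → ℝ)) (L : List (ℝ × ℝ)) (s : ℝ) (hh : ℕ → ℝ → ℝ)
    (n j : ℕ) (f : ℝ → ℝ) : ℝ :=
  ∫ R, (if bsz s (n + 1) R 0 = j then Th L s (n + 1) hh f 0 R else 0) ∂P

theorem patDep_VV (hh : ℕ → ℝ → ℝ) (f : ℝ → ℝ) (n j : ℕ) :
    PatDep (n + 1) (s :: L.map Prod.fst)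
      (fun R => if bsz s (n + 1) R 0 = j then Th L s (n + 1) hh f 0 R else 0) := by
  intro R R' h
  have h1 : ∀ i < n + 1, ∀ k < n + 1, (s ≤ R i k ↔ s ≤ R' i k) := fun i hi k hk =>
    h i hi k hk s (by simp)
  have h2 := bsz_congr h1 (0 : Fin (n + 1))
  rw [Fin.val_zero] at h2
  simp only
  rw [h2, patDep_Th hh f 0 R R' h]

theorem GGArray.VV_succ (H : GGArray P ζ) (hs : s ≤ 1) (hL : ∀ p ∈ L, p.1 ≤ 1 ∧ 0 ≤ p.2)
    {hh : ℕ → ℝ → ℝ} (hm : ∀ b, Measurable (hh b)) {f : ℝ → ℝ} (hf : Measurable f)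
    (n j : ℕ) (hj : 1 ≤ j) :
    (j : ℝ) * VV P L s hh (n + 1) (j + 1) f = (j - ζ.real (Iio s)) * VV P L s hh n j f := by
  have := H.prob
  have := H.probζ
  set Θ1 : (ℕ → ℕ → ℝ) → ℝ :=
    fun R => if bsz s (n + 1 + 1) R 0 = j + 1 then Th L s (n + 1 + 1) hh f 0 R else 0 with hΘ1
  set Θ0 : (ℕ → ℕ → ℝ) → ℝ :=
    fun R => if bsz s (n + 1) R 0 = j then Th L s (n + 1) hh f 0 R else 0 with hΘ0
  have hp1 : PatDep (n + 1 + 1) (s :: L.map Prod.fst) Θ1 := patDep_VV hh f (n + 1) (j + 1)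
  have hp0 : PatDep (n + 1) (s :: L.map Prod.fst) Θ0 := patDep_VV hh f n j
  have hΘ1m := hp1.measurable
  -- exchangeability
  have hA : ∀ i ∈ (Finset.range (n + 1 + 1)).erase 0,
      ∫ R in {R | R 0 i ∈ Ici s}, Θ1 R ∂P = ∫ R in {R | R 0 (n + 1) ∈ Ici s}, Θ1 R ∂P := by
    intro i hi
    rw [Finset.mem_erase, Finset.mem_range] at hi
    set σ : Equiv.Perm ℕ := Equiv.swap i (n + 1) with hσ
    set e : Equiv.Perm (Fin (n + 1 + 1)) := Equiv.swap ⟨i, hi.2⟩ ⟨n + 1, by omega⟩ with he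
    have hse : ∀ a : Fin (n + 1 + 1), σ a = e a := by
      intro a
      rw [hσ, he]
      by_cases h1 : (a : ℕ) = i
      · have h2 : a = ⟨i, hi.2⟩ := Fin.ext h1
        rw [h2, Equiv.swap_apply_left]
        simp
      · by_cases h2 : (a : ℕ) = n + 1
        · have h3 : a = ⟨n + 1, by omega⟩ := Fin.ext h2
          rw [h3, Equiv.swap_apply_right]
          simp
        · rw [Equiv.swap_apply_of_ne_of_ne h1 h2, Equiv.swap_apply_of_ne_of_ne
            (fun h => h1 (by rw [h])) (fun h => h2 (by rw [h]))]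
    have he0 : e 0 = 0 := by
      apply Fin.ext
      rw [← hse 0, hσ, Fin.val_zero, Equiv.swap_apply_of_ne_of_ne (Ne.symm hi.1) (by omega)]
    have hmap := H.exch i (n + 1)
    rw [← hσ] at hmap
    conv_lhs => rw [← hmap]
    rw [setIntegral_map (meas_entry measurableSet_Ici) hΘ1m.aestronglyMeasurable
      (measurable_rel σ).aemeasurable]
    have hpre : rel σ ⁻¹' {R : ℕ → ℕ → ℝ | R 0 i ∈ Ici s} =
        {R : ℕ → ℕ → ℝ | R 0 (n + 1) ∈ Ici s} := by
      ext R
      simp only [mem_preimage, mem_ofPred_eq, rel]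
      rw [hσ, Equiv.swap_apply_left, Equiv.swap_apply_of_ne_of_ne (Ne.symm hi.1) (by omega)]
    rw [hpre]
    apply integral_congr_ae
    apply ae_restrict_of_ae
    filter_upwards [H.good] with R hR
    simp only [hΘ1]
    have h1 := bsz_rel (s := s) (R := R) σ e hse 0
    rw [he0, Fin.val_zero] at h1
    rw [h1, Th_rel hL hR hh f 0 hm hf σ e hse, he0]
  have hsum1 := H.count_int hs (show 1 ≤ n + 1 + 1 by omega) hp1 (j := j + 1) (fun R hR => by
    simp only [hΘ1]; rw [if_neg hR])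
  rw [Finset.sum_congr rfl hA, Finset.sum_const,
    Finset.card_erase_of_mem (Finset.mem_range.2 (by omega)), Finset.card_range,
    nsmul_eq_mul] at hsum1
  -- the last replica
  have hlast : ∫ R in {R | R 0 (n + 1) ∈ Ici s}, Θ1 R ∂P =
      ∫ R in {R | R 0 (n + 1) ∈ Ici s}, Θ0 R ∂P := by
    apply setIntegral_congr_ae (meas_entry measurableSet_Ici)
    filter_upwards [H.good] with R hR hRs
    have h1 : s ≤ R 0 (n + 1) := hRs
    simp only [hΘ1, hΘ0]
    have h2 : bsz s (n + 1 + 1) R 0 = bsz s (n + 1) R 0 + 1 := by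
      have e1 := hR.count hs (show 1 ≤ n + 1 + 1 by omega)
      have e2 := hR.count hs (show 1 ≤ n + 1 by omega)
      have e3 : (Finset.range (n + 1 + 1)).erase 0 =
          insert (n + 1) ((Finset.range (n + 1)).erase 0) := by
        ext x
        simp only [Finset.mem_erase, Finset.mem_range, Finset.mem_insert]
        omega
      rw [e3, Finset.sum_insert (by simp), if_pos h1, e2] at e1
      have e4 : (bsz s (n + 1 + 1) R 0 : ℝ) = bsz s (n + 1) R 0 + 1 := by linarith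
      exact_mod_cast e4
    rw [h2]
    have h3 : Th L s (n + 1 + 1) hh f 0 R = Th L s (n + 1) hh f 0 R :=
      Th_last hL hR hh f (0 : Fin (n + 1)) hm hf h1
    rw [h3]
    by_cases hj' : bsz s (n + 1) R 0 = j
    · rw [if_pos hj', if_pos (by omega)]
    · rw [if_neg hj', if_neg (by omega)]
  -- the identities
  have hgg := H.gg_fun (show 0 < n + 1 by omega) hp0 (measurableSet_Ici (a := s))
  rw [H.count_int hs (show 1 ≤ n + 1 by omega) hp0 (j := j) (fun R hR => by
    simp only [hΘ0]; rw [if_neg hR])] at hgg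
  have hζ : ζ.real (Ici s) = 1 - ζ.real (Iio s) := by
    rw [← compl_Iio, probReal_compl_eq_one_sub measurableSet_Iio]
  rw [hlast, hgg, hζ] at hsum1
  have e1 : VV P L s hh (n + 1) (j + 1) f = ∫ R, Θ1 R ∂P := rfl
  have e2 : VV P L s hh n j f = ∫ R, Θ0 R ∂P := rfl
  rw [e1, e2]
  have hn : ((n : ℝ) + 1) ≠ 0 := by positivity
  have e3 : n + 1 + 1 - 1 = n + 1 := by omega
  rw [e3] at hsum1
  push_cast at hsum1
  field_simp at hsum1
  linarith

theorem GGArray.VV_eq (H : GGArray P ζ) (hs : s ≤ 1) (hL : ∀ p ∈ L, p.1 ≤ 1 ∧ 0 ≤ p.2)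
    {hh : ℕ → ℝ → ℝ} (hm : ∀ b, Measurable (hh b)) {f : ℝ → ℝ} (hf : Measurable f)
    (k j : ℕ) :
    VV P L s hh (k + j) (j + 1) f =
      ((j : ℝ) + 1) * cf (ζ.real (Iio s)) (j + 1) * VV P L s hh k 1 f := by
  induction j with
  | zero => simp [cf_one]
  | succ j ih =>
    have h1 := H.VV_succ hs hL hm hf (k + j) (j + 1) (by omega)
    rw [ih] at h1
    have h2 := cf_succ (ζ.real (Iio s)) (show 1 ≤ j + 1 by omega)
    have hj : ((j : ℝ) + 1) ≠ 0 := by positivity
    push_cast at h1 h2 ⊢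
    have h3 : VV P L s hh (k + (j + 1)) (j + 1 + 1) f = VV P L s hh (k + j + 1) (j + 1 + 1) f := rfl
    rw [h3]
    apply mul_left_cancel₀ hj
    rw [h1]
    calc ((j : ℝ) + 1 - ζ.real (Iio s)) *
          (((j : ℝ) + 1) * cf (ζ.real (Iio s)) (j + 1) * VV P L s hh k 1 f)
        = ((j : ℝ) + 1) * (((j : ℝ) + 1 - ζ.real (Iio s)) * cf (ζ.real (Iio s)) (j + 1)) *
          VV P L s hh k 1 f := by ring
      _ = _ := by rw [← h2]; ring

/-- bound -/
theorem GGArray.abs_VV_le (H : GGArray P ζ) (hs : s ≤ 1) {ρ : ℝ} (h0 : 0 ≤ ρ) {hh : ℕ → ℝ → ℝ}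
    (hH : HF ρ hh) {f : ℝ → ℝ} {M : ℝ} (hM : ∀ y, |f y| ≤ M) (k : ℕ) :
    |VV P L s hh k 1 f| ≤ M * ρ ^ k := by
  have := H.prob
  unfold VV
  rw [← Real.norm_eq_abs]
  have hM0 : 0 ≤ M := (abs_nonneg _).trans (hM 0)
  have h := norm_integral_le_of_norm_le_const (μ := P)
    (f := fun R => if bsz s (k + 1) R 0 = 1 then Th L s (k + 1) hh f 0 R else 0) (C := M * ρ ^ k)
    (by
      filter_upwards [H.good] with R hR
      split_ifs with h1
      · have h2 := hH.abs_Th_le h0 hR hs hM (0 : Fin (k + 1)) (L := L)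
        rw [Fin.val_zero, h1, Nat.add_sub_cancel] at h2
        exact h2
      · rw [norm_zero]; positivity)
  rw [probReal_univ, mul_one] at h
  exact h

/-- linearity in the function -/
theorem GGArray.VV_sum (H : GGArray P ζ) (hs : s ≤ 1) {ρ : ℝ} (h0 : 0 ≤ ρ) (h1 : ρ ≤ 1)
    {hh : ℕ → ℝ → ℝ} (hH : HF ρ hh) {ι : Type} (S : Finset ι) (a : ι → ℝ) {f : ι → ℝ → ℝ}
    (hf : ∀ i, Measurable (f i)) {M : ℝ} (hM : ∀ i y, |f i y| ≤ M) (k j : ℕ) :
    VV P L s hh k j (fun y => ∑ i ∈ S, a i * f i y) = ∑ i ∈ S, a i * VV P L s hh k j (f i) := by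
  have := H.prob
  unfold VV
  simp_rw [← integral_const_mul]
  rw [← integral_finsetSum]
  · apply integral_congr_ae
    filter_upwards [H.good] with R hR
    split_ifs with hj
    · unfold Th
      simp_rw [← integral_const_mul]
      rw [← integral_finsetSum]
      · congr 1
        funext z
        rw [Finset.sum_mul]
        apply Finset.sum_congr rfl
        intro i _
        ring
      · intro i _
        exact (hH.integrable h0 h1 hR hs (hf i) (hM i) 0 _).const_mul _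
    · simp
  · intro i _
    exact ((patDep_VV hh (f i) k j).integrable).const_mul _

end Pool.Agent.LibOS96
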