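import Pool.Agent.LibOS96.Block
import Pool.Agent.LibOS96.Pattern

/-!
# Block structure of a good array at one threshold
-/

open MeasureTheory ProbabilityTheory Set
open Pool.Agent.OS

namespace Pool.Agent.LibOS96

/-- covariance matrix of the discretised cavity field: `L` is a list of pairs (threshold, increment) -/
noncomputable def Km (L : List (ℝ × ℝ)) (cl : ℝ) (n : ℕ) (R : ℕ → ℕ → ℝ) :
    Matrix (Fin n) (Fin n) ℝ :=
  fun i j => (L.map (fun p => if p.1 ≤ R i j then p.2 else 0)).sum + (if i = j then cl else 0)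

/-- symmetric ultrametric arrays with diagonal one -/
structure Good (R : ℕ → ℕ → ℝ) : Prop where
  diag : ∀ i, R i i = 1
  symm : ∀ i j, R i j = R j i
  ultra : ∀ i j k, min (R i k) (R j k) ≤ R i j

theorem GGArray.good {P : Measure (ℕ → ℕ → ℝ)} {ζ : Measure ℝ} (H : GGArray P ζ) :
    ∀ᵐ R ∂P, Good R := by
  filter_upwards [H.diag, H.symm, H.ultra] with R h1 h2 h3
  exact ⟨h1, h2, h3⟩

theorem Good.trans {R : ℕ → ℕ → ℝ} (h : Good R) {s : ℝ} {i j k : ℕ} (h1 : s ≤ R i k)
    (h2 : s ≤ R j k) : s ≤ R i j := (le_min h1 h2).trans (h.ultra i j k)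

theorem Good.trans' {R : ℕ → ℕ → ℝ} (h : Good R) {s : ℝ} {i j k : ℕ} (h1 : s ≤ R i j)
    (h2 : s ≤ R j k) : s ≤ R i k := by
  apply h.trans (k := j) h1
  rw [h.symm]; exact h2

theorem Good.iff_left {R : ℕ → ℕ → ℝ} (h : Good R) {s : ℝ} {i j k : ℕ} (h1 : s ≤ R i j) :
    s ≤ R i k ↔ s ≤ R j k := by
  constructor
  · intro h2
    apply h.trans' _ h2
    rw [h.symm]; exact h1
  · intro h2
    exact h.trans' h1 h2

/-- the block of `a` among the first `n` replicas -/
noncomputable def blk (s : ℝ) (n : ℕ) (R : ℕ → ℕ → ℝ) (a : ℕ) : Finset (Fin n) :=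
  Finset.univ.filter fun b : Fin n => s ≤ R a b

theorem mem_blk {s : ℝ} {n : ℕ} {R : ℕ → ℕ → ℝ} {a : ℕ} {b : Fin n} :
    b ∈ blk s n R a ↔ s ≤ R a b := by simp [blk]

/-- the size of the block of `a` -/
noncomputable def bsz (s : ℝ) (n : ℕ) (R : ℕ → ℕ → ℝ) (a : ℕ) : ℕ := (blk s n R a).card

/-- the representative of the block of `a` -/
noncomputable def repf (s : ℝ) (n : ℕ) (R : ℕ → ℕ → ℝ) (a : Fin n) : Fin n :=
  if h : (blk s n R a).Nonempty then (blk s n R a).min' h else a

variable {R : ℕ → ℕ → ℝ} {s : ℝ} {n : ℕ}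

theorem Good.self_mem (h : Good R) (hs : s ≤ 1) (a : Fin n) : a ∈ blk s n R a := by
  rw [mem_blk, h.diag]; exact hs

theorem Good.blk_eq (h : Good R) {a b : ℕ} (hab : s ≤ R a b) : blk s n R a = blk s n R b := by
  ext c
  rw [mem_blk, mem_blk]
  exact h.iff_left hab

theorem Good.rep_rel (h : Good R) (hs : s ≤ 1) (a : Fin n) : s ≤ R a (repf s n R a) := by
  unfold repf
  rw [dif_pos ⟨a, h.self_mem hs a⟩]
  exact mem_blk.1 (Finset.min'_mem _ _)

theorem repf_congr {a b : Fin n} (hab : blk s n R a = blk s n R b)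
    (hne : (blk s n R a).Nonempty) : repf s n R a = repf s n R b := by
  unfold repf
  rw [dif_pos hne, dif_pos (hab ▸ hne)]
  congr 1

theorem Good.rep_eq_iff (h : Good R) (hs : s ≤ 1) (a b : Fin n) :
    repf s n R a = repf s n R b ↔ s ≤ R a b := by
  constructor
  · intro hab
    have h1 := h.rep_rel hs a
    have h2 := h.rep_rel hs b
    rw [hab] at h1
    exact h.trans h1 h2
  · intro hab
    exact repf_congr (h.blk_eq hab) ⟨a, h.self_mem hs a⟩

theorem Good.rep_rep (h : Good R) (hs : s ≤ 1) (a : Fin n) :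
    repf s n R (repf s n R a) = repf s n R a := by
  rw [h.rep_eq_iff hs, h.symm]
  exact h.rep_rel hs a

theorem Good.card_fiber (h : Good R) (hs : s ≤ 1) (a : Fin n) :
    (Finset.univ.filter fun b => repf s n R b = repf s n R a).card = bsz s n R a := by
  unfold bsz blk
  congr 1
  ext b
  simp only [Finset.mem_filter, Finset.mem_univ, true_and]
  rw [h.rep_eq_iff hs, h.symm]

theorem Good.bsz_pos (h : Good R) (hs : s ≤ 1) (a : Fin n) : 0 < bsz s n R a :=
  Finset.card_pos.2 ⟨a, h.self_mem hs a⟩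

theorem Good.blockM_eq (h : Good R) (hs : s ≤ 1) :
    blockM (repf s n R) = fun a b : Fin n => if s ≤ R a b then 1 else 0 := by
  funext a b
  unfold blockM
  by_cases hab : s ≤ R a b
  · rw [if_pos ((h.rep_eq_iff hs a b).2 hab), if_pos hab]
  · rw [if_neg (fun h' => hab ((h.rep_eq_iff hs a b).1 h')), if_neg hab]

theorem Km_append (L : List (ℝ × ℝ)) (s c : ℝ) (h : Good R) (hs : s ≤ 1) :
    Km (L ++ [(s, c)]) 0 n R = Km L 0 n R + c • blockM (repf s n R) := by
  ext a b
  have h1 := congrFun (congrFun (h.blockM_eq (n := n) hs) a) b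
  rw [Matrix.add_apply, Matrix.smul_apply, h1]
  simp only [Km, List.map_append, List.sum_append,
    List.map_cons, List.map_nil, List.sum_cons, List.sum_nil, smul_eq_mul]
  by_cases hab : s ≤ R a b
  · simp [hab]
  · simp [hab]

theorem Km_cl (L : List (ℝ × ℝ)) (cl : ℝ) :
    Km L cl n R = Km L 0 n R + cl • (1 : Matrix (Fin n) (Fin n) ℝ) := by
  ext a b
  simp only [Km, Matrix.add_apply, Matrix.smul_apply, smul_eq_mul, Matrix.one_apply]
  by_cases hab : a = b
  · simp [hab]
  · simp [hab]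

theorem Km_psd (L : List (ℝ × ℝ)) (hL : ∀ p ∈ L, p.1 ≤ 1 ∧ 0 ≤ p.2) (cl : ℝ) (hcl : 0 ≤ cl)
    (h : Good R) (n : ℕ) : (Km L cl n R).PosSemidef := by
  have h0 : ∀ L : List (ℝ × ℝ), (∀ p ∈ L, p.1 ≤ 1 ∧ 0 ≤ p.2) → (Km L 0 n R).PosSemidef := by
    intro L
    induction L using List.reverseRecOn with
    | nil =>
      intro _
      have : Km [] 0 n R = 0 := by
        ext a b; simp [Km]
      rw [this]
      exact Matrix.PosSemidef.zero
    | append_singleton L p ih =>
      intro hL
      obtain ⟨s, c⟩ := p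
      have hp := hL (s, c) (by simp)
      rw [Km_append L s c h hp.1]
      exact (ih fun q hq => hL q (by simp [hq])).add (blockM_psd _ _ hp.2)
  rw [Km_cl]
  exact (h0 L hL).add (Matrix.PosSemidef.one.smul hcl)

theorem Km_submatrix (L : List (ℝ × ℝ)) (hL : ∀ p ∈ L, p.1 ≤ s) (h : Good R) (hs : s ≤ 1) :
    (Km L 0 n R).submatrix (repf s n R) (repf s n R) = Km L 0 n R := by
  ext a b
  simp only [Matrix.submatrix_apply, Km, ite_self, add_zero]
  congr 1
  apply List.map_congr_left
  intro p hp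
  have hps := hL p hp
  have h1 : p.1 ≤ R a (repf s n R a) := hps.trans (h.rep_rel hs a)
  have h2 : p.1 ≤ R b (repf s n R b) := hps.trans (h.rep_rel hs b)
  have h3 : p.1 ≤ R (repf s n R a) (repf s n R b) ↔ p.1 ≤ R a b := by
    rw [← h.iff_left h1, h.symm a, ← h.iff_left h2, h.symm b]
  by_cases hab : p.1 ≤ R a b
  · rw [if_pos (h3.2 hab), if_pos hab]
  · rw [if_neg (fun h' => hab (h3.1 h')), if_neg hab]

/-- restriction to fewer replicas -/
theorem Km_castSucc (L : List (ℝ × ℝ)) :
    (Km L 0 (n + 1) R).submatrix Fin.castSucc Fin.castSucc = Km L 0 n R := by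
  ext a b
  simp [Km]

/-- relabelling -/
theorem Km_rel (L : List (ℝ × ℝ)) (σ : Equiv.Perm ℕ) (e : Fin n → Fin n)
    (he : ∀ a : Fin n, σ a = e a) :
    Km L 0 n (rel σ R) = (Km L 0 n R).submatrix e e := by
  ext a b
  simp only [Matrix.submatrix_apply, Km, rel, he, ite_self, add_zero]

/-! ### products over blocks -/

/-- the product over the replicas of the roots -/
theorem Good.prod_root (h : Good R) (hs : s ≤ 1) {hh : ℕ → ℝ → ℝ} (h0 : ∀ y, hh 0 y = 1)
    (hnn : ∀ b y, 0 ≤ hh b y) {z : Fin n → ℝ} (hz : ∀ a, z a = z (repf s n R a)) :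
    ∏ a : Fin n, (hh (bsz s n R a) (z a)) ^ ((1 : ℝ) / bsz s n R a) =
      ∏ l : Fin n, hh (Finset.univ.filter fun a => repf s n R a = l).card (z l) := by
  rw [← Finset.prod_fiberwise Finset.univ (repf s n R)]
  apply Finset.prod_congr rfl
  intro l _
  rcases (Finset.univ.filter fun a => repf s n R a = l).eq_empty_or_nonempty with he | hne
  · rw [he, Finset.prod_empty, Finset.card_empty, h0]
  · have h1 : ∀ a ∈ Finset.univ.filter fun a => repf s n R a = l,
        (hh (bsz s n R a) (z a)) ^ ((1 : ℝ) / bsz s n R a) =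
        (hh (Finset.univ.filter fun a => repf s n R a = l).card (z l)) ^
          ((1 : ℝ) / (Finset.univ.filter fun a => repf s n R a = l).card) := by
      intro a ha
      rw [Finset.mem_filter] at ha
      have h2 := h.card_fiber hs a
      rw [ha.2] at h2
      rw [← h2, hz a, ha.2]
    rw [Finset.prod_congr rfl h1, Finset.prod_const, ← Real.rpow_natCast, ← Real.rpow_mul (hnn _ _),
      one_div, inv_mul_cancel₀, Real.rpow_one]
    exact Nat.cast_ne_zero.2 (Finset.card_pos.2 hne).ne'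

/-- the same without the block of `a₀` -/
theorem Good.prod_root0 (h : Good R) (hs : s ≤ 1) {hh : ℕ → ℝ → ℝ} (h0 : ∀ y, hh 0 y = 1)
    (hnn : ∀ b y, 0 ≤ hh b y) {z : Fin n → ℝ} (hz : ∀ a, z a = z (repf s n R a)) (a₀ : Fin n) :
    ∏ a : Fin n, (if s ≤ R a₀ a then 1 else (hh (bsz s n R a) (z a)) ^ ((1 : ℝ) / bsz s n R a)) =
      ∏ l ∈ Finset.univ.erase (repf s n R a₀),
        hh (Finset.univ.filter fun a => repf s n R a = l).card (z l) := by
  rw [← Finset.prod_fiberwise Finset.univ (repf s n R)]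
  rw [← Finset.mul_prod_erase Finset.univ _ (Finset.mem_univ (repf s n R a₀))]
  have h3 : ∏ a ∈ Finset.univ.filter fun a => repf s n R a = repf s n R a₀,
      (if s ≤ R a₀ a then (1 : ℝ) else (hh (bsz s n R a) (z a)) ^ ((1 : ℝ) / bsz s n R a)) = 1 := by
    apply Finset.prod_eq_one
    intro a ha
    rw [Finset.mem_filter] at ha
    rw [if_pos ((h.rep_eq_iff hs a₀ a).1 ha.2.symm)]
  rw [h3, one_mul]
  apply Finset.prod_congr rfl
  intro l hl
  rw [Finset.mem_erase] at hl
  rcases (Finset.univ.filter fun a => repf s n R a = l).eq_empty_or_nonempty with he | hne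
  · rw [he, Finset.prod_empty, Finset.card_empty, h0]
  · have h1 : ∀ a ∈ Finset.univ.filter fun a => repf s n R a = l,
        (if s ≤ R a₀ a then (1 : ℝ) else (hh (bsz s n R a) (z a)) ^ ((1 : ℝ) / bsz s n R a)) =
        (hh (Finset.univ.filter fun a => repf s n R a = l).card (z l)) ^
          ((1 : ℝ) / (Finset.univ.filter fun a => repf s n R a = l).card) := by
      intro a ha
      rw [Finset.mem_filter] at ha
      have h2 := h.card_fiber hs a
      rw [ha.2] at h2
      rw [if_neg, ← h2, hz a, ha.2]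
      intro h4
      have h5 := (h.rep_eq_iff hs a₀ a).2 h4
      rw [ha.2] at h5
      exact hl.1 h5.symm
    rw [Finset.prod_congr rfl h1, Finset.prod_const, ← Real.rpow_natCast, ← Real.rpow_mul (hnn _ _),
      one_div, inv_mul_cancel₀, Real.rpow_one]
    exact Nat.cast_ne_zero.2 (Finset.card_pos.2 hne).ne'

end Pool.Agent.LibOS96
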