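import Pool.Agent.LibOS96.Theta

/-!
# Expectations of products over blocks
-/

open MeasureTheory ProbabilityTheory Set
open Pool.Agent.OS

namespace Pool.Agent.LibOS96

/-- admissible families of block weights -/
structure HF (ρ : ℝ) (hh : ℕ → ℝ → ℝ) : Prop where
  meas : ∀ b, Measurable (hh b)
  nonneg : ∀ b y, 0 ≤ hh b y
  le : ∀ b y, hh b y ≤ ρ ^ b
  zero : ∀ y, hh 0 y = 1

/-- expected product over the blocks other than the one of `a₀`, times a function of the field at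
`a₀` -/
noncomputable def Th (L : List (ℝ × ℝ)) (s : ℝ) (n : ℕ) (hh : ℕ → ℝ → ℝ) (f : ℝ → ℝ) (a₀ : Fin n)
    (R : ℕ → ℕ → ℝ) : ℝ :=
  ∫ z, f (z a₀) * ∏ a : Fin n, (if s ≤ R a₀ a then 1
    else (hh (bsz s n R a) (z a)) ^ ((1 : ℝ) / bsz s n R a)) ∂(gm (Km L 0 n R))

/-- expected product over all blocks -/
noncomputable def Pr (L : List (ℝ × ℝ)) (s : ℝ) (n : ℕ) (hh : ℕ → ℝ → ℝ)
    (R : ℕ → ℕ → ℝ) : ℝ :=
  ∫ z, ∏ a : Fin n, (hh (bsz s n R a) (z a)) ^ ((1 : ℝ) / bsz s n R a) ∂(gm (Km L 0 n R))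

variable {R : ℕ → ℕ → ℝ} {s : ℝ} {n : ℕ} {L : List (ℝ × ℝ)}

theorem bsz_congr {R R' : ℕ → ℕ → ℝ} (h : ∀ i < n, ∀ j < n, (s ≤ R i j ↔ s ≤ R' i j)) (a : Fin n) :
    bsz s n R a = bsz s n R' a := by
  unfold bsz blk
  congr 1
  ext b
  simp only [Finset.mem_filter, Finset.mem_univ, true_and]
  exact h a a.isLt b b.isLt

theorem Km_congr {R R' : ℕ → ℕ → ℝ}
    (h : ∀ i < n, ∀ j < n, ∀ t ∈ L.map Prod.fst, (t ≤ R i j ↔ t ≤ R' i j)) (cl : ℝ) :
    Km L cl n R = Km L cl n R' := by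
  ext a b
  simp only [Km]
  congr 2
  apply List.map_congr_left
  intro p hp
  have h1 := h a a.isLt b b.isLt p.1 (List.mem_map.2 ⟨p, hp, rfl⟩)
  by_cases hab : p.1 ≤ R a b
  · rw [if_pos hab, if_pos (h1.1 hab)]
  · rw [if_neg hab, if_neg (fun h' => hab (h1.2 h'))]

theorem patDep_Th (hh : ℕ → ℝ → ℝ) (f : ℝ → ℝ) (a₀ : Fin n) :
    PatDep n (s :: L.map Prod.fst) (Th L s n hh f a₀) := by
  intro R R' h
  have h1 : ∀ i < n, ∀ j < n, (s ≤ R i j ↔ s ≤ R' i j) := fun i hi j hj =>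
    h i hi j hj s (by simp)
  have h2 : Km L 0 n R = Km L 0 n R' := Km_congr (fun i hi j hj t ht =>
    h i hi j hj t (List.mem_cons_of_mem _ ht)) 0
  unfold Th
  rw [h2]
  congr 1
  funext z
  congr 1
  apply Finset.prod_congr rfl
  intro a _
  rw [bsz_congr h1 a]
  have h3 := h1 a₀ a₀.isLt a a.isLt
  by_cases hab : s ≤ R a₀ a
  · rw [if_pos hab, if_pos (h3.1 hab)]
  · rw [if_neg hab, if_neg (fun h' => hab (h3.2 h'))]

theorem patDep_Pr (hh : ℕ → ℝ → ℝ) :
    PatDep n (s :: L.map Prod.fst) (Pr L s n hh) := by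
  intro R R' h
  have h1 : ∀ i < n, ∀ j < n, (s ≤ R i j ↔ s ≤ R' i j) := fun i hi j hj =>
    h i hi j hj s (by simp)
  have h2 : Km L 0 n R = Km L 0 n R' := Km_congr (fun i hi j hj t ht =>
    h i hi j hj t (List.mem_cons_of_mem _ ht)) 0
  unfold Pr
  rw [h2]
  congr 1
  funext z
  apply Finset.prod_congr rfl
  intro a _
  rw [bsz_congr h1 a]

theorem bsz_rel (σ : Equiv.Perm ℕ) (e : Equiv.Perm (Fin n)) (he : ∀ a : Fin n, σ a = e a)
    (a : Fin n) : bsz s n (rel σ R) a = bsz s n R (e a) := by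
  unfold bsz
  apply Finset.card_bij (fun b _ => e b)
  · intro b hb
    rw [mem_blk] at hb ⊢
    unfold rel at hb
    rw [he, he] at hb
    exact hb
  · intro b _ c _ hbc
    exact e.injective hbc
  · intro b hb
    refine ⟨e.symm b, ?_, e.apply_symm_apply b⟩
    rw [mem_blk] at hb ⊢
    unfold rel
    rw [he, he, e.apply_symm_apply]
    exact hb

theorem Th_rel (hL : ∀ p ∈ L, p.1 ≤ 1 ∧ 0 ≤ p.2) (hR : Good R) (hh : ℕ → ℝ → ℝ)
    (f : ℝ → ℝ) (a₀ : Fin n) (hh_meas : ∀ b, Measurable (hh b)) (hf : Measurable f)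
    (σ : Equiv.Perm ℕ) (e : Equiv.Perm (Fin n)) (he : ∀ a : Fin n, σ a = e a) :
    Th L s n hh f a₀ (rel σ R) = Th L s n hh f (e a₀) R := by
  unfold Th
  rw [Km_rel L σ e he, ← gm_comp (Km_psd L hL 0 le_rfl hR n) e]
  have hm : Measurable (fun x : Fin n → ℝ => x ∘ e) := by
    apply measurable_pi_lambda
    intro a
    exact measurable_pi_apply _
  rw [integral_map hm.aemeasurable]
  · congr 1
    funext z
    simp only [Function.comp_apply]
    congr 1
    rw [← Equiv.prod_comp e (fun a => if s ≤ R (e a₀) a then 1 else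
      (hh (bsz s n R a) (z a)) ^ ((1 : ℝ) / bsz s n R a))]
    apply Finset.prod_congr rfl
    intro a _
    rw [bsz_rel σ e he a]
    unfold rel
    rw [he, he]
  · apply Measurable.aestronglyMeasurable
    apply Measurable.mul (hf.comp (measurable_pi_apply _))
    apply Finset.measurable_prod
    intro a _
    split_ifs
    · exact measurable_const
    · exact ((hh_meas _).comp (measurable_pi_apply _)).pow_const _

/-- a replica in the block of `a₀` can be dropped -/
theorem Th_last (hL : ∀ p ∈ L, p.1 ≤ 1 ∧ 0 ≤ p.2) (hR : Good R) (hh : ℕ → ℝ → ℝ)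
    (f : ℝ → ℝ) (a₀ : Fin n) (hh_meas : ∀ b, Measurable (hh b)) (hf : Measurable f)
    (hlast : s ≤ R a₀ n) :
    Th L s (n + 1) hh f (Fin.castSucc a₀) R = Th L s n hh f a₀ R := by
  unfold Th
  rw [← Km_castSucc (n := n) (R := R) L, ← gm_comp (Km_psd L hL 0 le_rfl hR (n + 1)) Fin.castSucc]
  have hm : Measurable (fun x : Fin (n + 1) → ℝ => x ∘ Fin.castSucc) := by
    apply measurable_pi_lambda
    intro a
    exact measurable_pi_apply _
  rw [integral_map hm.aemeasurable]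
  · congr 1
    funext z
    rw [Fin.prod_univ_castSucc]
    simp only [Fin.val_castSucc, Function.comp_apply, Fin.val_last]
    rw [if_pos hlast, mul_one]
    congr 1
    apply Finset.prod_congr rfl
    intro a _
    by_cases hab : s ≤ R a₀ a
    · rw [if_pos hab, if_pos hab]
    · rw [if_neg hab, if_neg hab]
      have h1 : bsz s (n + 1) R a = bsz s n R a := by
        unfold bsz
        symm
        apply Finset.card_bij (fun b _ => Fin.castSucc b)
        · intro b hb
          rw [mem_blk] at hb ⊢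
          exact hb
        · intro b _ c _ hbc
          exact Fin.castSucc_injective n hbc
        · intro b hb
          rw [mem_blk] at hb
          have hbn : (b : ℕ) ≠ n := by
            intro h2
            rw [h2] at hb
            apply hab
            exact hR.trans hlast hb
          have hb' : (b : ℕ) < n := by
            have := b.isLt
            omega
          refine ⟨⟨b, hb'⟩, ?_, ?_⟩
          · rw [mem_blk]; exact hb
          · exact Fin.ext rfl
      rw [h1]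
  · apply Measurable.aestronglyMeasurable
    apply Measurable.mul (hf.comp (measurable_pi_apply _))
    apply Finset.measurable_prod
    intro a _
    split_ifs
    · exact measurable_const
    · exact ((hh_meas _).comp (measurable_pi_apply _)).pow_const _

variable {ρ : ℝ} {hh : ℕ → ℝ → ℝ}

theorem HF.root_le (H : HF ρ hh) (h0 : 0 ≤ ρ) {b : ℕ} (hb : 0 < b) (y : ℝ) :
    (hh b y) ^ ((1 : ℝ) / b) ≤ ρ := by
  calc (hh b y) ^ ((1 : ℝ) / b) ≤ (ρ ^ b) ^ ((1 : ℝ) / b) :=
        Real.rpow_le_rpow (H.nonneg b y) (H.le b y) (by positivity)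
    _ = ρ := by
        rw [one_div, Real.pow_rpow_inv_natCast h0 hb.ne']

theorem HF.root_nonneg (H : HF ρ hh) (b : ℕ) (y : ℝ) :
    0 ≤ (hh b y) ^ ((1 : ℝ) / b) := Real.rpow_nonneg (H.nonneg b y) _

theorem HF.prod_le (H : HF ρ hh) (h0 : 0 ≤ ρ) (hR : Good R) (hs : s ≤ 1) (a₀ : Fin n)
    (z : Fin n → ℝ) :
    ∏ a : Fin n, (if s ≤ R a₀ a then 1 else (hh (bsz s n R a) (z a)) ^ ((1 : ℝ) / bsz s n R a)) ≤
      ρ ^ (n - bsz s n R a₀) := by
  calc _ ≤ ∏ a : Fin n, (if s ≤ R a₀ a then 1 else ρ) := by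
        apply Finset.prod_le_prod
        · intro a _
          split_ifs
          · exact zero_le_one
          · exact H.root_nonneg _ _
        · intro a _
          split_ifs
          · exact le_rfl
          · exact H.root_le h0 (hR.bsz_pos hs a) _
    _ = ρ ^ (n - bsz s n R a₀) := by
        rw [Finset.prod_ite, Finset.prod_const_one, one_mul, Finset.prod_const]
        congr 1
        have h1 := Finset.card_filter_add_card_filter_not (s := (Finset.univ : Finset (Fin n)))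
          (fun a : Fin n => s ≤ R a₀ a)
        rw [Finset.card_univ, Fintype.card_fin] at h1
        unfold bsz blk
        omega

theorem HF.prod_nonneg (H : HF ρ hh) (a₀ : Fin n) (z : Fin n → ℝ) :
    0 ≤ ∏ a : Fin n, (if s ≤ R a₀ a then (1 : ℝ) else
      (hh (bsz s n R a) (z a)) ^ ((1 : ℝ) / bsz s n R a)) := by
  apply Finset.prod_nonneg
  intro a _
  split_ifs
  · exact zero_le_one
  · exact H.root_nonneg _ _

theorem HF.meas_integrand (H : HF ρ hh) {f : ℝ → ℝ} (hf : Measurable f) (a₀ : Fin n) :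
    Measurable fun z : Fin n → ℝ => f (z a₀) * ∏ a : Fin n, (if s ≤ R a₀ a then 1
    else (hh (bsz s n R a) (z a)) ^ ((1 : ℝ) / bsz s n R a)) := by
  apply Measurable.mul (hf.comp (measurable_pi_apply _))
  apply Finset.measurable_prod
  intro a _
  split_ifs
  · exact measurable_const
  · exact ((H.meas _).comp (measurable_pi_apply _)).pow_const _

theorem HF.integrable (H : HF ρ hh) (h0 : 0 ≤ ρ) (h1 : ρ ≤ 1) (hR : Good R) (hs : s ≤ 1)
    {f : ℝ → ℝ} (hf : Measurable f) {M : ℝ} (hM : ∀ y, |f y| ≤ M) (a₀ : Fin n)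
    (μ : Measure (Fin n → ℝ)) [IsFiniteMeasure μ] :
    Integrable (fun z : Fin n → ℝ => f (z a₀) * ∏ a : Fin n, (if s ≤ R a₀ a then 1
    else (hh (bsz s n R a) (z a)) ^ ((1 : ℝ) / bsz s n R a))) μ := by
  refine Integrable.of_bound (H.meas_integrand hf a₀).aestronglyMeasurable M
    (Filter.Eventually.of_forall fun z => ?_)
  rw [Real.norm_eq_abs, abs_mul, abs_of_nonneg (H.prod_nonneg a₀ z)]
  have h2 := H.prod_le h0 hR hs a₀ z
  have h3 : ρ ^ (n - bsz s n R a₀) ≤ 1 := pow_le_one₀ h0 h1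
  have h4 := hM (z a₀)
  calc _ ≤ M * 1 := mul_le_mul h4 (h2.trans h3) (H.prod_nonneg a₀ z) ((abs_nonneg _).trans h4)
    _ = M := mul_one M

theorem HF.abs_Th_le (H : HF ρ hh) (h0 : 0 ≤ ρ) (hR : Good R) (hs : s ≤ 1)
    {f : ℝ → ℝ} {M : ℝ} (hM : ∀ y, |f y| ≤ M) (a₀ : Fin n) :
    |Th L s n hh f a₀ R| ≤ M * ρ ^ (n - bsz s n R a₀) := by
  unfold Th
  rw [← Real.norm_eq_abs]
  have h := norm_integral_le_of_norm_le_const (μ := gm (Km L 0 n R))
    (f := fun z : Fin n → ℝ => f (z a₀) * ∏ a : Fin n, (if s ≤ R a₀ a then 1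
    else (hh (bsz s n R a) (z a)) ^ ((1 : ℝ) / bsz s n R a))) (C := M * ρ ^ (n - bsz s n R a₀))
    (Filter.Eventually.of_forall fun z => by
      rw [Real.norm_eq_abs, abs_mul, abs_of_nonneg (H.prod_nonneg a₀ z)]
      exact mul_le_mul (hM _) (H.prod_le h0 hR hs a₀ z) (H.prod_nonneg a₀ z)
        ((abs_nonneg _).trans (hM 0)))
  rw [probReal_univ, mul_one] at h
  exact h

end Pool.Agent.LibOS96
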